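import Mathlib

/-!
# CU: the value for the cube
-/

set_option autoImplicit false

noncomputable section

open MeasureTheory Filter Topology Set
open scoped BigOperators ENNReal

namespace Pool.Agent.N294.FM

namespace CUaux

theorem lint_prod {n : ℕ} (μ : Fin n → Measure ℝ)
    [∀ i, SigmaFinite (μ i)] (f : Fin n → ℝ → ℝ≥0∞) (hf : ∀ i, Measurable (f i)) :
    ∫⁻ x : Fin n → ℝ, ∏ i, f i (x i) ∂(Measure.pi μ) = ∏ i, ∫⁻ x, f i x ∂(μ i) := by
  induction n with
  | zero => simp
  | succ n n_ih =>
      calc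
        _ = ∫⁻ x : ℝ × (Fin n → ℝ),
            f 0 x.1 * ∏ i : Fin n, f (Fin.succ i) (x.2 i)
            ∂((μ 0).prod (Measure.pi (fun i ↦ μ i.succ))) := by
          rw [← ((measurePreserving_piFinSuccAbove μ 0).symm).lintegral_comp_emb
            (MeasurableEquiv.measurableEmbedding _)]
          simp_rw [MeasurableEquiv.piFinSuccAbove_symm_apply, Fin.insertNthEquiv,
            Fin.prod_univ_succ, Fin.insertNth_zero, Equiv.coe_fn_mk, Fin.cons_succ,
            Fin.zero_succAbove, cast_eq, Fin.cons_zero]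
        _ = (∫⁻ x, f 0 x ∂μ 0)
            * ∏ i : Fin n, ∫⁻ (x : ℝ), f (Fin.succ i) x ∂(μ i.succ) := by
          rw [← n_ih (fun i => μ i.succ) (fun i => f i.succ) (fun i => hf _)]
          exact lintegral_prod_mul (hf 0).aemeasurable (Finset.measurable_prod _ (fun i _ =>
            (hf _).comp (measurable_pi_apply i))).aemeasurable
        _ = ∏ i, ∫⁻ x, f i x ∂(μ i) := by rw [Fin.prod_univ_succ]

/-- the support function of the translated cube -/
lemma sup_cube {n : ℕ} (x y : Fin n → ℝ) :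
    sSup ((fun z : Fin n → ℝ => ∑ i, z i * y i) '' ((fun z => z - x) ''
      {z : Fin n → ℝ | ∀ i, |z i| ≤ 1})) = ∑ i, (|y i| - x i * y i) := by
  apply IsGreatest.csSup_eq
  constructor
  · refine ⟨(fun i => if 0 ≤ y i then 1 else -1) - x, ⟨fun i => if 0 ≤ y i then 1 else -1, ?_, rfl⟩, ?_⟩
    · intro i
      dsimp only
      split_ifs <;> simp
    · refine Finset.sum_congr rfl fun i _ => ?_
      simp only [Pi.sub_apply]
      split_ifs with h
      · rw [abs_of_nonneg h]; ring
      · rw [abs_of_neg (not_le.1 h)]; ring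
  · rintro _ ⟨_, ⟨z, hz, rfl⟩, rfl⟩
    refine Finset.sum_le_sum fun i _ => ?_
    simp only [Pi.sub_apply]
    have h1 : z i * y i ≤ |y i| := by
      calc z i * y i ≤ |z i * y i| := le_abs_self _
        _ = |z i| * |y i| := abs_mul _ _
        _ ≤ 1 * |y i| := mul_le_mul_of_nonneg_right (hz i) (abs_nonneg _)
        _ = |y i| := one_mul _
    linarith

/-- one variable: `∫ exp (-(|t| - s t)) dt = 1/(1-s) + 1/(1+s)` -/
lemma one_var {s : ℝ} (h1 : -1 < s) (h2 : s < 1) :
    ∫⁻ t : ℝ, ENNReal.ofReal (Real.exp (-(|t| - s * t))) =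
      ENNReal.ofReal (1 / (1 - s) + 1 / (1 + s)) := by
  have ha : 0 < 1 - s := by linarith
  have hb : 0 < 1 + s := by linarith
  have e1 : ∫⁻ t in Ioi (0 : ℝ), ENNReal.ofReal (Real.exp (-(|t| - s * t))) =
      ENNReal.ofReal (1 / (1 - s)) := by
    have : ∀ t ∈ Ioi (0 : ℝ), ENNReal.ofReal (Real.exp (-(|t| - s * t))) =
        ENNReal.ofReal (Real.exp (-(1 - s) * t)) := by
      intro t ht
      rw [abs_of_pos ht]; congr 2; ring
    rw [setLIntegral_congr_fun measurableSet_Ioi this,
      ← ofReal_integral_eq_lintegral_ofReal (integrableOn_exp_mul_Ioi (by linarith) 0)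
        (ae_of_all _ fun _ => (Real.exp_pos _).le),
      integral_exp_mul_Ioi (by linarith) 0]
    congr 1
    have h3 : s - 1 ≠ 0 := by linarith
    have h4 : 1 - s ≠ 0 := ha.ne'
    rw [mul_zero, Real.exp_zero]
    field_simp
  have e2 : ∫⁻ t in Iic (0 : ℝ), ENNReal.ofReal (Real.exp (-(|t| - s * t))) =
      ENNReal.ofReal (1 / (1 + s)) := by
    have : ∀ t ∈ Iic (0 : ℝ), ENNReal.ofReal (Real.exp (-(|t| - s * t))) =
        ENNReal.ofReal (Real.exp ((1 + s) * t)) := by
      intro t ht
      rw [abs_of_nonpos ht]; congr 2; ring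
    rw [setLIntegral_congr_fun measurableSet_Iic this,
      ← ofReal_integral_eq_lintegral_ofReal (integrableOn_exp_mul_Iic hb 0)
        (ae_of_all _ fun _ => (Real.exp_pos _).le),
      integral_exp_mul_Iic hb 0]
    congr 1
    simp
  rw [← lintegral_add_compl _ (measurableSet_Ioi : MeasurableSet (Ioi (0 : ℝ))), compl_Ioi, e1, e2,
    ENNReal.ofReal_add (by positivity) (by positivity)]

/-- the second integral -/
lemma two_var {lam : ℝ} (h0 : 0 < lam) (h1 : lam < 1) :
    ∫⁻ s in Icc (-lam) lam, ENNReal.ofReal (1 / (1 - s) + 1 / (1 + s)) =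
      ENNReal.ofReal (2 * Real.log ((1 + lam) / (1 - lam))) := by
  have hle : -lam ≤ lam := by linarith
  have hcont : ContinuousOn (fun s : ℝ => 1 / (1 - s) + 1 / (1 + s)) (Icc (-lam) lam) := by
    refine ContinuousOn.add ?_ ?_
    · exact continuousOn_const.div (by fun_prop) fun s hs => by
        have := hs.2; intro h; linarith
    · exact continuousOn_const.div (by fun_prop) fun s hs => by
        have := hs.1; intro h; linarith
  have hint : IntegrableOn (fun s : ℝ => 1 / (1 - s) + 1 / (1 + s)) (Icc (-lam) lam) :=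
    hcont.integrableOn_Icc
  rw [← ofReal_integral_eq_lintegral_ofReal hint]
  · congr 1
    rw [integral_Icc_eq_integral_Ioc, ← intervalIntegral.integral_of_le hle]
    have hd : ∀ s ∈ uIcc (-lam) lam,
        HasDerivAt (fun s : ℝ => Real.log (1 + s) - Real.log (1 - s)) (1 / (1 - s) + 1 / (1 + s)) s := by
      intro s hs
      rw [uIcc_of_le hle] at hs
      have a1 : (1 + s) ≠ 0 := by have := hs.1; intro h; linarith
      have a2 : (1 - s) ≠ 0 := by have := hs.2; intro h; linarith
      have d1 := ((hasDerivAt_id s).const_add 1).log a1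
      have d2 := ((hasDerivAt_id s).const_sub 1).log a2
      refine (d1.sub d2).congr_deriv ?_
      simp only [id]
      field_simp
      ring
    rw [intervalIntegral.integral_eq_sub_of_hasDerivAt hd]
    · rw [Real.log_div (by linarith) (by linarith)]
      have e1 : (1 : ℝ) + -lam = 1 - lam := by ring
      have e2 : (1 : ℝ) - -lam = 1 + lam := by ring
      rw [e1, e2]; ring
    · rw [intervalIntegrable_iff_integrableOn_Icc_of_le hle]
      exact hint
  · refine (ae_restrict_iff' measurableSet_Icc).2 (ae_of_all _ fun s hs => ?_)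
    have a1 : 0 < 1 + s := by have := hs.1; linarith
    have a2 : 0 < 1 - s := by have := hs.2; linarith
    simp only [Pi.zero_apply]
    positivity

end CUaux

open CUaux in
/-- **CU**: the value of the Funk integral for the cube -/
theorem CU (n : ℕ) (lam : ℝ) (h0 : 0 < lam) (h1 : lam < 1) :
    ∫⁻ x in {x : Fin n → ℝ | ∀ i, |x i| ≤ lam}, ∫⁻ y : Fin n → ℝ,
      ENNReal.ofReal (Real.exp (-(sSup ((fun z : Fin n → ℝ => ∑ i, z i * y i) ''
        ((fun z => z - x) '' {z : Fin n → ℝ | ∀ i, |z i| ≤ 1}))))) =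
      ENNReal.ofReal ((2 * Real.log ((1 + lam) / (1 - lam))) ^ n) := by
  have hS : {x : Fin n → ℝ | ∀ i, |x i| ≤ lam} = Set.pi univ fun _ => Icc (-lam) lam := by
    ext x
    simp only [mem_setOf_eq, mem_univ_pi, mem_Icc, abs_le]
  have hmeas : Measurable fun s : ℝ => ENNReal.ofReal (1 / (1 - s) + 1 / (1 + s)) := by
    fun_prop
  have hin : ∀ x ∈ {x : Fin n → ℝ | ∀ i, |x i| ≤ lam}, ∫⁻ y : Fin n → ℝ,
      ENNReal.ofReal (Real.exp (-(sSup ((fun z : Fin n → ℝ => ∑ i, z i * y i) ''
        ((fun z => z - x) '' {z : Fin n → ℝ | ∀ i, |z i| ≤ 1}))))) =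
      ∏ i, ENNReal.ofReal (1 / (1 - x i) + 1 / (1 + x i)) := by
    intro x hx
    have e1 : ∀ y : Fin n → ℝ, ENNReal.ofReal (Real.exp (-(sSup ((fun z : Fin n → ℝ =>
        ∑ i, z i * y i) '' ((fun z => z - x) '' {z : Fin n → ℝ | ∀ i, |z i| ≤ 1}))))) =
        ∏ i, ENNReal.ofReal (Real.exp (-(|y i| - x i * y i))) := by
      intro y
      rw [sup_cube, ← Finset.sum_neg_distrib, Real.exp_sum,
        ENNReal.ofReal_prod_of_nonneg fun i _ => (Real.exp_pos _).le]
    rw [lintegral_congr e1, volume_pi,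
      lint_prod (fun _ => volume) (fun i t => ENNReal.ofReal (Real.exp (-(|t| - x i * t))))
        (fun i => by fun_prop)]
    refine Finset.prod_congr rfl fun i _ => ?_
    have h2 := abs_le.1 (hx i)
    exact one_var (by linarith) (by linarith)
  have hms : MeasurableSet {x : Fin n → ℝ | ∀ i, |x i| ≤ lam} := by
    rw [hS]; exact MeasurableSet.univ_pi fun _ => measurableSet_Icc
  rw [setLIntegral_congr_fun hms hin, hS, volume_pi, Measure.restrict_pi_pi,
    lint_prod _ _ (fun _ => hmeas)]
  simp only [two_var h0 h1, Finset.prod_const, Finset.card_univ, Fintype.card_fin]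
  rw [ENNReal.ofReal_pow]
  have : 0 ≤ Real.log ((1 + lam) / (1 - lam)) := by
    apply Real.log_nonneg
    rw [le_div_iff₀ (by linarith)]
    linarith
  positivity

end Pool.Agent.N294.FM
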