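import Pool.Agent.N294.FM.Stm

/-!
# The layer cake formula for the polar with respect to an interior point
-/

set_option autoImplicit false

noncomputable section

open MeasureTheory Filter Topology
open scoped BigOperators Matrix ENNReal Pointwise

namespace Pool.Agent.N294.FM

namespace Maux

variable {n : ℕ} {g : (Fin n → ℝ) → ℝ}

lemma vol_le (hs : ∀ (t : ℝ) (y : Fin n → ℝ), 0 < t → g (t • y) = t * g y) {t : ℝ} (ht : 0 < t) :
    volume {y | g y ≤ t} = ENNReal.ofReal (t ^ n) * volume {y | g y ≤ 1} := by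
  have h : {y | g y ≤ t} = t • {y | g y ≤ 1} := by
    ext Y
    rw [Set.mem_smul_set_iff_inv_smul_mem₀ ht.ne']
    simp only [Set.mem_setOf_eq]
    rw [hs _ _ (inv_pos.2 ht), inv_mul_eq_div, div_le_one ht]
  rw [h, Measure.addHaar_smul, Module.finrank_pi, Fintype.card_fin, abs_of_pos (by positivity)]

lemma lint_exp (hc : Continuous g) (h0 : ∀ y, 0 ≤ g y)
    (hs : ∀ (t : ℝ) (y : Fin n → ℝ), 0 < t → g (t • y) = t * g y) :
    ∫⁻ Y, ENNReal.ofReal (Real.exp (-g Y)) = (n.factorial : ℝ≥0∞) * volume {y | g y ≤ 1} := by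
  set f : (Fin n → ℝ) → ℝ → ℝ≥0∞ := fun Y t =>
    (Set.Ici (g Y)).indicator (fun t => ENNReal.ofReal (Real.exp (-t))) t with hf
  have hgm : Measurable (Function.uncurry f) := by
    have h1 : MeasurableSet {p : (Fin n → ℝ) × ℝ | g p.1 ≤ p.2} :=
      (isClosed_le (hc.comp continuous_fst) continuous_snd).measurableSet
    have h2 : Measurable (fun p : (Fin n → ℝ) × ℝ => ENNReal.ofReal (Real.exp (-p.2))) := by
      have : Continuous (fun p : (Fin n → ℝ) × ℝ => Real.exp (-p.2)) := by fun_prop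
      exact this.measurable.ennreal_ofReal
    have h3 : Function.uncurry f = {p : (Fin n → ℝ) × ℝ | g p.1 ≤ p.2}.indicator
        (fun p => ENNReal.ofReal (Real.exp (-p.2))) := by
      funext p
      simp only [Function.uncurry, hf, Set.indicator_apply, Set.mem_Ici, Set.mem_setOf_eq]
    rw [h3]
    exact h2.indicator h1
  have h1 : ∀ Y, ∫⁻ t, f Y t = ENNReal.ofReal (Real.exp (-g Y)) := by
    intro Y
    simp only [hf]
    rw [lintegral_indicator measurableSet_Ici, ← setLIntegral_congr Ioi_ae_eq_Ici,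
      ← ofReal_integral_eq_lintegral_ofReal
      (integrableOn_exp_neg_Ioi _) (Filter.Eventually.of_forall fun t => (Real.exp_pos _).le),
      integral_exp_neg_Ioi]
  have h2 : ∀ᵐ t : ℝ, ∫⁻ Y, f Y t = (Set.Ioi (0:ℝ)).indicator
      (fun t => ENNReal.ofReal (Real.exp (-t) * t ^ n) * volume {y | g y ≤ 1}) t := by
    have hne : ∀ᵐ t : ℝ, t ≠ 0 := by
      rw [ae_iff]
      simp
    filter_upwards [hne] with t htne
    by_cases ht : t ∈ Set.Ioi (0:ℝ)
    · rw [Set.indicator_of_mem ht]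
      have ht0 : (0:ℝ) < t := ht
      have h3 : ∀ Y, f Y t =
          {Y | g Y ≤ t}.indicator (fun _ => ENNReal.ofReal (Real.exp (-t))) Y := by
        intro Y
        simp only [hf, Set.indicator_apply, Set.mem_Ici, Set.mem_setOf_eq]
      simp_rw [h3]
      rw [lintegral_indicator_const (isClosed_le hc continuous_const).measurableSet,
        ENNReal.ofReal_mul (Real.exp_pos _).le, mul_assoc, vol_le hs ht0]
    · rw [Set.indicator_of_notMem ht]
      have h3 : ∀ Y, f Y t = 0 := by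
        intro Y
        simp only [hf]
        rw [Set.indicator_of_notMem]
        intro h4
        exact ht (lt_of_le_of_ne ((h0 Y).trans h4) (Ne.symm htne))
      simp_rw [h3]
      simp
  calc ∫⁻ Y, ENNReal.ofReal (Real.exp (-g Y)) = ∫⁻ Y, ∫⁻ t, f Y t := by simp_rw [h1]
    _ = ∫⁻ t, ∫⁻ Y, f Y t := lintegral_lintegral_swap hgm.aemeasurable
    _ = ∫⁻ t, (Set.Ioi (0:ℝ)).indicator
      (fun t => ENNReal.ofReal (Real.exp (-t) * t ^ n) * volume {y | g y ≤ 1}) t :=
        lintegral_congr_ae h2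
    _ = (∫⁻ t in Set.Ioi (0:ℝ), ENNReal.ofReal (Real.exp (-t) * t ^ n)) *
        volume {y | g y ≤ 1} := by
      rw [lintegral_indicator measurableSet_Ioi, lintegral_mul_const]
      have : Continuous (fun t : ℝ => Real.exp (-t) * t ^ n) := by fun_prop
      exact this.measurable.ennreal_ofReal
    _ = _ := by
      congr 1
      have h5 : ∀ t ∈ Set.Ioi (0:ℝ), Real.exp (-t) * t ^ (((n:ℝ) + 1) - 1) =
          Real.exp (-t) * t ^ n := by
        intro t _
        rw [add_sub_cancel_right, Real.rpow_natCast]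
      have h6 := Real.GammaIntegral_convergent (s := (n:ℝ) + 1) (by positivity)
      have h7 : IntegrableOn (fun t : ℝ => Real.exp (-t) * t ^ n) (Set.Ioi 0) :=
        h6.congr_fun h5 measurableSet_Ioi
      rw [← ofReal_integral_eq_lintegral_ofReal h7 ((ae_restrict_iff' measurableSet_Ioi).2
        (Eventually.of_forall (fun t ht => by
          have : (0:ℝ) < t := ht
          simp only [Pi.zero_apply]
          positivity)))]
      rw [← setIntegral_congr_fun measurableSet_Ioi h5, ← Real.Gamma_eq_integral (by positivity),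
        Real.Gamma_nat_eq_factorial, ENNReal.ofReal_natCast]

/-- the support function of `K - x` -/
def sup (K : Set (Fin n → ℝ)) (x y : Fin n → ℝ) : ℝ :=
  sSup ((fun z : Fin n → ℝ => ∑ i, z i * y i) '' ((fun z => z - x) '' K))

lemma sup_eq (K : Set (Fin n → ℝ)) (x y : Fin n → ℝ) :
    sup K x y = sSup ((fun z : Fin n → ℝ => (z - x) ⬝ᵥ y) '' K) := by
  unfold sup
  rw [Set.image_image]
  rfl

lemma bdd {K : Set (Fin n → ℝ)} (hK : IsCompact K) (x y : Fin n → ℝ) :
    BddAbove ((fun z : Fin n → ℝ => (z - x) ⬝ᵥ y) '' K) :=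
  (hK.image_of_continuousOn (by
    apply Continuous.continuousOn
    unfold dotProduct
    fun_prop)).bddAbove

lemma sup_cont {K : Set (Fin n → ℝ)} (hK : IsCompact K) (x : Fin n → ℝ) :
    Continuous (sup K x) := by
  have h := hK.continuous_sSup (f := fun (y z : Fin n → ℝ) => (z - x) ⬝ᵥ y) (by
    unfold dotProduct
    fun_prop)
  have e : sup K x = fun y => sSup ((fun z : Fin n → ℝ => (z - x) ⬝ᵥ y) '' K) := by
    funext y
    exact sup_eq K x y
  rw [e]
  exact h

lemma sup_nonneg {K : Set (Fin n → ℝ)} (hK : IsCompact K) {x : Fin n → ℝ} (hx : x ∈ K)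
    (y : Fin n → ℝ) : 0 ≤ sup K x y := by
  rw [sup_eq]
  apply le_csSup (bdd hK x y)
  exact ⟨x, hx, by simp⟩

lemma sup_le {K : Set (Fin n → ℝ)} (hK : IsCompact K) {x : Fin n → ℝ} (hx : x ∈ K)
    (y : Fin n → ℝ) (c : ℝ) : sup K x y ≤ c ↔ ∀ z ∈ K, (z - x) ⬝ᵥ y ≤ c := by
  rw [sup_eq, csSup_le_iff (bdd hK x y) ⟨_, x, hx, rfl⟩]
  exact Set.forall_mem_image

lemma sup_smul {K : Set (Fin n → ℝ)} (x : Fin n → ℝ) (t : ℝ) (y : Fin n → ℝ) (ht : 0 < t) :
    sup K x (t • y) = t * sup K x y := by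
  rw [sup_eq, sup_eq]
  have e : (fun z : Fin n → ℝ => (z - x) ⬝ᵥ (t • y)) '' K =
      t • ((fun z : Fin n → ℝ => (z - x) ⬝ᵥ y) '' K) := by
    rw [← Set.image_smul, Set.image_image]
    apply Set.image_congr
    intro z _
    rw [dotProduct_smul]
  rw [e, Real.sSup_smul_of_nonneg ht.le, smul_eq_mul]

end Maux

/-- the layer cake formula -/
theorem M {n : ℕ} (K : Set (Fin n → ℝ)) (hK : IsCompact K) (x : Fin n → ℝ) (hx : x ∈ interior K) :
    ∫⁻ y : Fin n → ℝ, ENNReal.ofReal (Real.exp (-(sSup ((fun z : Fin n → ℝ => ∑ i, z i * y i) ''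
      ((fun z => z - x) '' K))))) = (n.factorial : ℝ≥0∞) * volume (plrT K x) := by
  have hx' : x ∈ K := interior_subset hx
  have h := Maux.lint_exp (Maux.sup_cont hK x) (Maux.sup_nonneg hK hx')
    (fun t y ht => Maux.sup_smul x t y ht)
  have e : {y | Maux.sup K x y ≤ 1} = plrT K x := by
    ext y
    exact Maux.sup_le hK hx' y 1
  rw [e] at h
  exact h

/-- `λ K` is contained in the interior of `K` -/
theorem M' {n : ℕ} {K : Set (Fin n → ℝ)} (hc : Convex ℝ K) (h0 : (0 : Fin n → ℝ) ∈ interior K)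
    {lam : ℝ} (h1 : 0 < lam) (h2 : lam < 1) {x : Fin n → ℝ} (hx : x ∈ lam • K) :
    x ∈ interior K := by
  obtain ⟨z, hz, rfl⟩ := hx
  have h := hc.add_smul_mem_interior (x := z) (y := -z) hz (by simpa using h0)
    (t := 1 - lam) ⟨by linarith, by linarith⟩
  have e : z + (1 - lam) • -z = lam • z := by
    rw [smul_neg, sub_smul, one_smul]
    abel
  rw [e] at h
  exact h

end Pool.Agent.N294.FM
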