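import Pool.Agent.N294.FM.Stm
import Pool.Agent.H712R2.MA.H1

/-!
# Project FM (helper294), leaf S1: the power series of the twisted lens map (helper124)
-/

set_option autoImplicit false

noncomputable section

open MeasureTheory Filter Topology
open scoped BigOperators

namespace Pool.Agent.N294.FM

open H712MA

namespace S1aux

/-- `2 j + 1 + i γ` -/
def A (γ : ℝ) (j : ℕ) : ℂ := ((2 * j + 1 : ℕ) : ℂ) + (γ : ℂ) * Complex.I

lemma norm_A (γ : ℝ) (j : ℕ) : ((2 * j + 1 : ℕ) : ℝ) ≤ ‖A γ j‖ := by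
  have h := Complex.abs_re_le_norm (A γ j)
  have h1 : (A γ j).re = ((2 * j + 1 : ℕ) : ℝ) := by
    unfold A
    rw [Complex.add_re, Complex.natCast_re, Complex.mul_re, Complex.ofReal_re, Complex.ofReal_im,
      Complex.I_re, Complex.I_im]
    ring
  rw [h1] at h
  exact (le_abs_self _).trans h

lemma one_le_odd (j : ℕ) : (1 : ℝ) ≤ ((2 * j + 1 : ℕ) : ℝ) := by
  exact_mod_cast (by omega : 1 ≤ 2 * j + 1)

lemma A_ne (γ : ℝ) (j : ℕ) : A γ j ≠ 0 := by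
  intro h
  have h1 := norm_A γ j
  rw [h, norm_zero] at h1
  have := one_le_odd j
  linarith

lemma A_zero (γ : ℝ) : A γ 0 = 1 + (γ : ℂ) * Complex.I := by
  unfold A
  norm_num

lemma A_succ (γ : ℝ) (j : ℕ) : A γ (j + 1) = ((2 * j + 3 : ℕ) : ℂ) + (γ : ℂ) * Complex.I := by
  unfold A
  rw [show 2 * (j + 1) + 1 = 2 * j + 3 by ring]

lemma A_sub (γ : ℝ) (j : ℕ) : A γ j - A γ (j + 1) = -2 := by
  unfold A
  push_cast
  ring

/-- bound of the terms of the derivative series -/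
lemma term_le (γ : ℝ) (z : ℂ) (ρ : ℝ) (hz : ‖z‖ ≤ ρ) (j : ℕ) :
    ‖z ^ (2 * j) / A γ j‖ ≤ (ρ ^ 2) ^ j := by
  rw [norm_div, norm_pow]
  have h1 : 1 ≤ ‖A γ j‖ := (one_le_odd j).trans (norm_A γ j)
  calc ‖z‖ ^ (2 * j) / ‖A γ j‖ ≤ ‖z‖ ^ (2 * j) / 1 :=
        div_le_div_of_nonneg_left (by positivity) one_pos h1
    _ = (‖z‖ ^ 2) ^ j := by rw [div_one, pow_mul]
    _ ≤ (ρ ^ 2) ^ j := by gcongr

lemma summ_S1 (γ : ℝ) (z : ℂ) (hz : ‖z‖ < 1) : Summable fun j : ℕ => z ^ (2 * j) / A γ j :=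
  Summable.of_norm_bounded (H1aux.geo ‖z‖ (norm_nonneg z) hz) fun j => term_le γ z ‖z‖ le_rfl j

/-- bound of the terms of the series of `h` -/
lemma term0_le (γ : ℝ) (z : ℂ) (hz : ‖z‖ ≤ 1) (j : ℕ) :
    ‖z ^ (2 * j + 1) / (((2 * j + 1 : ℕ) : ℂ) * A γ j)‖ ≤ ‖z‖ * (1 / ((2 * j + 1 : ℕ) : ℝ) ^ 2) := by
  rw [norm_div, norm_pow, norm_mul, H1aux.norm_odd, pow_succ, mul_one_div]
  have h0 := one_le_odd j
  have h1 := norm_A γ j
  have h2 : ‖z‖ ^ (2 * j) ≤ 1 := pow_le_one₀ (norm_nonneg z) hz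
  have h3 : ((2 * j + 1 : ℕ) : ℝ) ^ 2 ≤ ((2 * j + 1 : ℕ) : ℝ) * ‖A γ j‖ := by
    rw [sq]
    exact mul_le_mul_of_nonneg_left h1 (by linarith)
  have h4 : ‖z‖ ^ (2 * j) * ‖z‖ ≤ ‖z‖ := by nlinarith [norm_nonneg z]
  exact div_le_div₀ (norm_nonneg z) h4 (by positivity) h3

/-- the series of `h` -/
def T0 (γ : ℝ) (z : ℂ) : ℂ := ∑' j : ℕ, z ^ (2 * j + 1) / (((2 * j + 1 : ℕ) : ℂ) * A γ j)

/-- the series of `h'` -/
def T1 (γ : ℝ) (z : ℂ) : ℂ := ∑' j : ℕ, z ^ (2 * j) / A γ j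

lemma hh_eq (γ : ℝ) (z : ℂ) : hh γ z = ((4 * γ / Real.pi : ℝ) : ℂ) * T0 γ z := rfl

lemma hd_eq (γ : ℝ) (z : ℂ) : hd γ z = ((4 * γ / Real.pi : ℝ) : ℂ) * T1 γ z := rfl

lemma summ_T0 (γ : ℝ) (z : ℂ) (hz : ‖z‖ ≤ 1) :
    Summable fun j : ℕ => z ^ (2 * j + 1) / (((2 * j + 1 : ℕ) : ℂ) * A γ j) :=
  Summable.of_norm_bounded (H1aux.odd_sq.summable.mul_left ‖z‖) fun j => term0_le γ z hz j

lemma deriv_T0 (γ : ℝ) (z : ℂ) (hz : ‖z‖ < 1) : HasDerivAt (T0 γ) (T1 γ z) z := by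
  obtain ⟨ρ, hρ0, hzρ, hρ1⟩ := H1aux.exists_between' z hz
  refine hasDerivAt_tsum_of_isPreconnected (u := fun j : ℕ => (ρ ^ 2) ^ j)
    (t := Metric.ball (0 : ℂ) ρ)
    (g := fun (j : ℕ) (z : ℂ) => z ^ (2 * j + 1) / (((2 * j + 1 : ℕ) : ℂ) * A γ j))
    (g' := fun (j : ℕ) (z : ℂ) => z ^ (2 * j) / A γ j) (y₀ := 0) (y := z)
    (H1aux.geo ρ hρ0.le hρ1) Metric.isOpen_ball (convex_ball (0 : ℂ) ρ).isPreconnected
    ?_ ?_ ?_ ?_ ?_
  · intro j y _
    have h := (hasDerivAt_pow (2 * j + 1) y).div_const (((2 * j + 1 : ℕ) : ℂ) * A γ j)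
    refine h.congr_deriv ?_
    have h1 := H1aux.oddne j
    have h2 := A_ne γ j
    rw [Nat.add_sub_cancel]
    field_simp
  · intro j y hy
    exact term_le γ y ρ (by simpa using (mem_ball_zero_iff.1 hy).le) j
  · simpa using hρ0
  · have : (fun n : ℕ => (0 : ℂ) ^ (2 * n + 1) / (((2 * n + 1 : ℕ) : ℂ) * A γ n)) = fun _ => 0 := by
      funext n
      simp
    rw [this]
    exact summable_zero
  · simpa using hzρ

lemma diff_T1 (γ : ℝ) : DifferentiableOn ℂ (T1 γ) (Metric.ball 0 1) := by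
  intro z hz
  have hz' : ‖z‖ < 1 := by simpa using hz
  obtain ⟨ρ, hρ0, hzρ, hρ1⟩ := H1aux.exists_between' z hz'
  have h : DifferentiableOn ℂ (T1 γ) (Metric.ball (0 : ℂ) ρ) := by
    refine Complex.differentiableOn_tsum_of_summable_norm (u := fun j : ℕ => (ρ ^ 2) ^ j)
      (F := fun (j : ℕ) (z : ℂ) => z ^ (2 * j) / A γ j)
      (H1aux.geo ρ hρ0.le hρ1) ?_ Metric.isOpen_ball ?_
    · intro j
      exact ((differentiable_id.pow (2 * j)).div_const _).differentiableOn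
    · intro j y hy
      exact term_le γ y ρ (by simpa using (mem_ball_zero_iff.1 hy).le) j
  exact (h.differentiableAt (Metric.isOpen_ball.mem_nhds (by simpa using hzρ))).differentiableWithinAt

lemma cont_T0 (γ : ℝ) : ContinuousOn (T0 γ) (Metric.closedBall 0 1) := by
  refine continuousOn_tsum (u := fun j : ℕ => 1 / ((2 * j + 1 : ℕ) : ℝ) ^ 2) ?_
    H1aux.odd_sq.summable ?_
  · intro j
    exact (by fun_prop : Continuous fun z : ℂ =>
      z ^ (2 * j + 1) / (((2 * j + 1 : ℕ) : ℂ) * A γ j)).continuousOn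
  · intro j z hz
    have hz1 : ‖z‖ ≤ 1 := by simpa using hz
    refine (term0_le γ z hz1 j).trans ?_
    have h1 : 0 ≤ 1 / ((2 * j + 1 : ℕ) : ℝ) ^ 2 := by positivity
    nlinarith

/-- the terms of the series of `G` -/
lemma term2_le (γ : ℝ) (z : ℂ) (hz : ‖z‖ ≤ 1) (j : ℕ) :
    ‖z ^ (2 * j + 2) / (A γ j * A γ (j + 1))‖ ≤ 1 / ((2 * j + 1 : ℕ) : ℝ) ^ 2 := by
  rw [norm_div, norm_pow, norm_mul]
  have h0 := one_le_odd j
  have h1 := norm_A γ j
  have h2 := norm_A γ (j + 1)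
  have h3 : ((2 * j + 1 : ℕ) : ℝ) ≤ ((2 * (j + 1) + 1 : ℕ) : ℝ) := by
    exact_mod_cast (by omega : 2 * j + 1 ≤ 2 * (j + 1) + 1)
  have h4 : ‖z‖ ^ (2 * j + 2) ≤ 1 := pow_le_one₀ (norm_nonneg z) hz
  have h5 : ((2 * j + 1 : ℕ) : ℝ) ^ 2 ≤ ‖A γ j‖ * ‖A γ (j + 1)‖ := by
    rw [sq]
    exact mul_le_mul h1 (h3.trans h2) (by linarith) (norm_nonneg _)
  exact div_le_div₀ zero_le_one h4 (by positivity) h5

lemma GG_eq (γ : ℝ) (z : ℂ) : GG γ z = ((4 * γ / Real.pi : ℝ) : ℂ) *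
    (1 / A γ 0 - 2 * ∑' j : ℕ, z ^ (2 * j + 2) / (A γ j * A γ (j + 1))) := by
  unfold GG
  rw [A_zero]
  congr 4

end S1aux

open S1aux in
theorem S1 : S_S1 := by
  intro γ hγ
  refine ⟨?_, ?_, ?_, ?_, ?_, ?_, ?_, ?_, ?_⟩
  · intro z hz
    exact (deriv_T0 γ z hz).const_mul _
  · intro z
    rw [hh_eq, hh_eq, ← mul_neg]
    congr 1
    unfold T0
    rw [← tsum_neg]
    refine tsum_congr fun j => ?_
    rw [Odd.neg_pow ⟨j, rfl⟩, neg_div]
  · exact continuousOn_const.mul (cont_T0 γ)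
  · refine ⟨4 * γ / Real.pi * (Real.pi ^ 2 / 8), by positivity, fun z hz => ?_⟩
    rw [hh_eq, norm_mul, Complex.norm_real, Real.norm_of_nonneg (by positivity)]
    have h := tsum_of_norm_bounded (H1aux.odd_sq.mul_left ‖z‖) fun j => term0_le γ z hz j
    have h2 : ‖T0 γ z‖ ≤ ‖z‖ * (Real.pi ^ 2 / 8) := h
    calc 4 * γ / Real.pi * ‖T0 γ z‖ ≤ 4 * γ / Real.pi * (‖z‖ * (Real.pi ^ 2 / 8)) :=
          mul_le_mul_of_nonneg_left h2 (by positivity)
      _ = _ := by ring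
  · rw [hd_eq]
    unfold T1
    rw [tsum_eq_single 0]
    · rw [A_zero, mul_zero, pow_zero, mul_one_div]
    · intro j hj
      have : 2 * j ≠ 0 := by omega
      rw [zero_pow this, zero_div]
  · intro z hz
    rw [GG_eq, hd_eq]
    have hs := summ_S1 γ z hz
    have hs1 : Summable fun j : ℕ => z ^ (2 * (j + 1)) / A γ (j + 1) := (summable_nat_add_iff 1).2 hs
    have e1 : T1 γ z = 1 / A γ 0 + ∑' j : ℕ, z ^ (2 * (j + 1)) / A γ (j + 1) := by
      unfold T1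
      rw [hs.tsum_eq_zero_add, mul_zero, pow_zero]
    have e2 : (1 - z ^ 2) * T1 γ z = 1 / A γ 0 + (∑' j : ℕ, z ^ (2 * (j + 1)) / A γ (j + 1) -
        ∑' j : ℕ, z ^ 2 * (z ^ (2 * j) / A γ j)) := by
      rw [tsum_mul_left]
      have : (1 - z ^ 2) * T1 γ z = T1 γ z - z ^ 2 * ∑' j : ℕ, z ^ (2 * j) / A γ j := by
        unfold T1
        ring
      rw [this, e1]
      ring
    have e3 : ∑' j : ℕ, z ^ (2 * (j + 1)) / A γ (j + 1) - ∑' j : ℕ, z ^ 2 * (z ^ (2 * j) / A γ j) =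
        -2 * ∑' j : ℕ, z ^ (2 * j + 2) / (A γ j * A γ (j + 1)) := by
      rw [← hs1.tsum_sub (hs.mul_left _), ← tsum_mul_left]
      refine tsum_congr fun j => ?_
      have h1 := A_ne γ j
      have h2 := A_ne γ (j + 1)
      have h3 := A_sub γ j
      rw [← h3]
      field_simp
      ring
    calc ((4 * γ / Real.pi : ℝ) : ℂ) *
        (1 / A γ 0 - 2 * ∑' j : ℕ, z ^ (2 * j + 2) / (A γ j * A γ (j + 1))) =
        ((4 * γ / Real.pi : ℝ) : ℂ) * ((1 - z ^ 2) * T1 γ z) := by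
          rw [e2, e3]
          ring
      _ = _ := by ring
  · have h1 : ContinuousOn (fun z : ℂ => ∑' j : ℕ, z ^ (2 * j + 2) / (A γ j * A γ (j + 1)))
        (Metric.closedBall 0 1) := by
      refine continuousOn_tsum (u := fun j : ℕ => 1 / ((2 * j + 1 : ℕ) : ℝ) ^ 2) ?_
        H1aux.odd_sq.summable ?_
      · intro j
        exact (by fun_prop : Continuous fun z : ℂ =>
          z ^ (2 * j + 2) / (A γ j * A γ (j + 1))).continuousOn
      · intro j z hz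
        exact term2_le γ z (by simpa using hz) j
    have h2 : GG γ = fun z => ((4 * γ / Real.pi : ℝ) : ℂ) *
        (1 / A γ 0 - 2 * ∑' j : ℕ, z ^ (2 * j + 2) / (A γ j * A γ (j + 1))) := by
      funext z
      exact GG_eq γ z
    rw [h2]
    exact continuousOn_const.mul (continuousOn_const.sub (continuousOn_const.mul h1))
  · exact (diff_T1 γ).const_mul _
  · intro z hz
    have hlog := (hasSum_half_log hz).tsum_eq
    have hs := (summ_S1 γ z hz).mul_left z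
    have hs0 := (summ_T0 γ z hz.le).mul_left ((γ : ℂ) * Complex.I)
    have e1 : z * T1 γ z + (γ : ℂ) * Complex.I * T0 γ z = 1 / 2 * Complex.log (cay z) := by
      unfold T1 T0
      rw [← tsum_mul_left, ← tsum_mul_left, ← hs.tsum_add hs0, ← hlog]
      refine tsum_congr fun j => ?_
      have h1 := H1aux.oddne j
      have h2 := A_ne γ j
      have h3 : A γ j = ((2 * j + 1 : ℕ) : ℂ) + (γ : ℂ) * Complex.I := rfl
      have h4 : z ^ (2 * j + 1) = z * z ^ (2 * j) := by ring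
      rw [h4]
      have e : z * (z ^ (2 * j) / A γ j) + (γ : ℂ) * Complex.I *
          (z * z ^ (2 * j) / (((2 * j + 1 : ℕ) : ℂ) * A γ j)) =
          z * z ^ (2 * j) * (((2 * j + 1 : ℕ) : ℂ) + (γ : ℂ) * Complex.I) /
            (((2 * j + 1 : ℕ) : ℂ) * A γ j) := by
        field_simp
      rw [e, ← h3]
      field_simp
    unfold gg
    rw [hd_eq, hh_eq]
    calc z * (((4 * γ / Real.pi : ℝ) : ℂ) * T1 γ z) + (γ : ℂ) * Complex.I *
        (((4 * γ / Real.pi : ℝ) : ℂ) * T0 γ z) =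
        ((4 * γ / Real.pi : ℝ) : ℂ) * (z * T1 γ z + (γ : ℂ) * Complex.I * T0 γ z) := by ring
      _ = ((2 * γ / Real.pi : ℝ) : ℂ) * Complex.log (cay z) := by
          rw [e1]
          push_cast
          ring

end Pool.Agent.N294.FM
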