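import Pool.Agent.N294.FM.Stm

/-!
# The twisted lens map: closed form of `v`, the range of `Re h`, the limit of `Q` at the circle
-/

set_option autoImplicit false

noncomputable section

open MeasureTheory Filter Topology
open scoped BigOperators Matrix ENNReal

namespace Pool.Agent.N294.FM

open H712MA

namespace S2aux

variable {γ : ℝ}

/-- the closed form of the imaginary part of `z h'(z)` -/
lemma im_form (h1 : S_S1) (hγ : 0 < γ) {z : ℂ} (hz : ‖z‖ < 1) :
    (gg γ z).im = γ * (2 / Real.pi * (cay z).arg - (hh γ z).re) := by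
  obtain ⟨-, -, -, -, -, -, -, -, h9⟩ := h1 γ hγ
  have h := congrArg Complex.im (h9 z hz)
  rw [Complex.im_ofReal_mul, Complex.log_im, Complex.add_im, mul_assoc, Complex.im_ofReal_mul,
    Complex.I_mul_im] at h
  linear_combination h

lemma arg_lt {z : ℂ} (hz : ‖z‖ < 1) : 2 / Real.pi * (cay z).arg < 1 ∧
    -1 < 2 / Real.pi * (cay z).arg := by
  have h := abs_arg_cay_lt hz
  have hp := Real.pi_pos
  rw [abs_lt] at h
  constructor
  · rw [div_mul_eq_mul_div, div_lt_iff₀ hp]; linarith
  · rw [div_mul_eq_mul_div, lt_div_iff₀ hp]; linarith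

lemma im_le (h1 : S_S1) (hγ : 0 < γ) {z : ℂ} (hz : ‖z‖ < 1) :
    (gg γ z).im ≤ γ * (1 - (hh γ z).re) := by
  rw [im_form h1 hγ hz]
  apply mul_le_mul_of_nonneg_left _ hγ.le
  linarith [(arg_lt hz).1]

lemma im_ge (h1 : S_S1) (hγ : 0 < γ) {z : ℂ} (hz : ‖z‖ < 1) :
    -(gg γ z).im ≤ γ * (1 + (hh γ z).re) := by
  rw [im_form h1 hγ hz, ← mul_neg]
  apply mul_le_mul_of_nonneg_left _ hγ.le
  linarith [(arg_lt hz).2]

lemma norm_rot (z : ℂ) (t : ℝ) : ‖z * Complex.exp (t * Complex.I)‖ = ‖z‖ := by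
  rw [norm_mul, Complex.norm_exp_ofReal_mul_I, mul_one]

lemma range_U (h1 : S_S1) (hγ : 0 < γ) {z : ℂ} (hz : ‖z‖ < 1) :
    (hh γ z).re * (Real.exp (Real.pi * γ) + 1) ≤ Real.exp (Real.pi * γ) - 1 := by
  have hd1 := (h1 γ hγ).1
  have hodd := (h1 γ hγ).2.1
  set ζ : ℝ → ℂ := fun t => z * Complex.exp (t * Complex.I) with hζ
  have hζn : ∀ t, ‖ζ t‖ < 1 := fun t => by rw [hζ]; simpa only [norm_rot] using hz
  have hζd : ∀ t : ℝ, HasDerivAt ζ (ζ t * Complex.I) t := by
    intro t
    have h2 : HasDerivAt (fun t : ℝ => (t : ℂ) * Complex.I) Complex.I t := by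
      simpa using (Complex.ofRealCLM.hasDerivAt (x := t)).mul_const Complex.I
    have h3 := h2.cexp.const_mul z
    rw [hζ]
    convert! h3 using 1
    ring
  have hU : ∀ t : ℝ, HasDerivAt (fun t : ℝ => (hh γ (ζ t)).re) (-(gg γ (ζ t)).im) t := by
    intro t
    have h2 := (hd1 (ζ t) (hζn t)).comp t (hζd t)
    have h3 := Complex.reCLM.hasFDerivAt.comp_hasDerivAt t h2
    have e : Complex.reCLM (hd γ (ζ t) * (ζ t * Complex.I)) = -(gg γ (ζ t)).im := by
      rw [Complex.reCLM_apply]
      have : hd γ (ζ t) * (ζ t * Complex.I) = Complex.I * gg γ (ζ t) := by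
        unfold gg; ring
      rw [this, Complex.I_mul_re]
    rw [e] at h3
    exact h3
  set φ : ℝ → ℝ := fun t => (1 - (hh γ (ζ t)).re) * Real.exp (-(γ * t)) with hφ
  have hφd : ∀ t : ℝ, HasDerivAt φ
      (((gg γ (ζ t)).im - γ * (1 - (hh γ (ζ t)).re)) * Real.exp (-(γ * t))) t := by
    intro t
    have h2 : HasDerivAt (fun t : ℝ => -(γ * t)) (-γ) t := by
      have h0 : HasDerivAt (fun t : ℝ => -γ * t) (-γ * 1) t := (hasDerivAt_id t).const_mul (-γ)
      rw [mul_one] at h0
      have e : (fun t : ℝ => -(γ * t)) = fun t : ℝ => -γ * t := by funext s; ring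
      rw [e]; exact h0
    have h3 := ((hU t).const_sub 1).mul h2.exp
    rw [hφ]
    convert! h3 using 1
    ring
  have hanti : Antitone φ := by
    apply antitone_of_deriv_nonpos (fun t => (hφd t).differentiableAt)
    intro t
    rw [(hφd t).deriv]
    apply mul_nonpos_of_nonpos_of_nonneg _ (Real.exp_pos _).le
    linarith [im_le h1 hγ (hζn t)]
  have h4 := hanti Real.pi_pos.le
  have e0 : φ 0 = 1 - (hh γ z).re := by
    rw [hφ, hζ]; simp
  have e1 : φ Real.pi = (1 + (hh γ z).re) * Real.exp (-(γ * Real.pi)) := by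
    rw [hφ, hζ]
    simp only
    rw [Complex.exp_pi_mul_I, mul_neg_one, hodd, Complex.neg_re]
    ring
  rw [e0, e1] at h4
  have h5 : Real.exp (-(γ * Real.pi)) * Real.exp (Real.pi * γ) = 1 := by
    rw [← Real.exp_add]; simp [mul_comm]
  have h6 := mul_le_mul_of_nonneg_right h4 (Real.exp_pos (Real.pi * γ)).le
  rw [mul_assoc, h5, mul_one] at h6
  linarith

lemma range_V (h1 : S_S1) (hγ : 0 < γ) {z : ℂ} (hz : ‖z‖ < 1) :
    -(Real.exp (Real.pi * γ) - 1) ≤ (hh γ z).re * (Real.exp (Real.pi * γ) + 1) := by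
  have h := range_U h1 hγ (z := -z) (by rwa [norm_neg])
  rw [(h1 γ hγ).2.1, Complex.neg_re] at h
  linarith

lemma lt_of_range {E U : ℝ} (hE : 0 < E) (h : U * (E + 1) ≤ E - 1) : U < 1 := by
  by_contra hc
  have h1 : (1 : ℝ) * (E + 1) ≤ U * (E + 1) := mul_le_mul_of_nonneg_right (not_lt.1 hc) (by linarith)
  linarith

lemma gt_of_range {E U : ℝ} (hE : 0 < E) (h : -(E - 1) ≤ U * (E + 1)) : -1 < U := by
  by_contra hc
  have h1 : U * (E + 1) ≤ (-1 : ℝ) * (E + 1) := mul_le_mul_of_nonneg_right (not_lt.1 hc) (by linarith)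
  linarith

lemma cont_gg (h1 : S_S1) (hγ : 0 < γ) : ContinuousOn (gg γ) (Metric.ball 0 1) := by
  obtain ⟨-, -, -, -, -, -, -, h8, -⟩ := h1 γ hγ
  exact continuousOn_id.mul h8.continuousOn

lemma cont_hh (h1 : S_S1) (hγ : 0 < γ) : ContinuousOn (hh γ) (Metric.ball 0 1) :=
  (h1 γ hγ).2.2.1.mono Metric.ball_subset_closedBall

end S2aux

open S2aux in
theorem S2 (h1 : S_S1) : S_S2 := by
  intro γ hγ
  have hE : 0 < Real.exp (Real.pi * γ) := Real.exp_pos _
  have hlt : ∀ z : ℂ, ‖z‖ < 1 → (hh γ z).re < 1 := fun z hz => lt_of_range hE (range_U h1 hγ hz)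
  have hgt : ∀ z : ℂ, ‖z‖ < 1 → -1 < (hh γ z).re := fun z hz => gt_of_range hE (range_V h1 hγ hz)
  refine ⟨fun z hz => im_form h1 hγ hz, fun z hz => range_U h1 hγ hz,
    fun z hz => abs_lt.2 ⟨hgt z hz, hlt z hz⟩, ?_, ?_, ?_⟩
  · intro z hz
    have a1 : 0 < γ * (1 - (hh γ z).re) := mul_pos hγ (by linarith [hlt z hz])
    have a2 : 0 < γ * (1 + (hh γ z).re) := mul_pos hγ (by linarith [hgt z hz])
    unfold QQ
    constructor
    · rcases le_total 0 (gg γ z).im with h | h
      · exact le_max_of_le_left (div_nonneg h a1.le)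
      · exact le_max_of_le_right (div_nonneg (by linarith) a2.le)
    · apply max_le
      · rw [div_le_one a1]; exact im_le h1 hγ hz
      · rw [div_le_one a2]; exact im_ge h1 hγ hz
  · have c1 : ContinuousOn (fun z => (gg γ z).im) (Metric.ball 0 1) :=
      Complex.continuous_im.comp_continuousOn (cont_gg h1 hγ)
    have c2 : ContinuousOn (fun z => (hh γ z).re) (Metric.ball 0 1) :=
      Complex.continuous_re.comp_continuousOn (cont_hh h1 hγ)
    unfold QQ
    apply ContinuousOn.sup
    · apply c1.div (continuousOn_const.mul (continuousOn_const.sub c2))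
      intro z hz
      show γ * (1 - (hh γ z).re) ≠ 0
      exact (mul_pos hγ (by linarith [hlt z (by simpa using hz)])).ne'
    · apply c1.neg.div (continuousOn_const.mul (continuousOn_const.add c2))
      intro z hz
      show γ * (1 + (hh γ z).re) ≠ 0
      exact (mul_pos hγ (by linarith [hgt z (by simpa using hz)])).ne'
  · intro θ hθ
    set w : ℂ := Complex.exp (θ * Complex.I) with hw
    have hwi : w.im = Real.sin θ := by rw [hw, Complex.exp_ofReal_mul_I_im]
    have hwn : ‖w‖ = 1 := Complex.norm_exp_ofReal_mul_I θ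
    have hev : ∀ᶠ r : ℝ in 𝓝[<] 1, r ∈ Set.Ioo (0 : ℝ) 1 := Ioo_mem_nhdsLT (by norm_num)
    have hq : ∀ r : ℝ, r ∈ Set.Ioo (0 : ℝ) 1 → ‖(r : ℂ) * w‖ < 1 := by
      intro r hr
      rw [norm_mul, hwn, mul_one, Complex.norm_real, Real.norm_eq_abs, abs_of_pos hr.1]
      exact hr.2
    have h1w : (1 : ℂ) - w ≠ 0 := by
      intro h
      have : (1 - w).im = 0 := by rw [h]; simp
      simp [hwi] at this
      exact hθ this
    have hns : Complex.normSq (1 - w) ≠ 0 := by
      rw [Ne, Complex.normSq_eq_zero]; exact h1w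
    have hns0 : 0 < Complex.normSq (1 - w) := lt_of_le_of_ne (Complex.normSq_nonneg _) (Ne.symm hns)
    have hcre : (cay w).re = 0 := by
      rw [cay_re, Complex.normSq_eq_norm_sq, hwn]; simp
    have hcim : (cay w).im ≠ 0 := by
      rw [cay_im, hwi]
      exact div_ne_zero (mul_ne_zero two_ne_zero hθ) hns
    have hcont : ContinuousAt (fun r : ℝ => (cay ((r : ℂ) * w))) 1 := by
      unfold cay
      apply ContinuousAt.div
      · fun_prop
      · fun_prop
      · simpa using h1w
    have hslit : cay w ∈ Complex.slitPlane := Complex.mem_slitPlane_iff.mpr (Or.inr hcim)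
    have hcarg : ContinuousAt (fun r : ℝ => (cay ((r : ℂ) * w)).arg) 1 := by
      have h2 : ContinuousAt Complex.arg (cay (((1 : ℝ) : ℂ) * w)) := by
        rw [Complex.ofReal_one, one_mul]
        exact Complex.continuousAt_arg hslit
      exact ContinuousAt.comp (f := fun r : ℝ => cay ((r : ℂ) * w)) h2 hcont
    -- the limits
    set U1 : ℝ := (hh γ w).re with hU1
    have lU : Tendsto (fun r : ℝ => (hh γ ((r : ℂ) * w)).re) (𝓝[<] 1) (𝓝 U1) := by
      have c1 : ContinuousWithinAt (hh γ) (Metric.closedBall 0 1) w :=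
        (h1 γ hγ).2.2.1 w (by simp [hwn])
      have c2 : Tendsto (fun r : ℝ => (r : ℂ) * w) (𝓝[<] 1) (𝓝[Metric.closedBall 0 1] w) := by
        apply tendsto_nhdsWithin_iff.2
        refine ⟨?_, ?_⟩
        · have : ContinuousAt (fun r : ℝ => (r : ℂ) * w) 1 := by fun_prop
          have h2 := this.tendsto
          rw [Complex.ofReal_one, one_mul] at h2
          exact h2.mono_left nhdsWithin_le_nhds
        · filter_upwards [hev] with r hr
          simpa using (hq r hr).le
      exact (Complex.continuous_re.tendsto _).comp (c1.tendsto.comp c2)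
    have lA : Tendsto (fun r : ℝ => 2 / Real.pi * (cay ((r : ℂ) * w)).arg) (𝓝[<] 1)
        (𝓝 (2 / Real.pi * (cay w).arg)) := by
      have h2 := hcarg.tendsto
      rw [Complex.ofReal_one, one_mul] at h2
      exact (h2.mono_left nhdsWithin_le_nhds).const_mul _
    have hUl : U1 < 1 := by
      apply lt_of_range hE
      refine le_of_tendsto (lU.mul_const _) ?_
      filter_upwards [hev] with r hr
      exact range_U h1 hγ (hq r hr)
    have hUg : -1 < U1 := by
      apply gt_of_range hE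
      refine ge_of_tendsto (lU.mul_const _) ?_
      filter_upwards [hev] with r hr
      exact range_V h1 hγ (hq r hr)
    have n1 : γ * (1 - U1) ≠ 0 := (mul_pos hγ (by linarith)).ne'
    have n2 : γ * (1 + U1) ≠ 0 := (mul_pos hγ (by linarith)).ne'
    have hlim : Tendsto (fun r : ℝ =>
        max (γ * (2 / Real.pi * (cay ((r : ℂ) * w)).arg - (hh γ ((r : ℂ) * w)).re) /
            (γ * (1 - (hh γ ((r : ℂ) * w)).re)))
          (-(γ * (2 / Real.pi * (cay ((r : ℂ) * w)).arg - (hh γ ((r : ℂ) * w)).re)) /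
            (γ * (1 + (hh γ ((r : ℂ) * w)).re)))) (𝓝[<] 1)
        (𝓝 (max (γ * (2 / Real.pi * (cay w).arg - U1) / (γ * (1 - U1)))
          (-(γ * (2 / Real.pi * (cay w).arg - U1)) / (γ * (1 + U1))))) := by
      have l1 := (lA.sub lU).const_mul γ
      exact (l1.div ((lU.const_sub 1).const_mul γ) n1).max
        (l1.neg.div ((lU.const_add 1).const_mul γ) n2)
    have hval : max (γ * (2 / Real.pi * (cay w).arg - U1) / (γ * (1 - U1)))
          (-(γ * (2 / Real.pi * (cay w).arg - U1)) / (γ * (1 + U1))) = 1 := by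
      have hp := Real.pi_pos
      rcases lt_or_gt_of_ne hcim with h | h
      · rw [Complex.arg_eq_neg_pi_div_two_iff.mpr ⟨hcre, h⟩]
        have e1 : 2 / Real.pi * (-(Real.pi / 2)) = -1 := by field_simp
        have e2 : -(γ * (-1 - U1)) / (γ * (1 + U1)) = 1 := by
          rw [div_eq_one_iff_eq n2]; ring
        have e3 : γ * (-1 - U1) / (γ * (1 - U1)) ≤ 0 :=
          div_nonpos_of_nonpos_of_nonneg
            (mul_nonpos_of_nonneg_of_nonpos hγ.le (by linarith)) (mul_pos hγ (by linarith)).le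
        rw [e1, e2, max_eq_right (by linarith)]
      · rw [Complex.arg_eq_pi_div_two_iff.mpr ⟨hcre, h⟩]
        have e1 : 2 / Real.pi * (Real.pi / 2) = 1 := by field_simp
        have e2 : γ * (1 - U1) / (γ * (1 - U1)) = 1 := div_self n1
        have e3 : -(γ * (1 - U1)) / (γ * (1 + U1)) ≤ 0 :=
          div_nonpos_of_nonpos_of_nonneg
            (neg_nonpos.2 (mul_pos hγ (by linarith)).le) (mul_pos hγ (by linarith)).le
        rw [e1, e2, max_eq_left (by linarith)]
    rw [hval] at hlim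
    refine hlim.congr' ?_
    filter_upwards [hev] with r hr
    unfold QQ
    rw [im_form h1 hγ (hq r hr)]

end Pool.Agent.N294.FM
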