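import Pool.Agent.N294.FM.Stm

/-!
# The key positivity `Re ((1 - z²) h'(z)) > 0` and the lower bound of `|h'|`
-/

set_option autoImplicit false

noncomputable section

open MeasureTheory Filter Topology
open scoped BigOperators Matrix ENNReal

namespace Pool.Agent.N294.FM

open H712MA

namespace S3aux

variable {γ : ℝ}

lemma norm_rw {r θ : ℝ} (hr : 0 ≤ r) : ‖(r : ℂ) * Complex.exp (θ * Complex.I)‖ = r := by
  rw [norm_mul, Complex.norm_exp_ofReal_mul_I, mul_one, Complex.norm_real, Real.norm_eq_abs,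
    abs_of_nonneg hr]

/-- limit of the argument at the circle -/
lemma arg_lim (θ : ℝ) (hθ : Real.sin θ ≠ 0) :
    Tendsto (fun r : ℝ => (cay ((r : ℂ) * Complex.exp (θ * Complex.I))).arg) (𝓝[<] 1)
      (𝓝 (if 0 < Real.sin θ then Real.pi / 2 else -(Real.pi / 2))) := by
  set w : ℂ := Complex.exp (θ * Complex.I) with hw
  have hwi : w.im = Real.sin θ := by rw [hw, Complex.exp_ofReal_mul_I_im]
  have hwn : ‖w‖ = 1 := Complex.norm_exp_ofReal_mul_I θ
  have h1w : (1 : ℂ) - w ≠ 0 := by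
    intro h
    have : (1 - w).im = 0 := by rw [h]; simp
    simp [hwi] at this
    exact hθ this
  have hns : 0 < Complex.normSq (1 - w) := Complex.normSq_pos.2 h1w
  have hcre : (cay w).re = 0 := by
    rw [cay_re, Complex.normSq_eq_norm_sq, hwn]; simp
  have hcim : (cay w).im = 2 * Real.sin θ / Complex.normSq (1 - w) := by
    rw [cay_im, hwi]
  have hcim0 : (cay w).im ≠ 0 := by
    rw [hcim]
    exact div_ne_zero (mul_ne_zero two_ne_zero hθ) hns.ne'
  have harg : (cay w).arg = if 0 < Real.sin θ then Real.pi / 2 else -(Real.pi / 2) := by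
    rcases lt_or_gt_of_ne hθ with h | h
    · rw [if_neg (not_lt.2 h.le), Complex.arg_eq_neg_pi_div_two_iff.mpr ⟨hcre, by
        rw [hcim]; exact div_neg_of_neg_of_pos (by linarith) hns⟩]
    · rw [if_pos h, Complex.arg_eq_pi_div_two_iff.mpr ⟨hcre, by rw [hcim]; positivity⟩]
  have hcont : ContinuousAt (fun r : ℝ => (cay ((r : ℂ) * w))) 1 := by
    unfold cay
    apply ContinuousAt.div
    · fun_prop
    · fun_prop
    · simpa using h1w
  have hslit : cay w ∈ Complex.slitPlane := Complex.mem_slitPlane_iff.mpr (Or.inr hcim0)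
  have hcarg : ContinuousAt (fun r : ℝ => (cay ((r : ℂ) * w)).arg) 1 := by
    have h2 : ContinuousAt Complex.arg (cay (((1 : ℝ) : ℂ) * w)) := by
      rw [Complex.ofReal_one, one_mul]
      exact Complex.continuousAt_arg hslit
    exact ContinuousAt.comp (f := fun r : ℝ => cay ((r : ℂ) * w)) h2 hcont
  have h4 := hcarg.tendsto
  rw [Complex.ofReal_one, one_mul, harg] at h4
  exact h4.mono_left nhdsWithin_le_nhds

/-- a radial limit of a function which is continuous on the closed disc -/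
lemma rad_lim {f : ℂ → ℂ} (hf : ContinuousOn f (Metric.closedBall 0 1)) (θ : ℝ) :
    Tendsto (fun r : ℝ => f ((r : ℂ) * Complex.exp (θ * Complex.I))) (𝓝[<] 1)
      (𝓝 (f (Complex.exp (θ * Complex.I)))) := by
  set w : ℂ := Complex.exp (θ * Complex.I) with hw
  have hwn : ‖w‖ = 1 := Complex.norm_exp_ofReal_mul_I θ
  have h1 : Tendsto (fun r : ℝ => (r : ℂ) * w) (𝓝[<] 1) (𝓝[Metric.closedBall 0 1] w) := by
    rw [tendsto_nhdsWithin_iff]
    constructor
    · have : ContinuousAt (fun r : ℝ => (r : ℂ) * w) 1 := by fun_prop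
      have h := this.tendsto
      rw [Complex.ofReal_one, one_mul] at h
      exact h.mono_left nhdsWithin_le_nhds
    · have hev : ∀ᶠ r : ℝ in 𝓝[<] 1, r ∈ Set.Ioo (0 : ℝ) 1 := Ioo_mem_nhdsLT (by norm_num)
      filter_upwards [hev] with r hr
      rw [mem_closedBall_zero_iff, hw, norm_rw hr.1.le]
      exact hr.2.le
  exact (hf w (by rw [mem_closedBall_zero_iff, hwn])).tendsto.comp h1

/-- the boundary values of the real part of `GG` -/
lemma bdry (hγ : 0 < γ) (h1 : S_S1) (h2 : S_S2) (θ : ℝ) (hθ : Real.sin θ ≠ 0) :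
    0 < (GG γ (Complex.exp (θ * Complex.I))).re := by
  obtain ⟨hder, hodd, hhc, -, -, hGG, hGc, hdd, -⟩ := h1 γ hγ
  obtain ⟨hv, hU, -, -, -, -⟩ := h2 γ hγ
  set w : ℂ := Complex.exp (θ * Complex.I) with hw
  have hwn : ‖w‖ = 1 := Complex.norm_exp_ofReal_mul_I θ
  have hwi : w.im = Real.sin θ := by rw [hw, Complex.exp_ofReal_mul_I_im]
  have hwr : w.re = Real.cos θ := by rw [hw, Complex.exp_ofReal_mul_I_re]
  have hne : (1 : ℂ) - w ^ 2 ≠ 0 := by
    intro h
    have h3 : w ^ 2 = 1 := by linear_combination -h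
    have h4 : (w - 1) * (w + 1) = 0 := by linear_combination h3
    rcases mul_eq_zero.1 h4 with h4 | h4
    · rw [sub_eq_zero.1 h4] at hwi; simp at hwi; exact hθ hwi.symm
    · rw [eq_neg_of_add_eq_zero_left h4] at hwi; simp at hwi; exact hθ hwi.symm
  -- limits
  set s : ℝ := if 0 < Real.sin θ then Real.pi / 2 else -(Real.pi / 2) with hs
  set U1 : ℝ := (hh γ w).re with hU1
  have limG : Tendsto (fun r : ℝ => GG γ ((r : ℂ) * w)) (𝓝[<] 1) (𝓝 (GG γ w)) := rad_lim hGc θ
  have limU : Tendsto (fun r : ℝ => (hh γ ((r : ℂ) * w)).re) (𝓝[<] 1) (𝓝 U1) :=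
    (Complex.continuous_re.tendsto _).comp (rad_lim hhc θ)
  have limA : Tendsto (fun r : ℝ => (cay ((r : ℂ) * w)).arg) (𝓝[<] 1) (𝓝 s) := arg_lim θ hθ
  have hev : ∀ᶠ r : ℝ in 𝓝[<] 1, r ∈ Set.Ioo (0 : ℝ) 1 := Ioo_mem_nhdsLT (by norm_num)
  have limv : Tendsto (fun r : ℝ => (gg γ ((r : ℂ) * w)).im) (𝓝[<] 1)
      (𝓝 (γ * (2 / Real.pi * s - U1))) := by
    have h5 := ((limA.const_mul (2 / Real.pi)).sub limU).const_mul γ
    refine h5.congr' ?_
    filter_upwards [hev] with r hr
    rw [hv _ (by rw [hw, norm_rw hr.1.le]; exact hr.2)]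
  have hrc : Tendsto (fun r : ℝ => (r : ℂ) * w) (𝓝[<] 1) (𝓝 w) := by
    have : ContinuousAt (fun r : ℝ => (r : ℂ) * w) 1 := by fun_prop
    have h := this.tendsto
    rw [Complex.ofReal_one, one_mul] at h
    exact h.mono_left nhdsWithin_le_nhds
  have limg : Tendsto (fun r : ℝ => gg γ ((r : ℂ) * w)) (𝓝[<] 1)
      (𝓝 (w * (GG γ w / (1 - w ^ 2)))) := by
    have h5 : Tendsto (fun r : ℝ => ((r : ℂ) * w) * (GG γ ((r : ℂ) * w) / (1 - ((r : ℂ) * w) ^ 2)))
        (𝓝[<] 1) (𝓝 (w * (GG γ w / (1 - w ^ 2)))) :=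
      hrc.mul (limG.div (tendsto_const_nhds.sub (hrc.pow 2)) hne)
    refine h5.congr' ?_
    filter_upwards [hev] with r hr
    have hn : ‖(r : ℂ) * w‖ < 1 := by rw [hw, norm_rw hr.1.le]; exact hr.2
    have h6 : (1 : ℂ) - ((r : ℂ) * w) ^ 2 ≠ 0 := by
      intro h
      have h7 : ((r : ℂ) * w) ^ 2 = 1 := by linear_combination -h
      have h8 : ‖(r : ℂ) * w‖ ^ 2 = 1 := by rw [← norm_pow, h7, norm_one]
      nlinarith [norm_nonneg ((r : ℂ) * w)]
    rw [hGG _ hn, mul_div_cancel_left₀ _ h6]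
    rfl
  set g1 : ℂ := w * (GG γ w / (1 - w ^ 2)) with hg1
  have him : g1.im = γ * (2 / Real.pi * s - U1) :=
    tendsto_nhds_unique ((Complex.continuous_im.tendsto _).comp limg) limv
  -- algebra at the boundary
  have hconj : w * starRingEnd ℂ w = 1 := by
    rw [Complex.mul_conj, Complex.normSq_eq_norm_sq, hwn]; simp
  have hGw : GG γ w = (starRingEnd ℂ w - w) * g1 := by
    rw [hg1]
    have h9 : (starRingEnd ℂ w - w) * (w * (GG γ w / (1 - w ^ 2))) =
        (w * starRingEnd ℂ w - w ^ 2) * (GG γ w / (1 - w ^ 2)) := by ring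
    rw [h9, hconj]
    field_simp
  have hre : (GG γ w).re = 2 * Real.sin θ * g1.im := by
    rw [hGw, Complex.mul_re]
    simp only [Complex.sub_re, Complex.conj_re, Complex.sub_im, Complex.conj_im, hwi]
    ring
  rw [hre, him]
  -- the sign
  have hUle : U1 * (Real.exp (Real.pi * γ) + 1) ≤ Real.exp (Real.pi * γ) - 1 := by
    refine le_of_tendsto (limU.mul_const _) ?_
    filter_upwards [hev] with r hr
    exact hU _ (by rw [hw, norm_rw hr.1.le]; exact hr.2)
  have hUge : -(Real.exp (Real.pi * γ) - 1) ≤ U1 * (Real.exp (Real.pi * γ) + 1) := by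
    refine ge_of_tendsto (limU.mul_const _) ?_
    filter_upwards [hev] with r hr
    have h10 := hU (-((r : ℂ) * w)) (by rw [norm_neg, hw, norm_rw hr.1.le]; exact hr.2)
    rw [hodd, Complex.neg_re] at h10
    linarith
  have hexp := Real.exp_pos (Real.pi * γ)
  have hU1lt : U1 < 1 := by
    by_contra h
    push Not at h
    nlinarith
  have hU1gt : -1 < U1 := by
    by_contra h
    push Not at h
    nlinarith
  have hpi := Real.pi_pos
  rcases lt_or_gt_of_ne hθ with h | h
  · have hs' : 2 / Real.pi * s = -1 := by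
      rw [hs, if_neg (not_lt.2 h.le)]; field_simp
    rw [hs']
    have : γ * (-1 - U1) < 0 := mul_neg_of_pos_of_neg hγ (by linarith)
    exact mul_pos_of_neg_of_neg (by linarith) this
  · have hs' : 2 / Real.pi * s = 1 := by
      rw [hs, if_pos h]; field_simp
    rw [hs']
    have : 0 < γ * (1 - U1) := mul_pos hγ (by linarith)
    exact mul_pos (by linarith) this

lemma bdry_nonneg (hγ : 0 < γ) (h1 : S_S1) (h2 : S_S2) (θ : ℝ) :
    0 ≤ (GG γ (Complex.exp (θ * Complex.I))).re := by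
  by_cases hθ : Real.sin θ = 0
  · have hGc : ContinuousOn (GG γ) (Metric.closedBall 0 1) := (h1 γ hγ).2.2.2.2.2.2.1
    have hcont : Continuous fun t : ℝ => (GG γ (Complex.exp (t * Complex.I))).re := by
      refine Complex.continuous_re.comp ?_
      refine hGc.comp_continuous (by fun_prop) fun t => ?_
      rw [mem_closedBall_zero_iff, Complex.norm_exp_ofReal_mul_I]
    have hc : Real.cos θ ≠ 0 := by
      intro h
      have := Real.sin_sq_add_cos_sq θ
      rw [hθ, h] at this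
      norm_num at this
    have hlim : Tendsto (fun t : ℝ => (GG γ (Complex.exp ((θ + t : ℝ) * Complex.I))).re)
        (𝓝[>] 0) (𝓝 (GG γ (Complex.exp (θ * Complex.I))).re) := by
      have h3 : Continuous fun t : ℝ => (GG γ (Complex.exp ((θ + t : ℝ) * Complex.I))).re :=
        hcont.comp (by fun_prop : Continuous fun t : ℝ => θ + t)
      have h4 := h3.tendsto 0
      simp only [add_zero] at h4
      exact h4.mono_left nhdsWithin_le_nhds
    refine ge_of_tendsto hlim ?_
    have hev : ∀ᶠ t : ℝ in 𝓝[>] 0, t ∈ Set.Ioo (0 : ℝ) 1 := Ioo_mem_nhdsGT (by norm_num)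
    filter_upwards [hev] with t ht
    refine (bdry hγ h1 h2 (θ + t) ?_).le
    rw [Real.sin_add, hθ, zero_mul, zero_add]
    refine mul_ne_zero hc (Real.sin_pos_of_pos_of_lt_pi ht.1 ?_).ne'
    linarith [ht.2, Real.pi_gt_three]
  · exact (bdry hγ h1 h2 θ hθ).le

/-- points of the unit circle -/
lemma circle_pt {z : ℂ} (hz : ‖z‖ = 1) : Complex.exp ((z.arg : ℝ) * Complex.I) = z := by
  have := Complex.norm_mul_exp_arg_mul_I z
  rw [hz] at this
  simpa using this

lemma pos_disc (hγ : 0 < γ) (h1 : S_S1) (h2 : S_S2) (z : ℂ) (hz : ‖z‖ < 1) :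
    0 < (GG γ z).re := by
  obtain ⟨hder, hodd, hhc, -, hd0, hGG, hGc, hdd, -⟩ := h1 γ hγ
  set f : ℂ → ℂ := fun z => Complex.exp (-GG γ z) with hf
  have hGd : DifferentiableOn ℂ (GG γ) (Metric.ball 0 1) := by
    have h3 : DifferentiableOn ℂ (fun z : ℂ => (1 - z ^ 2) * hd γ z) (Metric.ball 0 1) := by
      refine DifferentiableOn.mul ?_ hdd
      fun_prop
    refine h3.congr fun z hz => ?_
    exact hGG z (by simpa using hz)
  have hfd : DifferentiableOn ℂ f (Metric.ball 0 1) := hGd.neg.cexp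
  have hfc : DiffContOnCl ℂ f (Metric.ball 0 1) := by
    refine ⟨hfd, ?_⟩
    rw [closure_ball (0 : ℂ) one_ne_zero]
    exact hGc.neg.cexp
  have hnorm : ∀ z, ‖f z‖ = Real.exp (-(GG γ z).re) := by
    intro z
    simp only [hf, Complex.norm_exp, Complex.neg_re]
  have hle : ∀ z, ‖z‖ < 1 → ‖f z‖ ≤ 1 := by
    intro z hz
    refine Complex.norm_le_of_forall_mem_frontier_norm_le Metric.isBounded_ball hfc ?_
      (subset_closure (by simpa using hz))
    intro w hw
    rw [frontier_ball (0 : ℂ) one_ne_zero, mem_sphere_zero_iff_norm] at hw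
    rw [hnorm, Real.exp_le_one_iff, neg_nonpos]
    have := bdry_nonneg hγ h1 h2 w.arg
    rwa [circle_pt hw] at this
  have hge : ∀ z, ‖z‖ < 1 → 0 ≤ (GG γ z).re := by
    intro z hz
    have := hle z hz
    rwa [hnorm, Real.exp_le_one_iff, neg_nonpos] at this
  rcases (hge z hz).lt_or_eq with h | h
  · exact h
  exfalso
  have hmax : IsMaxOn (norm ∘ f) (Metric.ball 0 1) z := by
    intro w hw
    have hw' : ‖w‖ < 1 := by simpa using hw
    change ‖f w‖ ≤ ‖f z‖
    rw [hnorm z, ← h, neg_zero, Real.exp_zero]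
    exact hle w hw'
  have heq := Complex.norm_eqOn_of_isPreconnected_of_isMaxOn
    (convex_ball (0 : ℂ) 1).isPreconnected Metric.isOpen_ball hfd (by simpa using hz) hmax
  have h0 := heq (show (0 : ℂ) ∈ Metric.ball (0 : ℂ) 1 by simp)
  simp only [Function.comp_apply, Function.const_apply] at h0
  rw [hnorm, hnorm, ← h, neg_zero, Real.exp_zero, Real.exp_eq_one_iff, neg_eq_zero] at h0
  rw [hGG 0 (by simp), hd0] at h0
  have h5 : ((1 - (0 : ℂ) ^ 2) * (((4 * γ / Real.pi : ℝ) : ℂ) / (1 + (γ : ℂ) * Complex.I))).re =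
      (4 * γ / Real.pi) / (1 + γ ^ 2) := by
    have h6 : (1 - (0 : ℂ) ^ 2) = 1 := by simp
    rw [h6, one_mul, Complex.div_re]
    simp only [Complex.ofReal_re, Complex.ofReal_im, Complex.add_re, Complex.one_re, Complex.mul_re,
      Complex.I_re, Complex.I_im, Complex.normSq_apply, Complex.add_im, Complex.one_im,
      Complex.mul_im]
    ring
  rw [h5] at h0
  have hpi := Real.pi_pos
  have : 0 < (4 * γ / Real.pi) / (1 + γ ^ 2) := by positivity
  linarith

lemma lower (hγ : 0 < γ) (h1 : S_S1) (h2 : S_S2) :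
    ∃ c : ℝ, 0 < c ∧ ∀ z : ℂ, ‖z‖ < 1 → c ≤ ‖hd γ z‖ := by
  obtain ⟨-, -, -, ⟨C, hC0, hC⟩, -, hGG, hGc, -, hode⟩ := h1 γ hγ
  have hpi := Real.pi_pos
  -- choice of `δ`
  set δ : ℝ := Real.exp (-((γ * C + 1) * Real.pi / (2 * γ))) with hδ
  have hδ0 : 0 < δ := Real.exp_pos _
  -- the compact set
  set S : Set ℂ := Metric.closedBall 0 1 ∩ {z | δ ≤ ‖1 - z ^ 2‖} with hS
  have hScomp : IsCompact S := by
    refine (isCompact_closedBall (0 : ℂ) 1).inter_right ?_
    exact isClosed_le continuous_const (by fun_prop)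
  have hpos : ∀ z ∈ S, 0 < ‖GG γ z‖ := by
    intro z hz
    rw [norm_pos_iff]
    intro h0
    have hre : (GG γ z).re = 0 := by rw [h0]; simp
    have hz1 : ‖z‖ ≤ 1 := by simpa using hz.1
    rcases hz1.lt_or_eq with h | h
    · have := pos_disc hγ h1 h2 z h
      linarith
    · have h3 := circle_pt h
      have hsin : Real.sin z.arg ≠ 0 := by
        intro hs
        have hzi : z.im = 0 := by
          rw [← h3, Complex.exp_ofReal_mul_I_im, hs]
        have hn : z.re ^ 2 = 1 := by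
          have := Complex.normSq_eq_norm_sq z
          rw [h, Complex.normSq_apply, hzi] at this
          nlinarith
        have hz2 : z ^ 2 = 1 := by
          apply Complex.ext
          · rw [sq, Complex.mul_re, hzi]
            simp only [mul_zero, sub_zero, Complex.one_re]
            nlinarith
          · rw [sq, Complex.mul_im, hzi]
            simp
        have h4 : δ ≤ ‖1 - z ^ 2‖ := hz.2
        rw [hz2, sub_self, norm_zero] at h4
        linarith
      have := bdry hγ h1 h2 z.arg hsin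
      rw [h3] at this
      linarith
  obtain ⟨c1, hc1, hc1'⟩ : ∃ c1 : ℝ, 0 < c1 ∧ ∀ z ∈ S, c1 ≤ ‖GG γ z‖ := by
    rcases S.eq_empty_or_nonempty with he | hne
    · exact ⟨1, one_pos, fun z hz => by rw [he] at hz; exact absurd hz (Set.notMem_empty z)⟩
    · obtain ⟨z0, hz0, hmin⟩ := hScomp.exists_isMinOn hne
        ((hGc.mono Set.inter_subset_left).norm)
      exact ⟨‖GG γ z0‖, hpos z0 hz0, fun z hz => hmin hz⟩
  refine ⟨min (c1 / 2) 1, lt_min (by positivity) one_pos, fun z hz => ?_⟩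
  by_cases hzS : δ ≤ ‖1 - z ^ 2‖
  · refine (min_le_left _ _).trans ?_
    have h3 := hc1' z ⟨by simpa using hz.le, hzS⟩
    rw [hGG z hz, norm_mul] at h3
    have h4 : ‖1 - z ^ 2‖ ≤ 2 := by
      calc ‖1 - z ^ 2‖ ≤ ‖(1 : ℂ)‖ + ‖z ^ 2‖ := norm_sub_le _ _
        _ ≤ 1 + 1 := by
          rw [norm_one, norm_pow]
          have : ‖z‖ ^ 2 ≤ 1 := pow_le_one₀ (norm_nonneg z) hz.le
          linarith
        _ = 2 := by norm_num
    have h5 := norm_nonneg (hd γ z)
    nlinarith
  · refine (min_le_right _ _).trans ?_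
    push Not at hzS
    have hne1 : (1 : ℂ) - z ≠ 0 := sub_ne_zero_of_norm hz
    have hne2 : (1 : ℂ) + z ≠ 0 := by
      have := sub_ne_zero_of_norm (z := -z) (by rwa [norm_neg])
      rwa [sub_neg_eq_add] at this
    have hp1 : 0 < ‖1 - z‖ := norm_pos_iff.2 hne1
    have hp2 : 0 < ‖1 + z‖ := norm_pos_iff.2 hne2
    have hprod : ‖1 - z ^ 2‖ = ‖1 - z‖ * ‖1 + z‖ := by
      rw [← norm_mul]
      congr 1
      ring
    rw [hprod] at hzS
    have hsum : 2 ≤ ‖1 - z‖ + ‖1 + z‖ := by
      calc (2 : ℝ) = ‖(2 : ℂ)‖ := by simp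
        _ = ‖(1 - z) + (1 + z)‖ := by congr 1; ring
        _ ≤ _ := norm_add_le _ _
    have hlogδ : Real.log δ = -((γ * C + 1) * Real.pi / (2 * γ)) := by
      rw [hδ, Real.log_exp]
    have hlogcay : (Complex.log (cay z)).re = Real.log ‖1 + z‖ - Real.log ‖1 - z‖ := by
      rw [Complex.log_re]
      unfold cay
      rw [norm_div, Real.log_div hp2.ne' hp1.ne']
    have habs : -Real.log δ ≤ |(Complex.log (cay z)).re| := by
      rw [hlogcay]
      have hlog : Real.log ‖1 - z‖ + Real.log ‖1 + z‖ ≤ Real.log δ := by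
        rw [← Real.log_mul hp1.ne' hp2.ne']
        exact Real.log_le_log (mul_pos hp1 hp2) hzS.le
      rcases le_total 1 ‖1 + z‖ with h | h
      · have h3 : 0 ≤ Real.log ‖1 + z‖ := Real.log_nonneg h
        refine le_trans ?_ (le_abs_self _)
        linarith
      · have h3 : 0 ≤ Real.log ‖1 - z‖ := Real.log_nonneg (by linarith)
        refine le_trans ?_ (neg_le_abs _)
        linarith
    have h6 : -Real.log δ ≤ ‖Complex.log (cay z)‖ := habs.trans (Complex.abs_re_le_norm _)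
    have h7 := hode z hz
    have h8 : 2 * γ / Real.pi * ‖Complex.log (cay z)‖ ≤ ‖gg γ z‖ + γ * ‖hh γ z‖ := by
      have h9 : ‖gg γ z + (γ : ℂ) * Complex.I * hh γ z‖ =
          2 * γ / Real.pi * ‖Complex.log (cay z)‖ := by
        rw [h7, norm_mul, Complex.norm_real, Real.norm_of_nonneg (by positivity)]
      rw [← h9]
      refine (norm_add_le _ _).trans (le_of_eq ?_)
      rw [norm_mul, norm_mul, Complex.norm_real, Complex.norm_I, mul_one,
        Real.norm_of_nonneg hγ.le]
    have h10 : ‖hh γ z‖ ≤ C := by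
      have := hC z hz.le
      calc ‖hh γ z‖ ≤ C * ‖z‖ := this
        _ ≤ C * 1 := mul_le_mul_of_nonneg_left hz.le hC0
        _ = C := mul_one C
    have h11 : ‖gg γ z‖ ≤ ‖hd γ z‖ := by
      unfold gg
      rw [norm_mul]
      calc ‖z‖ * ‖hd γ z‖ ≤ 1 * ‖hd γ z‖ := mul_le_mul_of_nonneg_right hz.le (norm_nonneg _)
        _ = _ := one_mul _
    have h12 : γ * C + 1 ≤ 2 * γ / Real.pi * ‖Complex.log (cay z)‖ := by
      have h13 : γ * C + 1 = 2 * γ / Real.pi * (-Real.log δ) := by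
        rw [hlogδ]
        field_simp
      rw [h13]
      exact mul_le_mul_of_nonneg_left h6 (by positivity)
    have h14 : γ * ‖hh γ z‖ ≤ γ * C := mul_le_mul_of_nonneg_left h10 hγ.le
    linarith

end S3aux

theorem S3 (h1 : S_S1) (h2 : S_S2) : S_S3 := fun _ hγ =>
  ⟨fun z hz => S3aux.pos_disc hγ h1 h2 z hz, S3aux.lower hγ h1 h2⟩

end Pool.Agent.N294.FM
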