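import Pool.Agent.N294.FM.Stm

/-!
# Monotonicity of the twisted lens map in the strip coordinate
-/

set_option autoImplicit false

noncomputable section

open MeasureTheory Filter Topology
open scoped BigOperators Matrix ENNReal

namespace Pool.Agent.N294.FM

open H712MA

namespace S4aux

variable {γ : ℝ}

/-- the inverse Cayley transform -/
def ic (u : ℂ) : ℂ := (u - 1) / (u + 1)

lemma add_one_ne {u : ℂ} (hu : 0 < u.re) : u + 1 ≠ 0 := by
  intro h
  have := congrArg Complex.re h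
  simp at this
  linarith

lemma ic_norm {u : ℂ} (hu : 0 < u.re) : ‖ic u‖ < 1 := by
  unfold ic
  rw [norm_div, div_lt_one (norm_pos_iff.2 (add_one_ne hu))]
  have h1 : ‖u - 1‖ ^ 2 < ‖u + 1‖ ^ 2 := by
    rw [← Complex.normSq_eq_norm_sq, ← Complex.normSq_eq_norm_sq, Complex.normSq_apply,
      Complex.normSq_apply]
    simp only [Complex.sub_re, Complex.one_re, Complex.sub_im, Complex.one_im, Complex.add_re,
      Complex.add_im]
    nlinarith
  exact lt_of_pow_lt_pow_left₀ 2 (norm_nonneg _) h1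

lemma cay_ic {u : ℂ} (hu : 0 < u.re) : cay (ic u) = u := by
  have h := add_one_ne hu
  unfold cay ic
  have h2 : 1 - (u - 1) / (u + 1) = 2 / (u + 1) := by field_simp; ring
  have h3 : 1 + (u - 1) / (u + 1) = 2 * u / (u + 1) := by field_simp; ring
  rw [h2, h3]
  field_simp

lemma ic_cay {z : ℂ} (hz : ‖z‖ < 1) : ic (cay z) = z := by
  have h := sub_ne_zero_of_norm hz
  unfold ic cay
  have h2 : (1 + z) / (1 - z) - 1 = 2 * z / (1 - z) := by field_simp; ring
  have h3 : (1 + z) / (1 - z) + 1 = 2 / (1 - z) := by field_simp; ring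
  rw [h2, h3]
  field_simp

lemma cay_ne {z : ℂ} (hz : ‖z‖ < 1) : cay z ≠ 0 := by
  intro h
  have := cay_re_pos hz
  rw [h] at this
  simp at this

/-- the strip coordinate -/
def sc (z : ℂ) : ℂ := Complex.log (cay z)

lemma exp_sc {z : ℂ} (hz : ‖z‖ < 1) : Complex.exp (sc z) = cay z := Complex.exp_log (cay_ne hz)

lemma sc_im {z : ℂ} (hz : ‖z‖ < 1) : |(sc z).im| < Real.pi / 2 := by
  unfold sc
  rw [Complex.log_im]
  exact abs_arg_cay_lt hz

/-- points of the strip -/
lemma exp_re {s : ℂ} (hs : |s.im| < Real.pi / 2) : 0 < (Complex.exp s).re := by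
  rw [Complex.exp_re]
  have h := abs_lt.1 hs
  exact mul_pos (Real.exp_pos _) (Real.cos_pos_of_mem_Ioo ⟨h.1, h.2⟩)

/-- the disc point of a point of the strip -/
def pt (s : ℂ) : ℂ := ic (Complex.exp s)

lemma pt_norm {s : ℂ} (hs : |s.im| < Real.pi / 2) : ‖pt s‖ < 1 := ic_norm (exp_re hs)

lemma pt_sc {z : ℂ} (hz : ‖z‖ < 1) : pt (sc z) = z := by
  unfold pt
  rw [exp_sc hz, ic_cay hz]

lemma sc_pt {s : ℂ} (hs : |s.im| < Real.pi / 2) : sc (pt s) = s := by
  unfold sc pt
  rw [cay_ic (exp_re hs)]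
  have h := abs_lt.1 hs
  have hpi := Real.pi_pos
  exact Complex.log_exp (by linarith) (by linarith)

lemma pt_deriv {s : ℂ} (hs : |s.im| < Real.pi / 2) : HasDerivAt pt ((1 - (pt s) ^ 2) / 2) s := by
  have hne := add_one_ne (exp_re hs)
  have h1 : HasDerivAt (fun s : ℂ => (Complex.exp s - 1) / (Complex.exp s + 1))
      ((Complex.exp s * (Complex.exp s + 1) - (Complex.exp s - 1) * Complex.exp s) /
        (Complex.exp s + 1) ^ 2) s :=
    ((Complex.hasDerivAt_exp s).sub_const 1).div ((Complex.hasDerivAt_exp s).add_const 1) hne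
  refine (h1.congr_deriv ?_ : HasDerivAt pt _ s)
  unfold pt ic
  field_simp
  ring

lemma comp_deriv (h1 : ∀ z : ℂ, ‖z‖ < 1 → HasDerivAt (hh γ) (hd γ z) z)
    (hG : ∀ z : ℂ, ‖z‖ < 1 → GG γ z = (1 - z ^ 2) * hd γ z) {s : ℂ} (hs : |s.im| < Real.pi / 2) :
    HasDerivAt (fun s => hh γ (pt s)) (GG γ (pt s) / 2) s := by
  have h2 := (h1 (pt s) (pt_norm hs)).comp s (pt_deriv hs)
  refine h2.congr_deriv ?_
  rw [hG _ (pt_norm hs)]
  ring

lemma strip_seg {s s' : ℂ} (hs : |s.im| < Real.pi / 2) (hs' : |s'.im| < Real.pi / 2) {t : ℝ}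
    (ht : t ∈ Set.Icc (0 : ℝ) 1) : |(s + (t : ℂ) * (s' - s)).im| < Real.pi / 2 := by
  have e : (s + (t : ℂ) * (s' - s)).im = (1 - t) * s.im + t * s'.im := by
    simp only [Complex.add_im, Complex.mul_im, Complex.ofReal_re, Complex.ofReal_im,
      Complex.sub_im, Complex.sub_re]
    ring
  rw [e]
  have h1 := abs_lt.1 hs
  have h2 := abs_lt.1 hs'
  obtain ⟨h3, h4⟩ := ht
  rw [abs_lt]
  constructor
  · rcases eq_or_lt_of_le h3 with h | h
    · rw [← h]; linarith
    · nlinarith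
  · rcases eq_or_lt_of_le h3 with h | h
    · rw [← h]; linarith
    · nlinarith

/-- Noshiro-Warschawski theorem -/
lemma mono (h1 : ∀ z : ℂ, ‖z‖ < 1 → HasDerivAt (hh γ) (hd γ z) z)
    (hG : ∀ z : ℂ, ‖z‖ < 1 → GG γ z = (1 - z ^ 2) * hd γ z)
    (hpos : ∀ z : ℂ, ‖z‖ < 1 → 0 < (GG γ z).re) {s s' : ℂ} (hs : |s.im| < Real.pi / 2)
    (hs' : |s'.im| < Real.pi / 2) (hne : s' ≠ s) :
    0 < ((hh γ (pt s') - hh γ (pt s)) * starRingEnd ℂ (s' - s)).re := by
  set Δ : ℂ := s' - s with hΔ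
  have hder : ∀ t ∈ Set.Icc (0 : ℝ) 1, HasDerivAt
      (fun t : ℝ => ((starRingEnd ℂ Δ) * hh γ (pt (s + (t : ℂ) * Δ))).re)
      ((starRingEnd ℂ Δ * (GG γ (pt (s + (t : ℂ) * Δ)) / 2 * Δ)).re) t := by
    intro t ht
    have h2 : HasDerivAt (fun t : ℝ => s + (t : ℂ) * Δ) Δ t := by
      have := ((hasDerivAt_id (t : ℂ)).comp_ofReal.mul_const Δ).const_add s
      simpa using this
    have h3 := (comp_deriv h1 hG (strip_seg hs hs' ht)).comp_of_eq t h2 rfl
    have h4 := h3.const_mul (starRingEnd ℂ Δ)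
    exact Complex.reCLM.hasFDerivAt.comp_hasDerivAt t h4
  obtain ⟨t, ht, hslope⟩ := exists_hasDerivAt_eq_slope _ _ (one_pos : (0 : ℝ) < 1)
    (fun t ht => (hder t ht).continuousAt.continuousWithinAt)
    (fun t ht => hder t (Set.Ioo_subset_Icc_self ht))
  have e1 : (starRingEnd ℂ Δ * (GG γ (pt (s + (t : ℂ) * Δ)) / 2 * Δ)).re =
      ‖Δ‖ ^ 2 * (GG γ (pt (s + (t : ℂ) * Δ))).re / 2 := by
    have : starRingEnd ℂ Δ * (GG γ (pt (s + (t : ℂ) * Δ)) / 2 * Δ) =
        ((‖Δ‖ ^ 2 / 2 : ℝ) : ℂ) * GG γ (pt (s + (t : ℂ) * Δ)) := by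
      have h : ((‖Δ‖ ^ 2 / 2 : ℝ) : ℂ) = Δ * (starRingEnd ℂ) Δ / 2 := by
        rw [Complex.mul_conj, Complex.normSq_eq_norm_sq]
        push_cast
        ring
      rw [h]
      ring
    rw [this, Complex.re_ofReal_mul]
    ring
  have hp := hpos _ (pt_norm (strip_seg hs hs' (Set.Ioo_subset_Icc_self ht)))
  have hn : 0 < ‖Δ‖ := norm_pos_iff.2 (sub_ne_zero.2 hne)
  have e2 : 0 < (starRingEnd ℂ Δ * (GG γ (pt (s + (t : ℂ) * Δ)) / 2 * Δ)).re := by
    rw [e1]
    positivity
  rw [hslope] at e2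
  simp only [Complex.ofReal_one, one_mul, Complex.ofReal_zero, zero_mul, add_zero, sub_zero,
    div_one] at e2
  have e3 : s + Δ = s' := by rw [hΔ]; ring
  rw [e3] at e2
  have e4 : ((hh γ (pt s') - hh γ (pt s)) * starRingEnd ℂ Δ).re =
      (starRingEnd ℂ Δ * hh γ (pt s')).re - (starRingEnd ℂ Δ * hh γ (pt s)).re := by
    rw [← Complex.sub_re]
    congr 1
    ring
  rw [e4]
  exact e2

/-- the point `a + i b` of the strip -/
def ab (a b : ℝ) : ℂ := (a : ℂ) + (b : ℂ) * Complex.I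

lemma ab_im (a b : ℝ) : (ab a b).im = b := by simp [ab]

lemma ab_re (a b : ℝ) : (ab a b).re = a := by simp [ab]

lemma horiz (h1 : ∀ z : ℂ, ‖z‖ < 1 → HasDerivAt (hh γ) (hd γ z) z)
    (hG : ∀ z : ℂ, ‖z‖ < 1 → GG γ z = (1 - z ^ 2) * hd γ z)
    (hpos : ∀ z : ℂ, ‖z‖ < 1 → 0 < (GG γ z).re) {b : ℝ} (hb : |b| < Real.pi / 2) :
    StrictMono fun a : ℝ => (hh γ (pt (ab a b))).re := by
  intro a a' haa
  have hne : ab a' b ≠ ab a b := by
    intro h
    have := congrArg Complex.re h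
    rw [ab_re, ab_re] at this
    linarith
  have h := mono h1 hG hpos (s := ab a b) (s' := ab a' b) (by rwa [ab_im]) (by rwa [ab_im]) hne
  have e : ab a' b - ab a b = ((a' - a : ℝ) : ℂ) := by
    unfold ab
    push_cast
    ring
  rw [e, Complex.conj_ofReal, Complex.re_mul_ofReal, Complex.sub_re] at h
  have h2 : 0 < a' - a := by linarith
  have h3 := (mul_pos_iff_of_pos_right h2).1 h
  change (hh γ (pt (ab a b))).re < (hh γ (pt (ab a' b))).re
  linarith

lemma pt_top (b : ℝ) (hb : |b| < Real.pi / 2) :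
    Tendsto (fun a : ℝ => pt (ab a b)) atTop (𝓝 1) := by
  have e : ∀ a : ℝ, pt (ab a b) = 1 - 2 / (Complex.exp (ab a b) + 1) := by
    intro a
    have := add_one_ne (exp_re (s := ab a b) (by rwa [ab_im]))
    unfold pt ic
    field_simp
    ring
  have h1 : Tendsto (fun a : ℝ => ‖Complex.exp (ab a b) + 1‖) atTop atTop := by
    refine tendsto_atTop_mono (f := fun a : ℝ => Real.exp a - 1) (fun a => ?_) ?_
    · have h2 : ‖Complex.exp (ab a b)‖ = Real.exp a := by rw [Complex.norm_exp, ab_re]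
      have h3 : ‖Complex.exp (ab a b)‖ ≤ ‖Complex.exp (ab a b) + 1‖ + ‖(1 : ℂ)‖ := by
        have := norm_sub_le (Complex.exp (ab a b) + 1) 1
        rwa [add_sub_cancel_right] at this
      rw [h2, norm_one] at h3
      linarith
    · exact tendsto_atTop_add_const_right _ _ Real.tendsto_exp_atTop
  have h2 : Tendsto (fun a : ℝ => 2 / (Complex.exp (ab a b) + 1)) atTop (𝓝 0) := by
    rw [tendsto_zero_iff_norm_tendsto_zero]
    have : (fun a : ℝ => ‖2 / (Complex.exp (ab a b) + 1)‖) =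
        fun a : ℝ => 2 / ‖Complex.exp (ab a b) + 1‖ := by
      funext a
      rw [norm_div]
      simp
    rw [this]
    exact h1.const_div_atTop 2
  have h3 := (tendsto_const_nhds (x := (1 : ℂ))).sub h2
  rw [sub_zero] at h3
  refine h3.congr fun a => (e a).symm

lemma pt_neg {a b : ℝ} : pt (ab (-a) b) = -pt (ab a (-b)) := by
  have e : Complex.exp (ab (-a) b) = (Complex.exp (ab a (-b)))⁻¹ := by
    rw [← Complex.exp_neg]
    congr 1
    unfold ab
    push_cast
    ring
  have h0 := Complex.exp_ne_zero (ab a (-b))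
  unfold pt ic
  rw [e]
  set u := Complex.exp (ab a (-b))
  by_cases h : u + 1 = 0
  · have h2 : u⁻¹ + 1 = 0 := by
      have : u = -1 := by linear_combination h
      rw [this]; norm_num
    rw [h, h2]; simp
  · have h2 : u⁻¹ + 1 = (u + 1) / u := by field_simp; ring
    have h3 : u⁻¹ - 1 = -((u - 1) / u) := by field_simp; ring
    rw [h2, h3]
    field_simp

lemma hh_top (hc : ContinuousOn (hh γ) (Metric.closedBall 0 1)) (b : ℝ) (hb : |b| < Real.pi / 2) :
    Tendsto (fun a : ℝ => (hh γ (pt (ab a b))).re) atTop (𝓝 (hh γ 1).re) := by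
  refine (Complex.continuous_re.tendsto _).comp ?_
  refine (hc 1 (by simp)).tendsto.comp ?_
  rw [tendsto_nhdsWithin_iff]
  exact ⟨pt_top b hb, Eventually.of_forall fun a => by
    rw [mem_closedBall_zero_iff]
    exact (pt_norm (by rwa [ab_im])).le⟩

end S4aux

open S4aux in
theorem S4 (h1 : S_S1) (h3 : S_S3) : S_S4 := by
  intro γ hγ
  obtain ⟨hder, hodd, hc, -, -, hG, -, -, -⟩ := h1 γ hγ
  obtain ⟨hpos, -⟩ := h3 γ hγ
  constructor
  · intro z w hz hw hne
    have h := mono hder hG hpos (s := sc w) (s' := sc z) (sc_im hw) (sc_im hz) (by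
      intro h
      apply hne
      rw [← pt_sc hz, ← pt_sc hw, h])
    rw [pt_sc hz, pt_sc hw] at h
    exact h
  · intro z hz b hb
    set x : ℝ := (hh γ z).re with hx
    -- strict bounds of `x`
    have key : ∀ z : ℂ, ‖z‖ < 1 → (hh γ z).re < (hh γ 1).re := by
      intro z hz
      have hb' := sc_im hz
      have hm := horiz hder hG hpos hb'
      have e : z = pt (ab (sc z).re (sc z).im) := by
        have : ab (sc z).re (sc z).im = sc z := by
          unfold ab
          exact Complex.re_add_im _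
        rw [this, pt_sc hz]
      have h2 : (hh γ z).re < (hh γ (pt (ab ((sc z).re + 1) (sc z).im))).re := by
        conv_lhs => rw [e]
        exact hm (by linarith : (sc z).re < (sc z).re + 1)
      refine h2.trans_le ?_
      exact hm.monotone.ge_of_tendsto (hh_top hc _ hb') _
    have h1lt : x < (hh γ 1).re := key z hz
    have h2lt : -(hh γ 1).re < x := by
      have := key (-z) (by rwa [norm_neg])
      rw [hodd, Complex.neg_re] at this
      linarith
    -- the function on the horizontal line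
    set φ : ℝ → ℝ := fun a => (hh γ (pt (ab a b))).re with hφ
    have hcont : Continuous φ := by
      rw [continuous_iff_continuousAt]
      intro a
      have h4 : ContinuousAt (fun s => hh γ (pt s)) (ab a b) :=
        (comp_deriv hder hG (by rwa [ab_im])).continuousAt
      have h5 : ContinuousAt (fun a : ℝ => ab a b) a := by
        unfold ab
        fun_prop
      exact Complex.continuous_re.continuousAt.comp (ContinuousAt.comp (f := fun a : ℝ => ab a b) h4 h5)
    have htop := hh_top hc b hb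
    have hbot : Tendsto (fun a : ℝ => φ (-a)) atTop (𝓝 (-(hh γ 1).re)) := by
      have h6 := (hh_top hc (-b) (by rwa [abs_neg])).neg
      refine h6.congr fun a => ?_
      simp only [hφ]
      rw [pt_neg, hodd, Complex.neg_re]
    obtain ⟨a1, ha1⟩ := ((tendsto_order.1 htop).1 x h1lt).exists
    obtain ⟨a2, ha2⟩ := ((tendsto_order.1 hbot).2 x h2lt).exists
    obtain ⟨a, ha⟩ := mem_range_of_exists_le_of_exists_ge hcont ⟨-a2, ha2.le⟩ ⟨a1, ha1.le⟩
    refine ⟨pt (ab a b), pt_norm (by rwa [ab_im]), ?_, ha⟩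
    have h7 := sc_pt (s := ab a b) (by rwa [ab_im])
    have h8 := congrArg Complex.im h7
    unfold sc at h8
    rwa [Complex.log_im, ab_im] at h8

end Pool.Agent.N294.FM
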