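import Pool.Agent.N294.FM.Stm

/-! # Leaf S5 (helper170): the inverse `η` of `h` and the lens -/

set_option autoImplicit false

noncomputable section

open MeasureTheory Filter Topology
open scoped BigOperators Matrix ENNReal

namespace Pool.Agent.N294.FM

open H712MA (Lens)

namespace S5aux

theorem eta_spec {γ : ℝ} {p : ℂ} (hp : p ∈ WW γ) : ‖eta γ p‖ < 1 ∧ hh γ (eta γ p) = p := by
  have hp' : ∃ z, z ∈ Metric.ball (0 : ℂ) 1 ∧ hh γ z = p := hp
  have h := Classical.choose_spec hp'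
  have e : eta γ p = Classical.choose hp' := by
    unfold eta
    rw [dif_pos hp']
  rw [e]
  exact ⟨by simpa using h.1, h.2⟩

theorem eta_off {γ : ℝ} {p : ℂ} (hp : p ∉ WW γ) : eta γ p = 1 := by
  have hp' : ¬ ∃ z, z ∈ Metric.ball (0 : ℂ) 1 ∧ hh γ z = p := hp
  unfold eta
  rw [dif_neg hp']

theorem hh_mem {γ : ℝ} {z : ℂ} (hz : ‖z‖ < 1) : hh γ z ∈ WW γ := ⟨z, by simpa using hz, rfl⟩

theorem norm_le_one {γ : ℝ} (p : ℂ) : ‖eta γ p‖ ≤ 1 := by
  by_cases hp : p ∈ WW γ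
  · exact (eta_spec hp).1.le
  · rw [eta_off hp, norm_one]

variable (h1 : S_S1) (h3 : S_S3) (h4 : S_S4) {γ : ℝ} (hγ : 0 < γ)

include h4 hγ in
theorem inj {z w : ℂ} (hz : ‖z‖ < 1) (hw : ‖w‖ < 1) (h : hh γ z = hh γ w) : z = w := by
  by_contra hne
  have h2 := (h4 γ hγ).1 z w hz hw hne
  rw [h, sub_self, zero_mul, Complex.zero_re] at h2
  exact lt_irrefl _ h2

include h4 hγ in
theorem eta_hh {z : ℂ} (hz : ‖z‖ < 1) : eta γ (hh γ z) = z :=
  inj h4 hγ (eta_spec (hh_mem hz)).1 hz (eta_spec (hh_mem hz)).2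

include h3 hγ in
theorem hd_ne {z : ℂ} (hz : ‖z‖ < 1) : hd γ z ≠ 0 := by
  obtain ⟨-, c, hc, h⟩ := h3 γ hγ
  have h2 := h z hz
  exact norm_pos_iff.1 (hc.trans_le h2)

include h1 hγ in
theorem diff_hh : DifferentiableOn ℂ (hh γ) (Metric.ball 0 1) := by
  intro z hz
  exact ((h1 γ hγ).1 z (by simpa using hz)).differentiableAt.differentiableWithinAt

include h1 h3 hγ in
theorem map_nhds {z : ℂ} (hz : ‖z‖ < 1) : map (hh γ) (𝓝 z) = 𝓝 (hh γ z) := by
  have hb : Metric.ball (0 : ℂ) 1 ∈ 𝓝 z := Metric.isOpen_ball.mem_nhds (by simpa using hz)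
  have ha : AnalyticAt ℂ (hh γ) z := (diff_hh h1 hγ).analyticAt hb
  have hs : HasStrictDerivAt (hh γ) (deriv (hh γ) z) z := ha.hasStrictDerivAt
  have hd' : deriv (hh γ) z = hd γ z := ((h1 γ hγ).1 z hz).deriv
  rw [hd'] at hs
  exact hs.map_nhds_eq (hd_ne h3 hγ hz)

include h1 h3 hγ in
theorem open_WW : IsOpen (WW γ) := by
  rw [isOpen_iff_mem_nhds]
  rintro p ⟨z, hz, rfl⟩
  have hz' : ‖z‖ < 1 := by simpa using hz
  rw [← map_nhds h1 h3 hγ hz']
  exact image_mem_map (Metric.isOpen_ball.mem_nhds hz)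

include h1 h3 h4 hγ in
theorem contAt {p : ℂ} (hp : p ∈ WW γ) : ContinuousAt (eta γ) p := by
  intro U hU
  obtain ⟨hlt, he⟩ := eta_spec hp
  have h2 := map_nhds h1 h3 hγ hlt
  rw [he] at h2
  have hb : Metric.ball (0 : ℂ) 1 ∈ 𝓝 (eta γ p) :=
    Metric.isOpen_ball.mem_nhds (by simpa using hlt)
  have h5 : hh γ '' (U ∩ Metric.ball 0 1) ∈ 𝓝 p := by
    rw [← h2]
    exact image_mem_map (inter_mem hU hb)
  rw [mem_map]
  refine mem_of_superset h5 ?_
  rintro q ⟨z, ⟨hzU, hzb⟩, rfl⟩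
  show eta γ (hh γ z) ∈ U
  rw [eta_hh h4 hγ (by simpa using hzb)]
  exact hzU

include h1 h3 h4 hγ in
theorem deriv_eta {p : ℂ} (hp : p ∈ WW γ) : HasDerivAt (eta γ) (1 / hd γ (eta γ p)) p := by
  rw [one_div]
  have hlt := (eta_spec hp).1
  refine HasDerivAt.of_local_left_inverse (contAt h1 h3 h4 hγ hp) ((h1 γ hγ).1 (eta γ p) hlt)
    (hd_ne h3 hγ hlt) ?_
  filter_upwards [(open_WW h1 h3 hγ).mem_nhds hp] with q hq
  exact (eta_spec hq).2

include h4 hγ in
theorem level_eq {r : ℝ} (hr : r < 1) :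
    {p : ℂ | ‖eta γ p‖ ≤ r} = hh γ '' Metric.closedBall 0 r := by
  ext p
  constructor
  · intro hp
    simp only [Set.mem_ofPred_eq] at hp
    have hpW : p ∈ WW γ := by
      by_contra h
      rw [eta_off h, norm_one] at hp
      linarith
    exact ⟨eta γ p, by simpa using hp, (eta_spec hpW).2⟩
  · rintro ⟨z, hz, rfl⟩
    have hz' : ‖z‖ ≤ r := by simpa using hz
    simp only [Set.mem_ofPred_eq]
    rw [eta_hh h4 hγ (lt_of_le_of_lt hz' hr)]
    exact hz'

include h1 h4 hγ in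
theorem level_compact {r : ℝ} (hr : r < 1) : IsCompact {p : ℂ | ‖eta γ p‖ ≤ r} := by
  rw [level_eq h4 hγ hr]
  apply (isCompact_closedBall (0 : ℂ) r).image_of_continuousOn
  apply (diff_hh h1 hγ).continuousOn.mono
  exact Metric.closedBall_subset_ball hr

include h1 h3 h4 hγ in
theorem cont_norm : Continuous (fun p => ‖eta γ p‖) := by
  rw [continuous_iff_continuousAt]
  intro p
  by_cases hp : p ∈ WW γ
  · exact (contAt h1 h3 h4 hγ hp).norm
  · rw [Metric.continuousAt_iff']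
    intro ε hε
    have h2 : {q : ℂ | ‖eta γ q‖ ≤ 1 - ε}ᶜ ∈ 𝓝 p := by
      apply (level_compact h1 h4 hγ (by linarith : 1 - ε < 1)).isClosed.isOpen_compl.mem_nhds
      intro h
      simp only [Set.mem_ofPred_eq] at h
      rw [eta_off hp, norm_one] at h
      linarith
    filter_upwards [h2] with q hq
    have hq' : 1 - ε < ‖eta γ q‖ := by
      by_contra h
      exact hq (not_lt.1 h)
    rw [eta_off hp, norm_one, Real.dist_eq, abs_lt]
    have := norm_le_one (γ := γ) q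
    constructor <;> linarith

include h1 h3 h4 hγ in
theorem meas : Measurable (eta γ) := by
  classical
  have e : eta γ = (WW γ).piecewise (eta γ) (fun _ => 1) := by
    funext p
    by_cases hp : p ∈ WW γ
    · rw [Set.piecewise_eq_of_mem _ _ _ hp]
    · rw [Set.piecewise_eq_of_notMem _ _ _ hp, eta_off hp]
  rw [e]
  have hc : ContinuousOn (eta γ) (WW γ) := fun p hp =>
    (contAt h1 h3 h4 hγ hp).continuousWithinAt
  exact hc.measurable_piecewise continuousOn_const (open_WW h1 h3 hγ).measurableSet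

include h1 hγ in
theorem hh_zero : hh γ 0 = 0 := by
  obtain ⟨C, _, h2⟩ := (h1 γ hγ).2.2.2.1
  have h3 := h2 0 (by simp)
  rw [norm_zero, mul_zero] at h3
  exact norm_le_zero_iff.1 h3

/-- the rotation -/
def om (γ : ℝ) : ℂ := hd γ 0 / ((‖hd γ 0‖ : ℝ) : ℂ)

open Classical in
/-- the function of the lens -/
def ee (γ : ℝ) (p : ℂ) : ℂ := if p ∈ WW γ then om γ * eta γ p else 1

include h3 hγ in
theorem norm_om : ‖om γ‖ = 1 := by
  have h := hd_ne h3 hγ (z := 0) (by simp)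
  unfold om
  rw [norm_div, Complex.norm_real, norm_norm, div_self (norm_ne_zero_iff.2 h)]

include h3 hγ in
theorem norm_ee (p : ℂ) : ‖ee γ p‖ = ‖eta γ p‖ := by
  unfold ee
  split_ifs with h
  · rw [norm_mul, norm_om h3 hγ, one_mul]
  · rw [eta_off h]

include h1 h3 h4 hγ in
theorem deriv_ee {p : ℂ} (hp : p ∈ WW γ) : HasDerivAt (ee γ) (om γ / hd γ (eta γ p)) p := by
  have h2 := (deriv_eta h1 h3 h4 hγ hp).const_mul (om γ)
  rw [mul_one_div] at h2
  refine h2.congr_of_eventuallyEq ?_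
  filter_upwards [(open_WW h1 h3 hγ).mem_nhds hp] with q hq
  unfold ee
  rw [if_pos hq]

include h1 h3 h4 hγ in
theorem meas_ee : Measurable (ee γ) := by
  classical
  unfold ee
  refine Measurable.ite (open_WW h1 h3 hγ).measurableSet ?_ measurable_const
  exact (meas h1 h3 h4 hγ).const_mul _

include h1 h3 h4 hγ in
theorem exists_lens : ∃ L : Lens, L.W = WW γ ∧ L.e = ee γ := by
  obtain ⟨C, hC0, hC⟩ := (h1 γ hγ).2.2.2.1
  obtain ⟨-, c, hc, hc2⟩ := h3 γ hγ
  have h0 : (0 : ℂ) ∈ WW γ := ⟨0, by simp, hh_zero h1 hγ⟩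
  have he0 : eta γ 0 = 0 := by
    have h2 := eta_hh h4 hγ (z := 0) (by simp)
    rwa [hh_zero h1 hγ] at h2
  have hd0 := hd_ne h3 hγ (z := 0) (by simp)
  have hd0' : 0 < ‖hd γ 0‖ := norm_pos_iff.2 hd0
  refine ⟨{
    W := WW γ
    e := ee γ
    c0 := 1 / ‖hd γ 0‖
    C := C
    B := 1 / c
    isOpen := open_WW h1 h3 hγ
    zero_mem := h0
    diff := fun p hp => (deriv_ee h1 h3 h4 hγ hp).differentiableAt.differentiableWithinAt
    lt := fun p hp => by rw [norm_ee h3 hγ]; exact (eta_spec hp).1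
    off := fun p hp => by unfold ee; rw [if_neg hp]
    comp := fun r hr => by
      simp only [norm_ee h3 hγ]
      exact level_compact h1 h4 hγ hr
    e_zero := by
      unfold ee
      rw [if_pos h0, he0, mul_zero]
    c0_pos := by positivity
    deriv_zero := by
      rw [(deriv_ee h1 h3 h4 hγ h0).deriv, he0]
      unfold om
      push_cast
      have : ((‖hd γ 0‖ : ℝ) : ℂ) ≠ 0 := by exact_mod_cast hd0'.ne'
      field_simp
    hC := fun p hp => by
      obtain ⟨e1, e2⟩ := eta_spec hp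
      rw [norm_ee h3 hγ]
      have h2 := hC (eta γ p) e1.le
      rwa [e2] at h2
    hB := fun p hp => by
      rw [(deriv_ee h1 h3 h4 hγ hp).deriv, norm_div, norm_om h3 hγ]
      exact one_div_le_one_div_of_le hc (hc2 _ (eta_spec hp).1) }, rfl, rfl⟩

end S5aux

open S5aux in
theorem S5 (h1 : S_S1) (h3 : S_S3) (h4 : S_S4) : S_S5 := by
  intro γ hγ
  obtain ⟨L, hW, he⟩ := exists_lens h1 h3 h4 hγ
  refine ⟨open_WW h1 h3 hγ, fun p hp => eta_spec hp, fun z hz => eta_hh h4 hγ hz,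
    fun p hp => eta_off hp, fun p hp => deriv_eta h1 h3 h4 hγ hp, meas h1 h3 h4 hγ,
    cont_norm h1 h3 h4 hγ, L, hW, fun p => ?_, ?_, fun p hp => ?_⟩
  · rw [he]; exact norm_ee h3 hγ p
  · rw [he]; exact meas_ee h1 h3 h4 hγ
  · rw [he, (deriv_ee h1 h3 h4 hγ hp).deriv, norm_div, norm_om h3 hγ]

end Pool.Agent.N294.FM
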