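import Pool.Agent.N294.FM.Stm

/-!
# Vertical slices of the twisted lens (leaf S6, helper559)
-/

set_option autoImplicit false

noncomputable section

open MeasureTheory Filter Topology
open scoped BigOperators Matrix ENNReal

namespace Pool.Agent.N294.FM

open H712MA

namespace S6aux

lemma path_eq (x : ℝ) : (fun t : ℝ => (⟨x, t⟩ : ℂ)) = fun t : ℝ => (x : ℂ) + (t : ℂ) * Complex.I := by
  funext t
  exact Complex.mk_eq_add_mul_I x t

lemma path_cont (x : ℝ) : Continuous (fun t : ℝ => (⟨x, t⟩ : ℂ)) := by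
  rw [path_eq]
  fun_prop

/-- derivative of `‖eta‖²` in the vertical direction -/
lemma deriv_sq (γ : ℝ) (hder0 : ∀ p ∈ WW γ, HasDerivAt (eta γ) (1 / hd γ (eta γ p)) p) (x y : ℝ)
    (hp : (⟨x, y⟩ : ℂ) ∈ WW γ) :
    HasDerivAt (fun t : ℝ => ‖eta γ ⟨x, t⟩‖ ^ 2)
      (2 * (gg γ (eta γ ⟨x, y⟩)).im / ‖hd γ (eta γ ⟨x, y⟩)‖ ^ 2) y := by
  have hd1 := hder0 _ hp
  set ζ := eta γ ⟨x, y⟩ with hζ
  -- the path
  have hpath : HasDerivAt (fun t : ℝ => (⟨x, t⟩ : ℂ)) Complex.I y := by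
    rw [path_eq]
    have := ((Complex.ofRealCLM.hasDerivAt (x := y)).mul_const Complex.I).const_add (x : ℂ)
    simpa using this
  have hcomp : HasDerivAt (fun t : ℝ => eta γ ⟨x, t⟩) (1 / hd γ ζ * Complex.I) y := by
    have := HasDerivAt.scomp y (h := fun t : ℝ => (⟨x, t⟩ : ℂ)) (g₁ := eta γ) (h' := Complex.I)
      (g₁' := 1 / hd γ ζ) hd1 hpath
    have e : (Complex.I • (1 / hd γ ζ)) = 1 / hd γ ζ * Complex.I := by
      rw [smul_eq_mul, mul_comm]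
    rw [e] at this
    exact this
  have hre : HasDerivAt (fun t : ℝ => (eta γ ⟨x, t⟩).re) (1 / hd γ ζ * Complex.I).re y := by
    exact (Complex.reCLM.hasFDerivAt (x := eta γ ⟨x, y⟩)).comp_hasDerivAt y hcomp
  have him : HasDerivAt (fun t : ℝ => (eta γ ⟨x, t⟩).im) (1 / hd γ ζ * Complex.I).im y := by
    exact (Complex.imCLM.hasFDerivAt (x := eta γ ⟨x, y⟩)).comp_hasDerivAt y hcomp
  have hsum := (hre.mul hre).add (him.mul him)
  have hfun : (fun t : ℝ => ‖eta γ ⟨x, t⟩‖ ^ 2) =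
      (fun t : ℝ => (eta γ ⟨x, t⟩).re) * (fun t : ℝ => (eta γ ⟨x, t⟩).re) +
      (fun t : ℝ => (eta γ ⟨x, t⟩).im) * (fun t : ℝ => (eta γ ⟨x, t⟩).im) := by
    funext t
    simp only [Pi.add_apply, Pi.mul_apply]
    rw [← Complex.normSq_eq_norm_sq, Complex.normSq_apply]
  rw [hfun]
  refine hsum.congr_deriv ?_
  by_cases h0 : hd γ ζ = 0
  · simp [h0]
  have hn : Complex.normSq (hd γ ζ) ≠ 0 := by
    simpa using h0
  rw [← Complex.normSq_eq_norm_sq]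
  have hg : (gg γ ζ).im = ζ.re * (hd γ ζ).im + ζ.im * (hd γ ζ).re := by
    unfold gg
    rw [Complex.mul_im]
  rw [hg]
  simp only [one_div, Complex.mul_re, Complex.mul_im, Complex.inv_re, Complex.inv_im,
    Complex.I_re, Complex.I_im, ← hζ]
  field_simp
  ring

/-- the imaginary part of the strip coordinate increases along vertical lines -/
lemma arg_mono (γ : ℝ)
    (hmono : ∀ z w : ℂ, ‖z‖ < 1 → ‖w‖ < 1 → z ≠ w →
      0 < ((hh γ z - hh γ w) *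
        starRingEnd ℂ (Complex.log (cay z) - Complex.log (cay w))).re)
    (heta : ∀ p ∈ WW γ, ‖eta γ p‖ < 1 ∧ hh γ (eta γ p) = p)
    (x y y' : ℝ) (hp : (⟨x, y⟩ : ℂ) ∈ WW γ) (hp' : (⟨x, y'⟩ : ℂ) ∈ WW γ) (hyy : y < y') :
    (cay (eta γ ⟨x, y⟩)).arg < (cay (eta γ ⟨x, y'⟩)).arg := by
  obtain ⟨n1, e1⟩ := heta _ hp
  obtain ⟨n2, e2⟩ := heta _ hp'
  have hne : eta γ ⟨x, y'⟩ ≠ eta γ ⟨x, y⟩ := by
    intro h
    rw [h, e1] at e2
    have h3 := congrArg Complex.im e2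
    simp only at h3
    linarith
  have h := hmono _ _ n2 n1 hne
  rw [e1, e2] at h
  have e3 : ((⟨x, y'⟩ : ℂ) - ⟨x, y⟩) = ((y' - y : ℝ) : ℂ) * Complex.I := by
    apply Complex.ext <;> simp
  rw [e3] at h
  set s : ℂ := Complex.log (cay (eta γ ⟨x, y'⟩)) - Complex.log (cay (eta γ ⟨x, y⟩)) with hs
  have e4 : (((y' - y : ℝ) : ℂ) * Complex.I * (starRingEnd ℂ) s).re = (y' - y) * s.im := by
    simp [Complex.mul_re, Complex.mul_im]
  rw [e4] at h
  have h5 : 0 < s.im := by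
    by_contra hc
    push Not at hc
    have : (y' - y) * s.im ≤ 0 := mul_nonpos_of_nonneg_of_nonpos (by linarith) hc
    linarith
  have h6 : s.im = (cay (eta γ ⟨x, y'⟩)).arg - (cay (eta γ ⟨x, y⟩)).arg := by
    rw [hs, Complex.sub_im, Complex.log_im, Complex.log_im]
  rw [h6] at h5
  linarith

lemma slice_aux (γ : ℝ)
    (hmono : ∀ z w : ℂ, ‖z‖ < 1 → ‖w‖ < 1 → z ≠ w →
      0 < ((hh γ z - hh γ w) *
        starRingEnd ℂ (Complex.log (cay z) - Complex.log (cay w))).re)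
    (hcross : ∀ z : ℂ, ‖z‖ < 1 → ∀ b : ℝ, |b| < Real.pi / 2 →
      ∃ w : ℂ, ‖w‖ < 1 ∧ (cay w).arg = b ∧ (hh γ w).re = (hh γ z).re)
    (hopen : IsOpen (WW γ))
    (heta : ∀ p ∈ WW γ, ‖eta γ p‖ < 1 ∧ hh γ (eta γ p) = p)
    (hinv : ∀ z : ℂ, ‖z‖ < 1 → eta γ (hh γ z) = z)
    (x y t y' : ℝ) (hp : (⟨x, y⟩ : ℂ) ∈ WW γ) (hp' : (⟨x, y'⟩ : ℂ) ∈ WW γ) (hyt : y ≤ t)
    (hty : t ≤ y') : (⟨x, t⟩ : ℂ) ∈ WW γ := by
  by_contra ht
  set b : ℝ → ℝ := fun s => (cay (eta γ ⟨x, s⟩)).arg with hb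
  have bm : ∀ s s' : ℝ, (⟨x, s⟩ : ℂ) ∈ WW γ → (⟨x, s'⟩ : ℂ) ∈ WW γ → s < s' → b s < b s' :=
    fun s s' h h' hl => arg_mono γ hmono heta x s s' h h' hl
  have bbd : ∀ s : ℝ, (⟨x, s⟩ : ℂ) ∈ WW γ → |b s| < Real.pi / 2 :=
    fun s h => abs_arg_cay_lt (heta _ h).1
  have y_lt : y < t := lt_of_le_of_ne hyt (by rintro rfl; exact ht hp)
  have t_lt : t < y' := lt_of_le_of_ne hty (by rintro rfl; exact ht hp')
  have hSopen : IsOpen {s : ℝ | (⟨x, s⟩ : ℂ) ∈ WW γ} := hopen.preimage (path_cont x)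
  have onto : ∀ b0 : ℝ, |b0| < Real.pi / 2 → ∃ s : ℝ, (⟨x, s⟩ : ℂ) ∈ WW γ ∧ b s = b0 := by
    intro b0 hb0
    obtain ⟨n1, e1⟩ := heta _ hp
    obtain ⟨w, hw, hwa, hwr⟩ := hcross _ n1 b0 hb0
    rw [e1] at hwr
    refine ⟨(hh γ w).im, ?_, ?_⟩
    · have : (⟨x, (hh γ w).im⟩ : ℂ) = hh γ w := by
        apply Complex.ext
        · simpa using hwr.symm
        · rfl
      rw [this]
      exact ⟨w, by simpa using hw, rfl⟩
    · have : (⟨x, (hh γ w).im⟩ : ℂ) = hh γ w := by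
        apply Complex.ext
        · simpa using hwr.symm
        · rfl
      simp only [hb]
      rw [this, hinv w hw, hwa]
  set A : Set ℝ := b '' {s | (⟨x, s⟩ : ℂ) ∈ WW γ ∧ s < t} with hA
  have hAne : A.Nonempty := ⟨b y, y, ⟨hp, y_lt⟩, rfl⟩
  have hAub : ∀ a ∈ A, a ≤ b y' := by
    rintro a ⟨s, ⟨hs, hst⟩, rfl⟩
    exact (bm s y' hs hp' (hst.trans t_lt)).le
  have hAbdd : BddAbove A := ⟨b y', hAub⟩
  set β : ℝ := sSup A with hβ
  have hβ1 : b y ≤ β := le_csSup hAbdd ⟨y, ⟨hp, y_lt⟩, rfl⟩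
  have hβ2 : β ≤ b y' := csSup_le hAne hAub
  have hβ3 : |β| < Real.pi / 2 := by
    have h1 := abs_lt.1 (bbd y hp)
    have h2 := abs_lt.1 (bbd y' hp')
    exact abs_lt.2 ⟨lt_of_lt_of_le h1.1 hβ1, lt_of_le_of_lt hβ2 h2.2⟩
  obtain ⟨s0, hs0, hbs0⟩ := onto β hβ3
  have hs0t : s0 ≠ t := by rintro rfl; exact ht hs0
  obtain ⟨ε, hε, hball⟩ := Metric.isOpen_iff.1 hSopen s0 hs0
  rcases lt_or_gt_of_ne hs0t with h | h
  · -- `s0 < t`
    set s1 : ℝ := s0 + min (ε / 2) ((t - s0) / 2) with hs1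
    have m0 : 0 < min (ε / 2) ((t - s0) / 2) := lt_min (by linarith) (by linarith)
    have m1 : min (ε / 2) ((t - s0) / 2) ≤ ε / 2 := min_le_left _ _
    have m2 : min (ε / 2) ((t - s0) / 2) ≤ (t - s0) / 2 := min_le_right _ _
    have hmem : (⟨x, s1⟩ : ℂ) ∈ WW γ := by
      apply hball
      rw [Metric.mem_ball, Real.dist_eq, hs1, add_sub_cancel_left, abs_of_pos m0]
      linarith
    have h6 := bm s0 s1 hs0 hmem (by linarith)
    have h7 : b s1 ≤ β := le_csSup hAbdd ⟨s1, ⟨hmem, by linarith⟩, rfl⟩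
    rw [hbs0] at h6
    linarith
  · -- `t < s0`
    set s1 : ℝ := s0 - min (ε / 2) ((s0 - t) / 2) with hs1
    have m0 : 0 < min (ε / 2) ((s0 - t) / 2) := lt_min (by linarith) (by linarith)
    have m1 : min (ε / 2) ((s0 - t) / 2) ≤ ε / 2 := min_le_left _ _
    have m2 : min (ε / 2) ((s0 - t) / 2) ≤ (s0 - t) / 2 := min_le_right _ _
    have hmem : (⟨x, s1⟩ : ℂ) ∈ WW γ := by
      apply hball
      rw [Metric.mem_ball, Real.dist_eq, hs1]
      have : s0 - min (ε / 2) ((s0 - t) / 2) - s0 = -min (ε / 2) ((s0 - t) / 2) := by ring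
      rw [this, abs_neg, abs_of_pos m0]
      linarith
    have h6 := bm s1 s0 hmem hs0 (by linarith)
    have h7 : β ≤ b s1 := by
      apply csSup_le hAne
      rintro a ⟨s, ⟨hs, hst⟩, rfl⟩
      exact (bm s s1 hs hmem (by linarith)).le
    rw [hbs0] at h6
    linarith

end S6aux

open S6aux

theorem S6 (_h1 : S_S1) (h2 : S_S2) (h4 : S_S4) (h5 : S_S5) : S_S6 := by
  intro γ hγ L hW he hde
  obtain ⟨hvim, -, -, -, -, -⟩ := h2 γ hγ
  obtain ⟨hmono, hcross⟩ := h4 γ hγ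
  obtain ⟨hopen, heta, hinv, -, hder, -, -, -⟩ := h5 γ hγ
  refine ⟨?_, ?_, ?_, ?_⟩
  · intro m hm p hp hv
    have hg : gg γ (eta γ p) ≠ 0 := by
      intro h
      apply hv
      unfold vv
      rw [h]; rfl
    have hz : eta γ p ≠ 0 := by
      intro h
      apply hg
      unfold gg
      rw [h, zero_mul]
    have hdn : hd γ (eta γ p) ≠ 0 := by
      intro h
      apply hg
      unfold gg
      rw [h, mul_zero]
    unfold af
    have hn : ‖gd L m p‖ = (m : ℝ) * ‖eta γ p‖ ^ (m - 1) * (1 / ‖hd γ (eta γ p)‖) := by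
      unfold gd
      rw [if_pos hp, norm_mul, norm_mul, norm_pow, he, hde p (hW ▸ hp), Complex.norm_natCast]
    rw [hn]
    have hm0 : (0 : ℝ) < m := by exact_mod_cast hm
    have h8 : 0 < ‖eta γ p‖ := norm_pos_iff.2 hz
    have h9 : 0 < ‖hd γ (eta γ p)‖ := norm_pos_iff.2 hdn
    positivity
  · intro x y y' hp hp' hyy
    rw [hW] at hp hp'
    have hb := arg_mono γ hmono heta x y y' hp hp' hyy
    obtain ⟨n1, e1⟩ := heta _ hp
    obtain ⟨n2, e2⟩ := heta _ hp'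
    unfold vv
    rw [hvim _ n1, hvim _ n2, e1, e2]
    have hpi := Real.pi_pos
    have : 2 / Real.pi * (cay (eta γ ⟨x, y⟩)).arg < 2 / Real.pi * (cay (eta γ ⟨x, y'⟩)).arg :=
      mul_lt_mul_of_pos_left hb (by positivity)
    exact mul_lt_mul_of_pos_left (by simpa using this) hγ
  · intro x y t y' hp hp' hyt hty
    rw [hW] at hp hp' ⊢
    exact slice_aux γ hmono hcross hopen heta hinv x y t y' hp hp' hyt hty
  · intro m hm x y hp
    have hp0 := hp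
    rw [hW] at hp
    have hder' := (deriv_sq γ hder x y hp).pow m
    have hfun : (fun t : ℝ => ‖gf L m ⟨x, t⟩‖ ^ 2) = (fun t : ℝ => ‖eta γ ⟨x, t⟩‖ ^ 2) ^ m := by
      funext t
      simp only [gf, he, Pi.pow_apply, norm_pow]
      ring
    rw [hfun]
    refine hder'.congr_deriv ?_
    have hn : ‖gd L m ⟨x, y⟩‖ =
        (m : ℝ) * ‖eta γ ⟨x, y⟩‖ ^ (m - 1) * (1 / ‖hd γ (eta γ ⟨x, y⟩)‖) := by
      unfold gd
      rw [if_pos hp0, norm_mul, norm_mul, norm_pow, he, hde _ hp, Complex.norm_natCast]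
    unfold af vv
    rw [hn]
    have hm0 : (m : ℝ) ≠ 0 := by
      have : (0 : ℝ) < m := by exact_mod_cast hm
      exact this.ne'
    by_cases h0 : hd γ (eta γ ⟨x, y⟩) = 0
    · have : gg γ (eta γ ⟨x, y⟩) = 0 := by
        unfold gg
        rw [h0, mul_zero]
      rw [this, h0]
      simp
    have hnpos : ‖hd γ (eta γ ⟨x, y⟩)‖ ≠ 0 := norm_ne_zero_iff.2 h0
    field_simp
    ring

end Pool.Agent.N294.FM
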