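import Pool.Agent.N294.FM.Stm
import Pool.Agent.H712R2.MA.H5

/-!
# FM/S7: integrals of `a` and concentration at the boundary

Adaptation of `Pool.Agent.H712R2.MA.H5`.
-/

set_option autoImplicit false

noncomputable section

open MeasureTheory Filter Topology Set
open scoped BigOperators ENNReal

namespace Pool.Agent.N294.FM

namespace S7aux

open H712MA (Lens af gd gf H5_det H5_polar H5_pow H5_normexp H5_vol)

/-- change of variables `p = h(z)` -/
theorem cov (h1 : S_S1) (h4 : S_S4) {γ : ℝ} (hγ : 0 < γ) (g : ℂ → ℝ≥0∞) :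
    ∫⁻ p in WW γ, g p =
      ∫⁻ z in Metric.ball (0 : ℂ) 1, ENNReal.ofReal (‖hd γ z‖ ^ 2) * g (hh γ z) := by
  have hder := (h1 γ hγ).1
  have hmono := (h4 γ hγ).1
  have hinj' : InjOn (hh γ) (Metric.ball (0 : ℂ) 1) := by
    intro z hz w hw e
    rw [Metric.mem_ball, dist_zero_right] at hz hw
    by_contra hne
    have h := hmono z w hz hw hne
    rw [e, sub_self, zero_mul, Complex.zero_re] at h
    exact lt_irrefl _ h
  have h := lintegral_image_eq_lintegral_abs_det_fderiv_mul (volume : Measure ℂ)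
    (s := Metric.ball (0 : ℂ) 1) (f := hh γ)
    (f' := fun z => (ContinuousLinearMap.toSpanSingleton ℂ (hd γ z)).restrictScalars ℝ)
    measurableSet_ball (fun z hz => by
      rw [Metric.mem_ball, dist_zero_right] at hz
      exact ((hder z hz).hasFDerivAt.restrictScalars ℝ).hasFDerivWithinAt) hinj' g
  simp only [H5_det] at h
  unfold WW
  rw [h]
  refine lintegral_congr fun z => ?_
  rw [abs_of_nonneg (by positivity)]

/-- the coefficient in the disc -/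
theorem afz (h3 : S_S3) (h5 : S_S5) {γ : ℝ} (hγ : 0 < γ) (L : Lens) (hW : L.W = WW γ)
    (he : ∀ p, ‖L.e p‖ = ‖eta γ p‖)
    (hd' : ∀ p ∈ WW γ, ‖deriv L.e p‖ = 1 / ‖hd γ (eta γ p)‖) (m : ℕ) (z : ℂ)
    (hz : ‖z‖ < 1) : ‖hd γ z‖ ^ 2 * af L m (hh γ z) = (m : ℝ) ^ 2 * ‖z‖ ^ (2 * (m - 1)) := by
  obtain ⟨c, hc0, hc⟩ := (h3 γ hγ).2
  obtain ⟨-, -, hinv, -⟩ := h5 γ hγ
  have hmem : hh γ z ∈ WW γ := ⟨z, by rw [Metric.mem_ball, dist_zero_right]; exact hz, rfl⟩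
  have hne : ‖hd γ z‖ ≠ 0 := (lt_of_lt_of_le hc0 (hc z hz)).ne'
  have hd1 : ‖deriv L.e (hh γ z)‖ = 1 / ‖hd γ z‖ := by
    rw [hd' _ hmem, hinv z hz]
  unfold af gd
  rw [if_pos (by rw [hW]; exact hmem), norm_mul, norm_mul, norm_pow, hd1, he, hinv z hz,
    Complex.norm_natCast]
  field_simp
  rw [← pow_mul, mul_comm (m - 1) 2]

theorem off {γ : ℝ} (L : Lens) (hW : L.W = WW γ) (m : ℕ) (p : ℂ) (hp : p ∉ WW γ) :
    af L m p = 0 := by
  unfold af gd
  rw [if_neg (by rw [hW]; exact hp)]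
  simp

/-- integrals against `a` are integrals over the disc -/
theorem int (h1 : S_S1) (h3 : S_S3) (h4 : S_S4) (h5 : S_S5) {γ : ℝ} (hγ : 0 < γ)
    (L : Lens) (hW : L.W = WW γ) (he : ∀ p, ‖L.e p‖ = ‖eta γ p‖)
    (hd' : ∀ p ∈ WW γ, ‖deriv L.e p‖ = 1 / ‖hd γ (eta γ p)‖) (m : ℕ) (G : ℂ → ℝ) :
    ∫⁻ p, ENNReal.ofReal (af L m p * G p) =
      ∫⁻ z in Metric.ball (0 : ℂ) 1,
        ENNReal.ofReal ((m : ℝ) ^ 2 * ‖z‖ ^ (2 * (m - 1)) * G (hh γ z)) := by
  have e1 : ∫⁻ p, ENNReal.ofReal (af L m p * G p) =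
      ∫⁻ p in WW γ, ENNReal.ofReal (af L m p * G p) := by
    rw [← lintegral_indicator (h5 γ hγ).1.measurableSet]
    refine lintegral_congr fun p => ?_
    by_cases hp : p ∈ WW γ
    · rw [indicator_of_mem hp]
    · rw [indicator_of_notMem hp, off L hW m p hp, zero_mul, ENNReal.ofReal_zero]
  rw [e1, cov h1 h4 hγ]
  refine setLIntegral_congr_fun measurableSet_ball fun z hz => ?_
  rw [Metric.mem_ball, dist_zero_right] at hz
  rw [← ENNReal.ofReal_mul (by positivity), ← mul_assoc, afz h3 h5 hγ L hW he hd' m z hz]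

theorem one (h1 : S_S1) (h3 : S_S3) (h4 : S_S4) (h5 : S_S5) {γ : ℝ} (hγ : 0 < γ)
    (L : Lens) (hW : L.W = WW γ) (he : ∀ p, ‖L.e p‖ = ‖eta γ p‖)
    (hd' : ∀ p ∈ WW γ, ‖deriv L.e p‖ = 1 / ‖hd γ (eta γ p)‖) (m : ℕ)
    (hm : 1 ≤ m) : ∫⁻ p, ENNReal.ofReal (af L m p) = ENNReal.ofReal (m * Real.pi) := by
  have hm0 : (0 : ℝ) < m := by exact_mod_cast hm
  have e0 : ∫⁻ p, ENNReal.ofReal (af L m p) =
      ∫⁻ p, ENNReal.ofReal (af L m p * (fun _ => (1 : ℝ)) p) :=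
    lintegral_congr fun p => by simp
  rw [e0, int h1 h3 h4 h5 hγ L hW he hd' m (fun _ => 1), H5_polar _ (by fun_prop)]
  have e1 : ∀ θ : ℝ, ∫⁻ r in Ioo (0 : ℝ) 1, ENNReal.ofReal (r * ((m : ℝ) ^ 2 *
      ‖(r : ℂ) * Complex.exp (θ * Complex.I)‖ ^ (2 * (m - 1)) * 1)) =
      ENNReal.ofReal ((m : ℝ) / 2) := by
    intro θ
    have := H5_pow m hm 1 zero_le_one
    rw [one_pow, mul_one] at this
    rw [← this]
    refine setLIntegral_congr_fun measurableSet_Ioo fun r hr => ?_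
    rw [H5_normexp r θ hr.1.le]
    congr 1
    have e2 : 2 * m - 1 = 2 * (m - 1) + 1 := by omega
    rw [e2, pow_succ]
    ring
  simp only [e1]
  rw [setLIntegral_const, H5_vol, ← ENNReal.ofReal_mul (by positivity)]
  congr 1
  ring

theorem inner_le {γ : ℝ} (hQ0 : ∀ z : ℂ, ‖z‖ < 1 → 0 ≤ QQ γ z) (m : ℕ) (hm : 1 ≤ m) (θ : ℝ) (t ε : ℝ) (ht0 : 0 ≤ t)
    (hε : 0 ≤ ε)
    (hQ : ∀ r : ℝ, t ≤ r → r < 1 → 1 - QQ γ ((r : ℂ) * Complex.exp (θ * Complex.I)) ≤ ε) :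
    ∫⁻ r in Ioo (0 : ℝ) 1, ENNReal.ofReal (r * ((m : ℝ) ^ 2 *
      ‖(r : ℂ) * Complex.exp (θ * Complex.I)‖ ^ (2 * (m - 1)) *
        (1 - QQ γ ((r : ℂ) * Complex.exp (θ * Complex.I))))) ≤
      ENNReal.ofReal ((m : ℝ) / 2 * (ε + t ^ (2 * m))) := by
  have hm0 : (0 : ℝ) < m := by exact_mod_cast hm
  have hQ1 : ∀ r : ℝ, 0 < r → r < 1 → 1 - QQ γ ((r : ℂ) * Complex.exp (θ * Complex.I)) ≤ 1 := by
    intro r hr0 hr1
    have : 0 ≤ QQ γ ((r : ℂ) * Complex.exp (θ * Complex.I)) := hQ0 _ (by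
      rw [H5_normexp r θ hr0.le]; exact hr1)
    linarith
  have hle : ∀ r ∈ Ioo (0 : ℝ) 1, ENNReal.ofReal (r * ((m : ℝ) ^ 2 *
      ‖(r : ℂ) * Complex.exp (θ * Complex.I)‖ ^ (2 * (m - 1)) *
        (1 - QQ γ ((r : ℂ) * Complex.exp (θ * Complex.I))))) ≤
      ENNReal.ofReal ε * ENNReal.ofReal ((m : ℝ) ^ 2 * r ^ (2 * m - 1)) +
        (Ioo (0 : ℝ) t).indicator (fun r => ENNReal.ofReal ((m : ℝ) ^ 2 * r ^ (2 * m - 1))) r := by
    intro r hr
    rw [H5_normexp r θ hr.1.le]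
    have e2 : 2 * m - 1 = 2 * (m - 1) + 1 := by omega
    have e3 : r * ((m : ℝ) ^ 2 * r ^ (2 * (m - 1)) *
        (1 - QQ γ ((r : ℂ) * Complex.exp (θ * Complex.I)))) =
        ((m : ℝ) ^ 2 * r ^ (2 * m - 1)) *
          (1 - QQ γ ((r : ℂ) * Complex.exp (θ * Complex.I))) := by
      rw [e2, pow_succ]; ring
    rw [e3]
    have hp : 0 ≤ (m : ℝ) ^ 2 * r ^ (2 * m - 1) := by
      have := hr.1
      positivity
    by_cases hrt : r < t
    · rw [indicator_of_mem (show r ∈ Ioo (0 : ℝ) t from ⟨hr.1, hrt⟩)]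
      refine le_trans ?_ le_add_self
      exact ENNReal.ofReal_le_ofReal (by
        calc _ ≤ (m : ℝ) ^ 2 * r ^ (2 * m - 1) * 1 :=
              mul_le_mul_of_nonneg_left (hQ1 r hr.1 hr.2) hp
          _ = _ := mul_one _)
    · rw [indicator_of_notMem (show r ∉ Ioo (0 : ℝ) t from fun h => hrt h.2), add_zero,
        ← ENNReal.ofReal_mul hε]
      exact ENNReal.ofReal_le_ofReal (by
        rw [mul_comm ε]
        exact mul_le_mul_of_nonneg_left (hQ r (not_lt.1 hrt) hr.2) hp)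
  have hmeas : Measurable fun r : ℝ => ENNReal.ofReal ((m : ℝ) ^ 2 * r ^ (2 * m - 1)) := by
    fun_prop
  calc _ ≤ ∫⁻ r in Ioo (0 : ℝ) 1, (ENNReal.ofReal ε * ENNReal.ofReal ((m : ℝ) ^ 2 *
          r ^ (2 * m - 1)) + (Ioo (0 : ℝ) t).indicator (fun r => ENNReal.ofReal ((m : ℝ) ^ 2 *
          r ^ (2 * m - 1))) r) := setLIntegral_mono' measurableSet_Ioo hle
    _ = ENNReal.ofReal ε * ENNReal.ofReal ((m : ℝ) / 2) +
        ∫⁻ r in Ioo (0 : ℝ) 1, (Ioo (0 : ℝ) t).indicator (fun r => ENNReal.ofReal ((m : ℝ) ^ 2 *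
          r ^ (2 * m - 1))) r := by
        rw [lintegral_add_left (hmeas.const_mul _), lintegral_const_mul _ hmeas,
          H5_pow m hm 1 zero_le_one, one_pow, mul_one]
    _ ≤ ENNReal.ofReal ε * ENNReal.ofReal ((m : ℝ) / 2) +
        ∫⁻ r in Ioo (0 : ℝ) t, ENNReal.ofReal ((m : ℝ) ^ 2 * r ^ (2 * m - 1)) := by
        refine add_le_add le_rfl ?_
        exact (setLIntegral_le_lintegral _ _).trans
          (le_of_eq (lintegral_indicator measurableSet_Ioo _))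
    _ = ENNReal.ofReal ((m : ℝ) / 2 * (ε + t ^ (2 * m))) := by
        rw [H5_pow m hm t ht0, ← ENNReal.ofReal_mul hε, ← ENNReal.ofReal_add (by positivity)
          (by positivity)]
        congr 1
        ring

theorem two (h1 : S_S1) (h2 : S_S2) (h3 : S_S3) (h4 : S_S4) (h5 : S_S5) {γ : ℝ} (hγ : 0 < γ)
    (L : Lens) (hW : L.W = WW γ) (he : ∀ p, ‖L.e p‖ = ‖eta γ p‖)
    (hd' : ∀ p ∈ WW γ, ‖deriv L.e p‖ = 1 / ‖hd γ (eta γ p)‖) :
    Tendsto (fun m : ℕ => (∫⁻ p, ENNReal.ofReal (af L m p * (1 - qq γ p))) / (m : ℝ≥0∞))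
      atTop (𝓝 0) := by
  obtain ⟨-, -, -, hQ01, hQc, hQlim⟩ := h2 γ hγ
  have hQ0 : ∀ z : ℂ, ‖z‖ < 1 → 0 ≤ QQ γ z := fun z hz => (hQ01 z hz).1
  -- the inner function
  set H : ℕ → ℝ → ℝ≥0∞ := fun m θ => (∫⁻ r in Ioo (0 : ℝ) 1, ENNReal.ofReal (r * ((m : ℝ) ^ 2 *
      ‖(r : ℂ) * Complex.exp (θ * Complex.I)‖ ^ (2 * (m - 1)) *
        (1 - QQ γ ((r : ℂ) * Complex.exp (θ * Complex.I)))))) / (m : ℝ≥0∞) with hH
  have hFc : ∀ m : ℕ, ContinuousOn (fun z : ℂ => (m : ℝ) ^ 2 * ‖z‖ ^ (2 * (m - 1)) *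
      (1 - QQ γ z)) (Metric.ball 0 1) := by
    intro m
    exact (by fun_prop : Continuous fun z : ℂ => (m : ℝ) ^ 2 * ‖z‖ ^ (2 * (m - 1))).continuousOn.mul
      (continuousOn_const.sub hQc)
  -- measurability of the inner function
  have hmeas : ∀ m, Measurable (H m) := by
    intro m
    classical
    set f : ℂ → ℝ≥0∞ := (Metric.ball (0 : ℂ) 1).indicator fun z => ENNReal.ofReal
      ((m : ℝ) ^ 2 * ‖z‖ ^ (2 * (m - 1)) * (1 - QQ γ z)) with hf
    have hfm : Measurable f := by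
      rw [hf, ← piecewise_eq_indicator]
      exact ContinuousOn.measurable_piecewise (ENNReal.continuous_ofReal.comp_continuousOn (hFc m))
        continuousOn_const measurableSet_ball
    have e : H m = fun θ : ℝ => (∫⁻ r in Ioo (0 : ℝ) 1, ENNReal.ofReal r *
        f ((r : ℂ) * Complex.exp (θ * Complex.I))) / (m : ℝ≥0∞) := by
      funext θ
      simp only [hH]
      congr 1
      refine setLIntegral_congr_fun measurableSet_Ioo fun r hr => ?_
      rw [hf, indicator_of_mem (by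
        rw [Metric.mem_ball, dist_zero_right, H5_normexp r θ hr.1.le]; exact hr.2),
        ← ENNReal.ofReal_mul hr.1.le]
    rw [e]
    refine Measurable.div_const ?_ _
    have hj : Measurable fun q : ℝ × ℝ => ENNReal.ofReal q.2 *
        f ((q.2 : ℂ) * Complex.exp (q.1 * Complex.I)) := by
      refine (ENNReal.measurable_ofReal.comp measurable_snd).mul (hfm.comp ?_)
      fun_prop
    exact hj.lintegral_prod_right'
  -- the integral in polar coordinates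
  have hint : ∀ m : ℕ, (∫⁻ p, ENNReal.ofReal (af L m p * (1 - qq γ p))) / (m : ℝ≥0∞) =
      ∫⁻ θ in Ioo (-Real.pi) Real.pi, H m θ := by
    intro m
    have e1 : ∫⁻ p, ENNReal.ofReal (af L m p * (1 - qq γ p)) =
        ∫⁻ z in Metric.ball (0 : ℂ) 1,
          ENNReal.ofReal ((m : ℝ) ^ 2 * ‖z‖ ^ (2 * (m - 1)) * (1 - QQ γ z)) := by
      rw [int h1 h3 h4 h5 hγ L hW he hd' m (fun p => 1 - qq γ p)]
      refine setLIntegral_congr_fun measurableSet_ball fun z hz => ?_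
      rw [Metric.mem_ball, dist_zero_right] at hz
      unfold qq
      rw [(h5 γ hγ).2.2.1 z hz]
    rw [e1, H5_polar _ (hFc m)]
    simp only [hH, div_eq_mul_inv]
    rw [← lintegral_mul_const _ ?_]
    have := (hmeas m)
    simp only [hH] at this
    by_cases hm : m = 0
    · subst hm
      simp
    · have h4 : (fun θ : ℝ => ∫⁻ r in Ioo (0 : ℝ) 1, ENNReal.ofReal (r * ((m : ℝ) ^ 2 *
          ‖(r : ℂ) * Complex.exp (θ * Complex.I)‖ ^ (2 * (m - 1)) *
          (1 - QQ γ ((r : ℂ) * Complex.exp (θ * Complex.I)))))) = fun θ : ℝ =>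
          ((∫⁻ r in Ioo (0 : ℝ) 1, ENNReal.ofReal (r * ((m : ℝ) ^ 2 *
          ‖(r : ℂ) * Complex.exp (θ * Complex.I)‖ ^ (2 * (m - 1)) *
          (1 - QQ γ ((r : ℂ) * Complex.exp (θ * Complex.I)))))) / (m : ℝ≥0∞)) * (m : ℝ≥0∞) := by
        funext θ
        rw [ENNReal.div_mul_cancel (by exact_mod_cast hm) (ENNReal.natCast_ne_top m)]
      rw [h4]
      exact this.mul_const _
  simp only [hint]
  have hbound : ∀ m θ, H m θ ≤ 1 := by
    intro m θ
    simp only [hH]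
    by_cases hm : m = 0
    · subst hm; simp
    · have hm1 : 1 ≤ m := Nat.one_le_iff_ne_zero.2 hm
      have h4 := inner_le hQ0 m hm1 θ 0 1 le_rfl zero_le_one (fun r hr0 hr1 => by
        have : 0 ≤ QQ γ ((r : ℂ) * Complex.exp (θ * Complex.I)) := hQ0 _ (by
          rw [H5_normexp r θ hr0]; exact hr1)
        linarith)
      rw [zero_pow (by omega), add_zero, mul_one] at h4
      refine ENNReal.div_le_of_le_mul (h4.trans ?_)
      rw [one_mul, ← ENNReal.ofReal_natCast]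
      exact ENNReal.ofReal_le_ofReal (by
        have : (0 : ℝ) ≤ m := Nat.cast_nonneg m
        linarith)
  have h0 : (0 : ℝ≥0∞) = ∫⁻ θ in Ioo (-Real.pi) Real.pi, (fun _ : ℝ => (0 : ℝ≥0∞)) θ := by simp
  rw [h0]
  refine tendsto_lintegral_of_dominated_convergence (fun _ => 1) hmeas
    (fun m => Eventually.of_forall fun θ => hbound m θ) ?_ ?_
  · rw [lintegral_const, one_mul, Measure.restrict_apply_univ, H5_vol]
    exact ENNReal.ofReal_ne_top
  · -- pointwise limit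
    have hae : ∀ᵐ θ : ℝ ∂(volume.restrict (Ioo (-Real.pi) Real.pi)), Real.sin θ ≠ 0 := by
      have hcount : ({θ : ℝ | Real.sin θ = 0}).Countable := by
        have : {θ : ℝ | Real.sin θ = 0} ⊆ Set.range fun n : ℤ => (n : ℝ) * Real.pi := by
          intro θ hθ
          obtain ⟨n, hn⟩ := Real.sin_eq_zero_iff.1 hθ
          exact ⟨n, hn⟩
        exact (countable_range _).mono this
      refine ae_restrict_of_ae ?_
      rw [ae_iff]
      simpa using hcount.measure_zero volume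
    filter_upwards [hae] with θ hθ
    rw [ENNReal.tendsto_nhds_zero]
    intro ε hε
    -- choose a real number below ε
    obtain ⟨δ, hδ0, hδ⟩ : ∃ δ : ℝ, 0 < δ ∧ ENNReal.ofReal δ ≤ ε := by
      rcases eq_or_ne ε ⊤ with h | h
      · exact ⟨1, one_pos, by rw [h]; exact le_top⟩
      · refine ⟨ε.toReal, ENNReal.toReal_pos hε.ne' h, ?_⟩
        rw [ENNReal.ofReal_toReal h]
    have hlim := hQlim θ hθ
    have hev : ∀ᶠ r : ℝ in 𝓝[<] 1, 1 - δ <
        QQ γ ((r : ℂ) * Complex.exp (θ * Complex.I)) :=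
      (tendsto_order.1 hlim).1 (1 - δ) (by linarith)
    obtain ⟨a, ha1, hball⟩ := (mem_nhdsLT_iff_exists_Ioo_subset' (zero_lt_one' ℝ)).1 hev
    set t : ℝ := max 0 ((a + 1) / 2) with ht
    have ha1' : a < 1 := ha1
    have ht0 : 0 ≤ t := le_max_left _ _
    have ht1 : t < 1 := by
      rw [ht]; exact max_lt one_pos (by linarith)
    have hta : a < t := lt_of_lt_of_le (by linarith) (le_max_right 0 ((a + 1) / 2))
    have hpow : Tendsto (fun m : ℕ => t ^ (2 * m)) atTop (𝓝 0) := by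
      have h5 : Tendsto (fun m : ℕ => (t ^ 2) ^ m) atTop (𝓝 0) :=
        tendsto_pow_atTop_nhds_zero_of_lt_one (by positivity) (by nlinarith)
      simpa only [pow_mul] using h5
    have hev2 : ∀ᶠ m : ℕ in atTop, t ^ (2 * m) < δ := (tendsto_order.1 hpow).2 δ hδ0
    filter_upwards [hev2, eventually_ge_atTop 1] with m hm hm1
    have h6 := inner_le hQ0 m hm1 θ t δ ht0 hδ0.le (fun r hr0 hr1 => by
      have h7 : r ∈ Ioo a 1 := ⟨lt_of_lt_of_le hta hr0, hr1⟩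
      have h8 := hball h7
      have h9 : 1 - δ < QQ γ ((r : ℂ) * Complex.exp (θ * Complex.I)) := h8
      linarith)
    simp only [hH]
    refine ENNReal.div_le_of_le_mul (h6.trans ?_)
    calc ENNReal.ofReal ((m : ℝ) / 2 * (δ + t ^ (2 * m))) ≤ ENNReal.ofReal (δ * m) := by
          refine ENNReal.ofReal_le_ofReal ?_
          have hm0 : (0 : ℝ) ≤ m := Nat.cast_nonneg m
          have : (m : ℝ) / 2 * (δ + t ^ (2 * m)) ≤ (m : ℝ) / 2 * (δ + δ) :=
            mul_le_mul_of_nonneg_left (by linarith) (by linarith)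
          linarith
      _ = ENNReal.ofReal δ * (m : ℝ≥0∞) := by
          rw [ENNReal.ofReal_mul hδ0.le, ENNReal.ofReal_natCast]
      _ ≤ ε * (m : ℝ≥0∞) := mul_le_mul_left hδ _

end S7aux

/-- **FM/S7** -/
theorem S7 (h1 : S_S1) (h2 : S_S2) (h3 : S_S3) (h4 : S_S4) (h5 : S_S5) : S_S7 :=
  fun _ hγ L hW he hd' =>
    ⟨fun m hm => S7aux.one h1 h3 h4 h5 hγ L hW he hd' m hm,
      S7aux.two h1 h2 h3 h4 h5 hγ L hW he hd'⟩

end Pool.Agent.N294.FM
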