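import Pool.Agent.N294.FM.Stm

/-!
# The interface between the one-variable analysis and the real side
-/

set_option autoImplicit false

noncomputable section

open MeasureTheory Filter Topology
open scoped BigOperators Matrix ENNReal

namespace Pool.Agent.N294.FM

open H712MA

namespace S8aux

variable {γ : ℝ}

lemma meas_comp (h5 : S_S5) (hγ : 0 < γ) {E : Type} [TopologicalSpace E] [MeasurableSpace E]
    [BorelSpace E] (f : ℂ → E) (hf : ContinuousOn f (Metric.ball 0 1)) :
    Measurable fun p => f (eta γ p) := by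
  classical
  obtain ⟨hWo, hin, -, hout, -, hem, -, -⟩ := h5 γ hγ
  have h0 : Measurable ((Metric.ball (0:ℂ) 1).piecewise f (fun _ => f 1)) :=
    ContinuousOn.measurable_piecewise hf continuousOn_const Metric.isOpen_ball.measurableSet
  have : (fun p => f (eta γ p)) =
      (WW γ).piecewise (fun p => ((Metric.ball (0:ℂ) 1).piecewise f (fun _ => f 1)) (eta γ p))
        (fun _ => f 1) := by
    funext p
    by_cases hp : p ∈ WW γ
    · rw [Set.piecewise_eq_of_mem _ _ _ hp]
      rw [Set.piecewise_eq_of_mem]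
      simpa using (hin p hp).1
    · rw [Set.piecewise_eq_of_notMem _ _ _ hp, hout p hp]
  rw [this]
  exact Measurable.piecewise hWo.measurableSet (h0.comp hem) measurable_const

end S8aux

open S8aux in
theorem S8 (h1 : S_S1) (h2 : S_S2) (h5 : S_S5) (h6 : S_S6) (h7 : S_S7) : S_S8 := by
  intro lam hl0 hl1
  set γ : ℝ := Real.log ((1 + lam) / (1 - lam)) / Real.pi with hγd
  have hpi := Real.pi_pos
  have h1l : 0 < 1 - lam := by linarith
  have hγ : 0 < γ := by
    rw [hγd]
    refine div_pos (Real.log_pos ?_) hpi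
    rw [lt_div_iff₀ h1l]
    linarith
  have hE : Real.exp (Real.pi * γ) = (1 + lam) / (1 - lam) := by
    rw [hγd, mul_div_cancel₀ _ hpi.ne', Real.exp_log (by positivity)]
  obtain ⟨hder, hodd, -, -, -, -, -, hdd, -⟩ := h1 γ hγ
  obtain ⟨-, hU, hU1, hQ, hQc, -⟩ := h2 γ hγ
  obtain ⟨hWo, hin, -, hout, heder, hem, hec, L, hLW, hLe, hLm, hLd⟩ := h5 γ hγ
  obtain ⟨s1, s2, s3, s4⟩ := h6 γ hγ L hLW hLe hLd
  obtain ⟨i1, i2⟩ := h7 γ hγ L hLW hLe hLd
  have hggc : ContinuousOn (gg γ) (Metric.ball 0 1) := by
    unfold gg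
    exact continuousOn_id.mul hdd.continuousOn
  have hUle : ∀ z : ℂ, ‖z‖ < 1 → (hh γ z).re ≤ lam := by
    intro z hz
    have h := hU z hz
    rw [hE] at h
    have e1 : (1 + lam) / (1 - lam) + 1 = 2 / (1 - lam) := by field_simp; ring
    have e2 : (1 + lam) / (1 - lam) - 1 = 2 * lam / (1 - lam) := by field_simp; ring
    rw [e1, e2, mul_div_assoc', div_le_div_iff_of_pos_right h1l] at h
    linarith
  have hre : ∀ p ∈ L.W, |p.re| ≤ lam := by
    intro p hp
    rw [hLW] at hp
    obtain ⟨hlt, heq⟩ := hin p hp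
    have a1 := hUle _ hlt
    have a2 := hUle (-(eta γ p)) (by rwa [norm_neg])
    rw [hodd, Complex.neg_re] at a2
    rw [heq] at a1 a2
    rw [abs_le]
    constructor <;> linarith
  refine ⟨{
    L := L
    v := vv γ
    q := qq γ
    γ_pos := hγ
    lam_lt := hl1
    meas_e := hLm
    meas_v := ?_
    meas_q := ?_
    v_cont := ?_
    cont := ?_
    re_le := hre
    q_nonneg := ?_
    q_le := ?_
    v_pos := ?_
    v_neg := ?_
    af_pos := s1
    v_mono := s2
    slice := s3
    der := s4
    int_a := i1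
    lim := i2 }⟩
  · exact Complex.measurable_im.comp (meas_comp h5 hγ (gg γ) hggc)
  · exact meas_comp h5 hγ (QQ γ) hQc
  · rw [hLW]
    have hc : ContinuousOn (eta γ) (WW γ) := fun p hp => (heder p hp).continuousAt.continuousWithinAt
    refine Complex.continuous_im.comp_continuousOn (hggc.comp hc fun p hp => ?_)
    simpa using (hin p hp).1
  · simp only [hLe]
    exact hec
  · intro p hp
    rw [hLW] at hp
    exact (hQ _ (hin p hp).1).1
  · intro p hp
    rw [hLW] at hp
    exact (hQ _ (hin p hp).1).2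
  · intro p hp hv
    have hpr := abs_le.1 (hre p hp)
    rw [hLW] at hp
    have heq := (hin p hp).2
    have b1 : 0 < γ * (1 - p.re) := mul_pos hγ (by linarith)
    have b2 : 0 < γ * (1 + p.re) := mul_pos hγ (by linarith)
    have e : qq γ p = vv γ p / (γ * (1 - p.re)) := by
      unfold qq QQ
      rw [heq]
      change max (vv γ p / _) (-vv γ p / _) = _
      refine max_eq_left ?_
      exact (div_nonpos_of_nonpos_of_nonneg (by linarith) b2.le).trans (div_nonneg hv.le b1.le)
    rw [e, mul_div_cancel₀ _ b1.ne']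
  · intro p hp hv
    have hpr := abs_le.1 (hre p hp)
    rw [hLW] at hp
    have heq := (hin p hp).2
    have b1 : 0 < γ * (1 - p.re) := mul_pos hγ (by linarith)
    have b2 : 0 < γ * (1 + p.re) := mul_pos hγ (by linarith)
    have e : qq γ p = -vv γ p / (γ * (1 + p.re)) := by
      unfold qq QQ
      rw [heq]
      change max (vv γ p / _) (-vv γ p / _) = _
      refine max_eq_right ?_
      exact (div_nonpos_of_nonpos_of_nonneg hv.le b1.le).trans (div_nonneg (by linarith) b2.le)
    rw [e, mul_div_cancel₀ _ b2.ne']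

end Pool.Agent.N294.FM
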