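import Pool.Agent.H712R2.MA.Stm
import Pool.Agent.H712R2.MA.H3
import Pool.Agent.H712R2.MA.G

/-!
# The sharp Mahler inequality for Funk balls: definitions and statements of all leaves

**Theorem.**  For every centrally symmetric convex body `K ⊂ ℝⁿ` and `0 < λ < 1`,
`∫_{λK} |(K - x)°| dx ≥ (2 log ((1+λ)/(1-λ)))ⁿ / n!`, with equality for the cube.

The proof follows the library proof `H712MA` of the symmetric Mahler conjecture with a twisted lens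
map `h` (parameter `γ > 0`, `π γ = log ((1+λ)/(1-λ))`).  The complex side (`H712MA.S_C6`) is used
unchanged.  Leaf `X` proves `theorem X : S_X` (or `theorem X (h : S_Y) ... : S_X`) in
`Pool/Agent/N294/FM/X.lean`.
-/

set_option autoImplicit false

noncomputable section

open MeasureTheory Filter Topology
open scoped BigOperators Matrix ENNReal

namespace Pool.Agent.N294.FM

open H712MA

/-! ### the twisted lens map -/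

/-- `h(z) = (4γ/π) Σ_j z^(2j+1) / ((2j+1)(2j+1+iγ))` -/
def hh (γ : ℝ) (z : ℂ) : ℂ :=
  ((4 * γ / Real.pi : ℝ) : ℂ) * ∑' j : ℕ, z ^ (2 * j + 1) /
    (((2 * j + 1 : ℕ) : ℂ) * (((2 * j + 1 : ℕ) : ℂ) + (γ : ℂ) * Complex.I))

/-- its derivative `h'(z) = (4γ/π) Σ_j z^(2j) / (2j+1+iγ)` -/
def hd (γ : ℝ) (z : ℂ) : ℂ :=
  ((4 * γ / Real.pi : ℝ) : ℂ) * ∑' j : ℕ, z ^ (2 * j) /
    (((2 * j + 1 : ℕ) : ℂ) + (γ : ℂ) * Complex.I)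

/-- `z h'(z)` -/
def gg (γ : ℝ) (z : ℂ) : ℂ := z * hd γ z

/-- `(1 - z²) h'(z)` as a power series which converges absolutely in the closed disc -/
def GG (γ : ℝ) (z : ℂ) : ℂ :=
  ((4 * γ / Real.pi : ℝ) : ℂ) * (1 / (1 + (γ : ℂ) * Complex.I) - 2 * ∑' j : ℕ, z ^ (2 * j + 2) /
    ((((2 * j + 1 : ℕ) : ℂ) + (γ : ℂ) * Complex.I) * (((2 * j + 3 : ℕ) : ℂ) + (γ : ℂ) * Complex.I)))

/-- the lens -/
def WW (γ : ℝ) : Set ℂ := hh γ '' Metric.ball (0 : ℂ) 1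

open Classical in
/-- inverse of `hh γ` (value `1` off the lens) -/
def eta (γ : ℝ) (p : ℂ) : ℂ :=
  if hp : ∃ z, z ∈ Metric.ball (0 : ℂ) 1 ∧ hh γ z = p then Classical.choose hp else 1

/-- `v(p) = Im (ζ h'(ζ))`, `ζ = η(p)` -/
def vv (γ : ℝ) (p : ℂ) : ℝ := (gg γ (eta γ p)).im

/-- `Q(z) = max (v / (γ (1 - U))) (- v / (γ (1 + U)))`, `v = Im (z h'(z))`, `U = Re h(z)` -/
def QQ (γ : ℝ) (z : ℂ) : ℝ :=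
  max ((gg γ z).im / (γ * (1 - (hh γ z).re))) (-(gg γ z).im / (γ * (1 + (hh γ z).re)))

/-- the function `q = Q ∘ η` -/
def qq (γ : ℝ) (p : ℂ) : ℝ := QQ γ (eta γ p)

/-! ### one variable -/

/-- S1: the power series -/
def S_S1 : Prop := ∀ γ : ℝ, 0 < γ →
  (∀ z : ℂ, ‖z‖ < 1 → HasDerivAt (hh γ) (hd γ z) z) ∧
  (∀ z : ℂ, hh γ (-z) = -hh γ z) ∧
  ContinuousOn (hh γ) (Metric.closedBall 0 1) ∧
  (∃ C : ℝ, 0 ≤ C ∧ ∀ z : ℂ, ‖z‖ ≤ 1 → ‖hh γ z‖ ≤ C * ‖z‖) ∧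
  hd γ 0 = ((4 * γ / Real.pi : ℝ) : ℂ) / (1 + (γ : ℂ) * Complex.I) ∧
  (∀ z : ℂ, ‖z‖ < 1 → GG γ z = (1 - z ^ 2) * hd γ z) ∧
  ContinuousOn (GG γ) (Metric.closedBall 0 1) ∧
  DifferentiableOn ℂ (hd γ) (Metric.ball 0 1) ∧
  (∀ z : ℂ, ‖z‖ < 1 → gg γ z + (γ : ℂ) * Complex.I * hh γ z =
    ((2 * γ / Real.pi : ℝ) : ℂ) * Complex.log (cay z))

/-- S2: the closed form of `v`, the range of `U`, the limit of `Q` at the circle -/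
def S_S2 : Prop := ∀ γ : ℝ, 0 < γ →
  (∀ z : ℂ, ‖z‖ < 1 → (gg γ z).im = γ * (2 / Real.pi * (cay z).arg - (hh γ z).re)) ∧
  (∀ z : ℂ, ‖z‖ < 1 → (hh γ z).re * (Real.exp (Real.pi * γ) + 1) ≤ Real.exp (Real.pi * γ) - 1) ∧
  (∀ z : ℂ, ‖z‖ < 1 → |(hh γ z).re| < 1) ∧
  (∀ z : ℂ, ‖z‖ < 1 → 0 ≤ QQ γ z ∧ QQ γ z ≤ 1) ∧
  ContinuousOn (QQ γ) (Metric.ball 0 1) ∧
  (∀ θ : ℝ, Real.sin θ ≠ 0 →
    Tendsto (fun r : ℝ => QQ γ ((r : ℂ) * Complex.exp (θ * Complex.I))) (𝓝[<] 1) (𝓝 1))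

/-- S3: the key positivity `Re ((1 - z²) h'(z)) > 0` and the lower bound for `|h'|` -/
def S_S3 : Prop := ∀ γ : ℝ, 0 < γ →
  (∀ z : ℂ, ‖z‖ < 1 → 0 < (GG γ z).re) ∧
  (∃ c : ℝ, 0 < c ∧ ∀ z : ℂ, ‖z‖ < 1 → c ≤ ‖hd γ z‖)

/-- S4: monotonicity of `h` in the strip coordinate `log ((1+z)/(1-z))`, and all the vertical lines
which meet the lens are crossed by all the horizontal lines of the strip -/
def S_S4 : Prop := ∀ γ : ℝ, 0 < γ →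
  (∀ z w : ℂ, ‖z‖ < 1 → ‖w‖ < 1 → z ≠ w →
    0 < ((hh γ z - hh γ w) *
      starRingEnd ℂ (Complex.log (cay z) - Complex.log (cay w))).re) ∧
  (∀ z : ℂ, ‖z‖ < 1 → ∀ b : ℝ, |b| < Real.pi / 2 →
    ∃ w : ℂ, ‖w‖ < 1 ∧ (cay w).arg = b ∧ (hh γ w).re = (hh γ z).re)

/-- S5: the inverse `η` and the lens -/
def S_S5 : Prop := ∀ γ : ℝ, 0 < γ →
  IsOpen (WW γ) ∧
  (∀ p ∈ WW γ, ‖eta γ p‖ < 1 ∧ hh γ (eta γ p) = p) ∧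
  (∀ z : ℂ, ‖z‖ < 1 → eta γ (hh γ z) = z) ∧
  (∀ p, p ∉ WW γ → eta γ p = 1) ∧
  (∀ p ∈ WW γ, HasDerivAt (eta γ) (1 / hd γ (eta γ p)) p) ∧
  Measurable (eta γ) ∧ Continuous (fun p => ‖eta γ p‖) ∧
  ∃ L : Lens, L.W = WW γ ∧ (∀ p, ‖L.e p‖ = ‖eta γ p‖) ∧ Measurable L.e ∧
    (∀ p ∈ WW γ, ‖deriv L.e p‖ = 1 / ‖hd γ (eta γ p)‖)

/-! ### the interface -/

/-- everything the real side needs -/
structure FL (γ lam : ℝ) where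
  L : Lens
  v : ℂ → ℝ
  q : ℂ → ℝ
  γ_pos : 0 < γ
  lam_lt : lam < 1
  meas_e : Measurable L.e
  meas_v : Measurable v
  meas_q : Measurable q
  v_cont : ContinuousOn v L.W
  cont : Continuous fun p => ‖L.e p‖
  re_le : ∀ p ∈ L.W, |p.re| ≤ lam
  q_nonneg : ∀ p ∈ L.W, 0 ≤ q p
  q_le : ∀ p ∈ L.W, q p ≤ 1
  v_pos : ∀ p ∈ L.W, 0 < v p → v p = γ * (1 - p.re) * q p
  v_neg : ∀ p ∈ L.W, v p < 0 → -v p = γ * (1 + p.re) * q p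
  af_pos : ∀ m : ℕ, 1 ≤ m → ∀ p ∈ L.W, v p ≠ 0 → 0 < af L m p
  v_mono : ∀ x y y' : ℝ, (⟨x, y⟩ : ℂ) ∈ L.W → (⟨x, y'⟩ : ℂ) ∈ L.W → y < y' →
    v ⟨x, y⟩ < v ⟨x, y'⟩
  slice : ∀ x y t y' : ℝ, (⟨x, y⟩ : ℂ) ∈ L.W → (⟨x, y'⟩ : ℂ) ∈ L.W → y ≤ t → t ≤ y' →
    (⟨x, t⟩ : ℂ) ∈ L.W
  der : ∀ m : ℕ, 1 ≤ m → ∀ x y : ℝ, (⟨x, y⟩ : ℂ) ∈ L.W →
    HasDerivAt (fun t : ℝ => ‖gf L m ⟨x, t⟩‖ ^ 2) (2 / m * af L m ⟨x, y⟩ * v ⟨x, y⟩) y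
  int_a : ∀ m : ℕ, 1 ≤ m → ∫⁻ p, ENNReal.ofReal (af L m p) = ENNReal.ofReal (m * Real.pi)
  lim : Tendsto (fun m : ℕ => (∫⁻ p, ENNReal.ofReal (af L m p * (1 - q p))) / (m : ℝ≥0∞))
    atTop (𝓝 0)

/-- S6: slices of the lens (all the fields of `FL` which concern the vertical direction) -/
def S_S6 : Prop := ∀ γ : ℝ, 0 < γ → ∀ L : Lens, L.W = WW γ → (∀ p, ‖L.e p‖ = ‖eta γ p‖) →
  (∀ p ∈ WW γ, ‖deriv L.e p‖ = 1 / ‖hd γ (eta γ p)‖) →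
  (∀ m : ℕ, 1 ≤ m → ∀ p ∈ L.W, vv γ p ≠ 0 → 0 < af L m p) ∧
  (∀ x y y' : ℝ, (⟨x, y⟩ : ℂ) ∈ L.W → (⟨x, y'⟩ : ℂ) ∈ L.W → y < y' →
    vv γ ⟨x, y⟩ < vv γ ⟨x, y'⟩) ∧
  (∀ x y t y' : ℝ, (⟨x, y⟩ : ℂ) ∈ L.W → (⟨x, y'⟩ : ℂ) ∈ L.W → y ≤ t → t ≤ y' →
    (⟨x, t⟩ : ℂ) ∈ L.W) ∧
  (∀ m : ℕ, 1 ≤ m → ∀ x y : ℝ, (⟨x, y⟩ : ℂ) ∈ L.W →
    HasDerivAt (fun t : ℝ => ‖gf L m ⟨x, t⟩‖ ^ 2) (2 / m * af L m ⟨x, y⟩ * vv γ ⟨x, y⟩) y)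

/-- S7: integrals of `a` and concentration at the boundary (as `H712MA.S_H5`) -/
def S_S7 : Prop := ∀ γ : ℝ, 0 < γ → ∀ L : Lens, L.W = WW γ → (∀ p, ‖L.e p‖ = ‖eta γ p‖) →
  (∀ p ∈ WW γ, ‖deriv L.e p‖ = 1 / ‖hd γ (eta γ p)‖) →
  (∀ m : ℕ, 1 ≤ m → ∫⁻ p, ENNReal.ofReal (af L m p) = ENNReal.ofReal (m * Real.pi)) ∧
  Tendsto (fun m : ℕ => (∫⁻ p, ENNReal.ofReal (af L m p * (1 - qq γ p))) / (m : ℝ≥0∞))
    atTop (𝓝 0)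

/-- S8: the interface exists for every `0 < λ < 1`, with `π γ = log ((1+λ)/(1-λ))` -/
def S_S8 : Prop := ∀ lam : ℝ, 0 < lam → lam < 1 →
  Nonempty (FL (Real.log ((1 + lam) / (1 - lam)) / Real.pi) lam)

/-! ### real side -/

/-- the scaled polytope `{x : |l_k(x)| ≤ λ}` -/
def BdL {κ : Type} {n : ℕ} (lam : ℝ) (l : κ → Fin n → ℝ) : Set (Fin n → ℝ) :=
  {x | ∀ k, |l k ⬝ᵥ x| ≤ lam}

/-- the polar of the polytope `{z : |l_k(z)| ≤ 1}` with respect to the point `x` -/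
def PolT {κ : Type} {n : ℕ} (l : κ → Fin n → ℝ) (x : Fin n → ℝ) : Set (Fin n → ℝ) :=
  {y | ∀ z, (∀ k, |l k ⬝ᵥ z| ≤ 1) → (z - x) ⬝ᵥ y ≤ 1}

/-- R1: for fixed `x` -/
def S_T1 : Prop :=
  ∀ (γ lam : ℝ) (D : FL γ lam) (κ : Type) [Fintype κ] (n : ℕ) (m : ℕ), 1 ≤ m →
    ∀ (l : κ → Fin n → ℝ), Spans l → ∀ x : Fin n → ℝ,
    ∫⁻ u in {u : Fin n → ℝ | VV D.L m l (x, u) < 1},
        ENNReal.ofReal (DS l (fun k => 2 * γ / m * (D.q (pk (l k) (x, u)) *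
          af D.L m (pk (l k) (x, u))))) ≤
      (n.factorial : ℝ≥0∞) * volume (PolT l x)

/-- R2: integrated over `x` -/
def S_T2 : Prop :=
  ∀ (γ lam : ℝ) (D : FL γ lam) (κ : Type) [Fintype κ] (n : ℕ) (m : ℕ), 1 ≤ m →
    ∀ (l : κ → Fin n → ℝ), Spans l →
    ∫⁻ z in {z : E2 n | VV D.L m l z < 1},
        ENNReal.ofReal (DS l (fun k => 2 * γ / m * (D.q (pk (l k) z) * af D.L m (pk (l k) z)))) ≤
      (n.factorial : ℝ≥0∞) * ∫⁻ x in BdL lam l, volume (PolT l x)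

/-- E: the error term -/
def S_T3 : Prop :=
  ∀ (γ lam : ℝ) (D : FL γ lam) (κ : Type) [Fintype κ] (r : ℕ) (m : ℕ), 1 ≤ m →
    ∀ (l : κ → Fin (r + 1) → ℝ),
    ∫⁻ z in {z : E2 (r + 1) | VV D.L m l z < 1},
        ENNReal.ofReal (DS l (fun k => af D.L m (pk (l k) z))) ≤
      (∫⁻ z in {z : E2 (r + 1) | VV D.L m l z < 1},
        ENNReal.ofReal (DS l (fun k => D.q (pk (l k) z) * af D.L m (pk (l k) z)))) +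
      ((Fintype.card κ : ℝ≥0∞) ^ (r + 1) * ((r + 1 : ℕ) : ℝ≥0∞)) *
        (ENNReal.ofReal (m * Real.pi) ^ r *
          ∫⁻ p, ENNReal.ofReal (af D.L m p * (1 - D.q p)))

/-- Z: the polytope case -/
def S_T4 : Prop :=
  ∀ (γ lam : ℝ), FL γ lam → ∀ (κ : Type) [Fintype κ] (n : ℕ) (l : κ → Fin n → ℝ), Spans l →
    ENNReal.ofReal ((2 * Real.pi * γ) ^ n / n.factorial) ≤ ∫⁻ x in BdL lam l, volume (PolT l x)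

/-- the polar of `K` with respect to the point `x`, in coordinates -/
def plrT {n : ℕ} (K : Set (Fin n → ℝ)) (x : Fin n → ℝ) : Set (Fin n → ℝ) :=
  {y | ∀ z ∈ K, (z - x) ⬝ᵥ y ≤ 1}

open scoped Pointwise in
/-- G: general symmetric convex bodies -/
def S_T5 : Prop :=
  ∀ (n : ℕ) (K : Set (Fin n → ℝ)), H712MA.GB.SBody K → ∀ lam : ℝ, 0 < lam → lam < 1 →
    ENNReal.ofReal ((2 * Real.log ((1 + lam) / (1 - lam))) ^ n / n.factorial) ≤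
      ∫⁻ x in lam • K, volume (plrT K x)

end Pool.Agent.N294.FM
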