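import Pool.Agent.N294.FM.Stm

/-!
# Leaf T1: the real side for fixed `x` (adaptation of `Pool/Agent/H712R2/MA/R1.lean`)
-/

set_option autoImplicit false

noncomputable section

open MeasureTheory Filter Topology
open scoped BigOperators Matrix ENNReal

namespace Pool.Agent.N294.FM

open H712MA

namespace T1aux

variable {κ : Type} [Fintype κ] {n : ℕ} {γ lam : ℝ}

lemma spans_inj {κ : Type} {n : ℕ} (l : κ → Fin n → ℝ) (h : Spans l) (v : Fin n → ℝ)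
    (hv : ∀ k, l k ⬝ᵥ v = 0) : v = 0 := by
  obtain ⟨f, hf⟩ := h
  apply Matrix.eq_zero_of_mulVec_eq_zero hf
  funext i
  simp only [Matrix.mulVec, Matrix.of_apply, Pi.zero_apply]
  exact hv (f i)

/-- `N(t) = |g(x + i t)|²` -/
def NN (D : FL γ lam) (m : ℕ) (p : ℂ) : ℝ := ‖gf D.L m p‖ ^ 2

lemma NN_nonneg (D : FL γ lam) (m : ℕ) (p : ℂ) : 0 ≤ NN D m p := by
  unfold NN; positivity

open Classical in
/-- the slice function -/
def FF (D : FL γ lam) (m : ℕ) (x y : ℝ) : ℝ :=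
  if 0 < D.v ⟨x, y⟩ then NN D m ⟨x, y⟩ / (1 - x) else -(NN D m ⟨x, y⟩ / (1 + x))

lemma abs_re_lt (D : FL γ lam) {x y : ℝ} (h : (⟨x, y⟩ : ℂ) ∈ D.L.W) : -1 < x ∧ x < 1 := by
  have h1 := D.re_le _ h
  have h2 := D.lam_lt
  have h3 : |x| < 1 := lt_of_le_of_lt h1 h2
  exact abs_lt.1 h3

lemma e_ne (D : FL γ lam) {p : ℂ} (h : p ∈ D.L.W) (hv : D.v p ≠ 0) : D.L.e p ≠ 0 := by
  intro h0
  have := D.af_pos 2 (by norm_num) p h hv
  unfold af gd at this
  simp [h, h0] at this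

lemma NN_pos (D : FL γ lam) (m : ℕ) {p : ℂ} (h : p ∈ D.L.W) (hv : D.v p ≠ 0) : 0 < NN D m p := by
  unfold NN gf
  have := norm_pos_iff.2 (pow_ne_zero m (e_ne D h hv))
  positivity

lemma FF_lt (D : FL γ lam) (m : ℕ) (hm : 1 ≤ m) (x y y' : ℝ) (hy : (⟨x, y⟩ : ℂ) ∈ D.L.W)
    (hy' : (⟨x, y'⟩ : ℂ) ∈ D.L.W) (hn : D.v ⟨x, y⟩ ≠ 0) (hn' : D.v ⟨x, y'⟩ ≠ 0) (hlt : y < y') :
    FF D m x y < FF D m x y' := by
  obtain ⟨hx1, hx2⟩ := abs_re_lt D hy
  have hm0 : (0 : ℝ) < m := by exact_mod_cast hm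
  have hmono := D.v_mono x y y' hy hy' hlt
  have hW : ∀ t ∈ Set.Icc y y', (⟨x, t⟩ : ℂ) ∈ D.L.W := fun t ht =>
    D.slice x y t y' hy hy' ht.1 ht.2
  have hder : ∀ t ∈ Set.Icc y y', HasDerivAt (fun t : ℝ => NN D m ⟨x, t⟩)
      (2 / m * af D.L m ⟨x, t⟩ * D.v ⟨x, t⟩) t := fun t ht => D.der m hm x t (hW t ht)
  have hcont : ContinuousOn (fun t : ℝ => NN D m ⟨x, t⟩) (Set.Icc y y') := fun t ht =>
    (hder t ht).continuousAt.continuousWithinAt
  have hvle : ∀ t ∈ Set.Icc y y', D.v ⟨x, t⟩ ≤ D.v ⟨x, y'⟩ := by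
    intro t ht
    rcases eq_or_lt_of_le ht.2 with h | h
    · rw [h]
    · exact (D.v_mono x t y' (hW t ht) hy' h).le
  have hvge : ∀ t ∈ Set.Icc y y', D.v ⟨x, y⟩ ≤ D.v ⟨x, t⟩ := by
    intro t ht
    rcases eq_or_lt_of_le ht.1 with h | h
    · rw [h]
    · exact (D.v_mono x y t hy (hW t ht) h).le
  have hym : y ∈ Set.Icc y y' := ⟨le_rfl, hlt.le⟩
  have hym' : y' ∈ Set.Icc y y' := ⟨hlt.le, le_rfl⟩
  unfold FF
  rcases lt_or_gt_of_ne hn' with h2 | h2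
  · -- both negative
    have h1 : D.v ⟨x, y⟩ < 0 := lt_trans hmono h2
    rw [if_neg (not_lt.2 h1.le), if_neg (not_lt.2 h2.le)]
    have hanti : StrictAntiOn (fun t : ℝ => NN D m ⟨x, t⟩) (Set.Icc y y') := by
      refine strictAntiOn_of_deriv_neg (convex_Icc _ _) hcont fun t ht => ?_
      have ht' : t ∈ Set.Icc y y' := interior_subset ht
      rw [(hder t ht').deriv]
      have hv : D.v ⟨x, t⟩ < 0 := lt_of_le_of_lt (hvle t ht') h2
      have ha := D.af_pos m hm _ (hW t ht') hv.ne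
      have : 0 < 2 / (m : ℝ) * af D.L m ⟨x, t⟩ := by positivity
      exact mul_neg_of_pos_of_neg this hv
    have := hanti hym hym' hlt
    have h3 : NN D m ⟨x, y'⟩ / (1 + x) < NN D m ⟨x, y⟩ / (1 + x) :=
      div_lt_div_of_pos_right this (by linarith)
    linarith
  · rcases lt_or_gt_of_ne hn with h1 | h1
    · rw [if_neg (not_lt.2 h1.le), if_pos h2]
      have a1 : 0 < NN D m ⟨x, y⟩ / (1 + x) := div_pos (NN_pos D m hy hn) (by linarith)
      have a2 : 0 < NN D m ⟨x, y'⟩ / (1 - x) := div_pos (NN_pos D m hy' hn') (by linarith)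
      linarith
    · rw [if_pos h1, if_pos h2]
      have hmon : StrictMonoOn (fun t : ℝ => NN D m ⟨x, t⟩) (Set.Icc y y') := by
        refine strictMonoOn_of_deriv_pos (convex_Icc _ _) hcont fun t ht => ?_
        have ht' : t ∈ Set.Icc y y' := interior_subset ht
        rw [(hder t ht').deriv]
        have hv : 0 < D.v ⟨x, t⟩ := lt_of_lt_of_le h1 (hvge t ht')
        have ha := D.af_pos m hm _ (hW t ht') hv.ne'
        positivity
      have := hmon hym hym' hlt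
      exact div_lt_div_of_pos_right this (by linarith)

/-- the map `T` -/
def TT (D : FL γ lam) (m : ℕ) (l : κ → Fin n → ℝ) (x u : Fin n → ℝ) : Fin n → ℝ :=
  ∑ k, (FF D m (l k ⬝ᵥ x) (l k ⬝ᵥ u)) • l k

/-- the good set -/
def GU (D : FL γ lam) (m : ℕ) (l : κ → Fin n → ℝ) (x : Fin n → ℝ) : Set (Fin n → ℝ) :=
  {u | VV D.L m l (x, u) < 1} ∩ ⋂ k, {u | l k ≠ 0 → D.v (pk (l k) (x, u)) ≠ 0}

lemma mem_W_of_VV (D : FL γ lam) (m : ℕ)
    (l : κ → Fin n → ℝ) (z : E2 n) (h : VV D.L m l z < 1) (k : κ) : pk (l k) z ∈ D.L.W := by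
  by_contra hk
  have h1 : ‖gf D.L m (pk (l k) z)‖ ^ 2 = 1 := by
    have h2 := D.L.off (pk (l k) z) hk
    unfold gf
    rw [h2]; simp
  have h3 : ‖gf D.L m (pk (l k) z)‖ ^ 2 ≤ VV D.L m l z := by
    unfold VV
    exact Finset.single_le_sum (f := fun k => ‖gf D.L m (pk (l k) z)‖ ^ 2)
      (fun i _ => by positivity) (Finset.mem_univ k)
  linarith

lemma cont_dot (v : Fin n → ℝ) : Continuous fun u : Fin n → ℝ => v ⬝ᵥ u := by
  unfold dotProduct
  fun_prop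

lemma cont_pk (v x : Fin n → ℝ) : Continuous fun u : Fin n → ℝ => pk v (x, u) := by
  have : (fun u : Fin n → ℝ => pk v (x, u)) =
      fun u => ((v ⬝ᵥ x : ℝ) : ℂ) + ((v ⬝ᵥ u : ℝ) : ℂ) * Complex.I := by
    funext u
    apply Complex.ext <;> simp [pk]
  rw [this]
  have := cont_dot v
  fun_prop

lemma measurable_GU (D : FL γ lam) (m : ℕ)
    (l : κ → Fin n → ℝ) (x : Fin n → ℝ) : MeasurableSet (GU D m l x) := by
  have hc : Continuous (fun p => ‖D.L.e p‖) := D.cont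
  have hV : Continuous (fun u : Fin n → ℝ => VV D.L m l (x, u)) := by
    unfold VV
    refine continuous_finsetSum _ fun k _ => ?_
    have : (fun u : Fin n → ℝ => ‖gf D.L m (pk (l k) (x, u))‖ ^ 2) =
        fun u => ((‖D.L.e (pk (l k) (x, u))‖) ^ m) ^ 2 := by
      funext u; unfold gf; rw [norm_pow]
    rw [this]
    refine Continuous.pow (Continuous.pow ?_ _) _
    exact hc.comp (cont_pk _ _)
  refine MeasurableSet.inter ?_ ?_
  · exact (isOpen_lt hV continuous_const).measurableSet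
  · refine MeasurableSet.iInter fun k => ?_
    by_cases hk : l k = 0
    · have : {u : Fin n → ℝ | l k ≠ 0 → D.v (pk (l k) (x, u)) ≠ 0} = Set.univ := by
        ext u; simp [hk]
      rw [this]; exact MeasurableSet.univ
    · have : {u : Fin n → ℝ | l k ≠ 0 → D.v (pk (l k) (x, u)) ≠ 0} =
          (fun u : Fin n → ℝ => D.v (pk (l k) (x, u))) ⁻¹' {0}ᶜ := by
        ext u; simp [hk]
      rw [this]
      exact (D.meas_v.comp (cont_pk (l k) x).measurable) (measurableSet_singleton 0).compl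

lemma TT_inj (D : FL γ lam) (m : ℕ) (hm : 1 ≤ m)
    (l : κ → Fin n → ℝ) (hl : Spans l) (x : Fin n → ℝ) :
    Set.InjOn (TT D m l x) (GU D m l x) := by
  intro u hu u' hu' h
  have key : ∀ k, 0 ≤ (FF D m (l k ⬝ᵥ x) (l k ⬝ᵥ u) - FF D m (l k ⬝ᵥ x) (l k ⬝ᵥ u')) *
      (l k ⬝ᵥ u - l k ⬝ᵥ u') ∧
      ((FF D m (l k ⬝ᵥ x) (l k ⬝ᵥ u) - FF D m (l k ⬝ᵥ x) (l k ⬝ᵥ u')) *
      (l k ⬝ᵥ u - l k ⬝ᵥ u') = 0 → l k ⬝ᵥ u = l k ⬝ᵥ u') := by
    intro k
    by_cases hk : l k = 0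
    · simp [hk]
    have m1 := mem_W_of_VV D m l (x, u) hu.1 k
    have m2 := mem_W_of_VV D m l (x, u') hu'.1 k
    have n1 : D.v (pk (l k) (x, u)) ≠ 0 := (Set.mem_iInter.mp hu.2 k) hk
    have n2 : D.v (pk (l k) (x, u')) ≠ 0 := (Set.mem_iInter.mp hu'.2 k) hk
    simp only [pk] at m1 m2 n1 n2
    rcases lt_trichotomy (l k ⬝ᵥ u) (l k ⬝ᵥ u') with h1 | h1 | h1
    · have := FF_lt D m hm _ _ _ m1 m2 n1 n2 h1
      have : 0 < (FF D m (l k ⬝ᵥ x) (l k ⬝ᵥ u) - FF D m (l k ⬝ᵥ x) (l k ⬝ᵥ u')) *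
          (l k ⬝ᵥ u - l k ⬝ᵥ u') := mul_pos_of_neg_of_neg (by linarith) (by linarith)
      exact ⟨this.le, fun h => by linarith⟩
    · exact ⟨by rw [h1]; simp, fun _ => h1⟩
    · have := FF_lt D m hm _ _ _ m2 m1 n2 n1 h1
      have : 0 < (FF D m (l k ⬝ᵥ x) (l k ⬝ᵥ u) - FF D m (l k ⬝ᵥ x) (l k ⬝ᵥ u')) *
          (l k ⬝ᵥ u - l k ⬝ᵥ u') := mul_pos (by linarith) (by linarith)
      exact ⟨this.le, fun h => by linarith⟩
  have hsum : ∑ k, (FF D m (l k ⬝ᵥ x) (l k ⬝ᵥ u) - FF D m (l k ⬝ᵥ x) (l k ⬝ᵥ u')) *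
      (l k ⬝ᵥ u - l k ⬝ᵥ u') = 0 := by
    have e1 : (TT D m l x u - TT D m l x u') ⬝ᵥ (u - u') = 0 := by
      rw [h]; simp
    have e2 : (TT D m l x u - TT D m l x u') ⬝ᵥ (u - u') =
        ∑ k, (FF D m (l k ⬝ᵥ x) (l k ⬝ᵥ u) - FF D m (l k ⬝ᵥ x) (l k ⬝ᵥ u')) *
      (l k ⬝ᵥ u - l k ⬝ᵥ u') := by
      unfold TT
      rw [← Finset.sum_sub_distrib, sum_dotProduct]
      refine Finset.sum_congr rfl fun k _ => ?_
      rw [← sub_smul, smul_dotProduct, dotProduct_sub, smul_eq_mul]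
    rwa [e2] at e1
  have hz := (Finset.sum_eq_zero_iff_of_nonneg (fun k _ => (key k).1)).mp hsum
  have : u - u' = 0 := by
    apply spans_inj l hl
    intro k
    rw [dotProduct_sub, (key k).2 (hz k (Finset.mem_univ k)), sub_self]
  exact sub_eq_zero.mp this

lemma TT_mem (D : FL γ lam) (m : ℕ) (l : κ → Fin n → ℝ) (x : Fin n → ℝ) :
    TT D m l x '' (GU D m l x) ⊆ PolT l x := by
  rintro _ ⟨u, hu, rfl⟩
  intro z hz
  have hV := hu.1
  simp only [Set.mem_ofPred_eq, VV] at hV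
  have e : (z - x) ⬝ᵥ (TT D m l x u) =
      ∑ k, FF D m (l k ⬝ᵥ x) (l k ⬝ᵥ u) * (l k ⬝ᵥ z - l k ⬝ᵥ x) := by
    unfold TT
    rw [dotProduct_sum]
    refine Finset.sum_congr rfl fun k _ => ?_
    rw [dotProduct_smul, smul_eq_mul, dotProduct_comm (z - x) (l k), dotProduct_sub]
  rw [e]
  refine le_trans (Finset.sum_le_sum (g := fun k => ‖gf D.L m (pk (l k) (x, u))‖ ^ 2) ?_) hV.le
  intro k _
  have hmem := mem_W_of_VV D m l (x, u) hu.1 k
  simp only [pk] at hmem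
  obtain ⟨hx1, hx2⟩ := abs_re_lt D hmem
  have hz1 := abs_le.1 (hz k)
  have hN : 0 ≤ NN D m ⟨l k ⬝ᵥ x, l k ⬝ᵥ u⟩ := NN_nonneg _ _ _
  change _ ≤ NN D m ⟨l k ⬝ᵥ x, l k ⬝ᵥ u⟩
  unfold FF
  split_ifs with hv
  · have h1 : 0 < 1 - l k ⬝ᵥ x := by linarith
    rw [div_mul_eq_mul_div, div_le_iff₀ h1]
    exact mul_le_mul_of_nonneg_left (by linarith [hz1.2]) hN
  · have h1 : 0 < 1 + l k ⬝ᵥ x := by linarith
    have : -(NN D m ⟨l k ⬝ᵥ x, l k ⬝ᵥ u⟩ / (1 + l k ⬝ᵥ x)) * (l k ⬝ᵥ z - l k ⬝ᵥ x) =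
        NN D m ⟨l k ⬝ᵥ x, l k ⬝ᵥ u⟩ * (l k ⬝ᵥ x - l k ⬝ᵥ z) / (1 + l k ⬝ᵥ x) := by ring
    rw [this, div_le_iff₀ h1]
    exact mul_le_mul_of_nonneg_left (by linarith [hz1.1]) hN

/-- the weights -/
def bb (D : FL γ lam) (m : ℕ) (l : κ → Fin n → ℝ) (x u : Fin n → ℝ) (k : κ) : ℝ :=
  2 * γ / m * (D.q (pk (l k) (x, u)) * af D.L m (pk (l k) (x, u)))

/-- the derivative of `T` -/
def TD (D : FL γ lam) (m : ℕ) (l : κ → Fin n → ℝ) (x u : Fin n → ℝ) :
    (Fin n → ℝ) →L[ℝ] (Fin n → ℝ) :=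
  LinearMap.toContinuousLinearMap
    (Matrix.toLin' (∑ k, bb D m l x u k • Matrix.vecMulVec (l k) (l k)))

lemma bb_nonneg (D : FL γ lam) (m : ℕ) (l : κ → Fin n → ℝ) (x u : Fin n → ℝ)
    (hu : VV D.L m l (x, u) < 1) (k : κ) :
    0 ≤ bb D m l x u k := by
  unfold bb
  have h1 := D.q_nonneg _ (mem_W_of_VV D m l (x, u) hu k)
  have h2 : 0 ≤ af D.L m (pk (l k) (x, u)) := by unfold af; positivity
  have h3 := D.γ_pos
  positivity

/-- the linear functional `u ↦ v ⬝ᵥ u` -/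
def lf (v : Fin n → ℝ) : (Fin n → ℝ) →L[ℝ] ℝ :=
  LinearMap.toContinuousLinearMap (dotProductBilin ℝ ℝ v)

lemma cont_vert (x : ℝ) : Continuous fun t : ℝ => (⟨x, t⟩ : ℂ) := by
  have : (fun t : ℝ => (⟨x, t⟩ : ℂ)) = fun t : ℝ => (x : ℂ) + (t : ℂ) * Complex.I := by
    funext t
    apply Complex.ext <;> simp
  rw [this]
  fun_prop

lemma FF_deriv (D : FL γ lam) (m : ℕ) (hm : 1 ≤ m) (x y : ℝ) (h : (⟨x, y⟩ : ℂ) ∈ D.L.W)
    (hv : D.v ⟨x, y⟩ ≠ 0) :
    HasDerivAt (fun t : ℝ => FF D m x t) (2 * γ / m * (D.q ⟨x, y⟩ * af D.L m ⟨x, y⟩)) y := by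
  have hd := D.der m hm x y h
  obtain ⟨hx1, hx2⟩ := abs_re_lt D h
  have hca : ContinuousAt (fun t : ℝ => D.v ⟨x, t⟩) y :=
    ContinuousAt.comp (f := fun t : ℝ => (⟨x, t⟩ : ℂ)) (g := D.v)
      (D.v_cont.continuousAt (D.L.isOpen.mem_nhds h)) (cont_vert x).continuousAt
  rcases lt_or_gt_of_ne hv with h0 | h0
  · have hd2 : HasDerivAt (fun t : ℝ => -(NN D m ⟨x, t⟩ / (1 + x)))
        (-((2 / m * af D.L m ⟨x, y⟩ * D.v ⟨x, y⟩) / (1 + x))) y := (hd.div_const _).neg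
    have e : -((2 / m * af D.L m ⟨x, y⟩ * D.v ⟨x, y⟩) / (1 + x)) =
        2 * γ / m * (D.q ⟨x, y⟩ * af D.L m ⟨x, y⟩) := by
      have h1 := D.v_neg _ h h0
      have h2 : (1 : ℝ) + x ≠ 0 := by linarith
      have h3 : D.v ⟨x, y⟩ = -(γ * (1 + x) * D.q ⟨x, y⟩) := by
        simp only at h1
        linarith
      rw [h3]
      field_simp
    rw [e] at hd2
    refine hd2.congr_of_eventuallyEq ?_
    filter_upwards [hca.eventually (gt_mem_nhds h0)] with t ht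
    unfold FF
    rw [if_neg (not_lt.2 (le_of_lt ht))]
  · have hd2 : HasDerivAt (fun t : ℝ => NN D m ⟨x, t⟩ / (1 - x))
        ((2 / m * af D.L m ⟨x, y⟩ * D.v ⟨x, y⟩) / (1 - x)) y := hd.div_const _
    have e : (2 / m * af D.L m ⟨x, y⟩ * D.v ⟨x, y⟩) / (1 - x) =
        2 * γ / m * (D.q ⟨x, y⟩ * af D.L m ⟨x, y⟩) := by
      have h1 := D.v_pos _ h h0
      have h2 : (1 : ℝ) - x ≠ 0 := by linarith
      have h3 : D.v ⟨x, y⟩ = γ * (1 - x) * D.q ⟨x, y⟩ := h1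
      rw [h3]
      field_simp
    rw [e] at hd2
    refine hd2.congr_of_eventuallyEq ?_
    filter_upwards [hca.eventually (lt_mem_nhds h0)] with t ht
    unfold FF
    rw [if_pos ht]

lemma term_deriv (D : FL γ lam)
    (m : ℕ) (hm : 1 ≤ m) (l : κ → Fin n → ℝ) (x u : Fin n → ℝ) (hu : u ∈ GU D m l x) (k : κ) :
    HasFDerivAt (fun v : Fin n → ℝ => (FF D m (l k ⬝ᵥ x) (l k ⬝ᵥ v)) • l k)
      (bb D m l x u k • (lf (l k)).smulRight (l k)) u := by
  by_cases hk : l k = 0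
  · have e1 : (fun v : Fin n → ℝ => (FF D m (l k ⬝ᵥ x) (l k ⬝ᵥ v)) • l k) =
        fun _ => (0 : Fin n → ℝ) := by
      funext v; rw [hk, smul_zero]
    have e2 : bb D m l x u k • (lf (l k)).smulRight (l k) = 0 := by
      ext v; simp [hk]
    rw [e1, e2]
    exact hasFDerivAt_const _ _
  have hmem := mem_W_of_VV D m l (x, u) hu.1 k
  have hv : D.v (pk (l k) (x, u)) ≠ 0 := (Set.mem_iInter.mp hu.2 k) hk
  have hd3 := FF_deriv D m hm (l k ⬝ᵥ x) (l k ⬝ᵥ u) hmem hv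
  have hlin : HasFDerivAt (fun v : Fin n → ℝ => l k ⬝ᵥ v) (lf (l k)) u := (lf (l k)).hasFDerivAt
  have hc := hd3.comp_hasFDerivAt u hlin
  have hc2 := hc.smul_const (l k)
  have hfin : bb D m l x u k • (lf (l k)).smulRight (l k) =
      ((2 * γ / m * (D.q ⟨l k ⬝ᵥ x, l k ⬝ᵥ u⟩ * af D.L m ⟨l k ⬝ᵥ x, l k ⬝ᵥ u⟩)) •
        lf (l k)).smulRight (l k) := by
    ext v i
    simp only [ContinuousLinearMap.smulRight_apply, smul_apply, Pi.smul_apply, smul_eq_mul]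
    unfold bb pk
    ring
  rw [hfin]
  exact hc2

lemma TT_deriv (D : FL γ lam)
    (m : ℕ) (hm : 1 ≤ m) (l : κ → Fin n → ℝ) (x u : Fin n → ℝ) (hu : u ∈ GU D m l x) :
    HasFDerivAt (TT D m l x) (TD D m l x u) u := by
  have h := HasFDerivAt.fun_sum (u := (Finset.univ : Finset κ))
    (fun k _ => term_deriv D m hm l x u hu k)
  have e : TD D m l x u = ∑ k, bb D m l x u k • (lf (l k)).smulRight (l k) := by
    ext v i
    simp only [TD, LinearMap.coe_toContinuousLinearMap', Matrix.toLin'_apply,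
      Matrix.sum_mulVec, Matrix.smul_mulVec, Finset.sum_apply, Pi.smul_apply, smul_eq_mul,
      sum_apply, smul_apply,
      ContinuousLinearMap.smulRight_apply]
    refine Finset.sum_congr rfl fun k _ => ?_
    congr 1
    rw [Matrix.vecMulVec_mulVec]
    simp [lf, mul_comm]
  rw [e]
  exact h

lemma TD_det (ha3 : S_A3) (D : FL γ lam) (m : ℕ) (l : κ → Fin n → ℝ) (x u : Fin n → ℝ) :
    (n.factorial : ℝ) * (TD D m l x u).det = DS l (bb D m l x u) := by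
  rw [← ha3]
  congr 1
  unfold TD
  rw [LinearMap.det_toContinuousLinearMap, LinearMap.det_toLin']

lemma DS_nonneg (l : κ → Fin n → ℝ) (a : κ → ℝ) (ha : ∀ k, 0 ≤ a k) : 0 ≤ DS l a := by
  unfold DS
  exact Finset.sum_nonneg fun f _ => mul_nonneg (Finset.prod_nonneg fun i _ => ha _) (sq_nonneg _)

lemma null_hyper (v : Fin n → ℝ) (hv : v ≠ 0) : volume {u : Fin n → ℝ | v ⬝ᵥ u = 0} = 0 := by
  have h := Measure.addHaar_submodule (volume : Measure (Fin n → ℝ)) (LinearMap.ker (lf v).toLinearMap) ?_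
  · convert h using 2
    ext u
    simp [lf]
  · intro htop
    rw [LinearMap.ker_eq_top] at htop
    have : v ⬝ᵥ v = 0 := by
      have := congrArg (fun f => f v) htop
      simpa [lf] using this
    exact hv (dotProduct_self_eq_zero.mp this)

lemma null_hyper' (v : Fin n → ℝ) (hv : v ≠ 0) (u0 : Fin n → ℝ) :
    volume {u : Fin n → ℝ | v ⬝ᵥ u = v ⬝ᵥ u0} = 0 := by
  have h : {u : Fin n → ℝ | v ⬝ᵥ u = v ⬝ᵥ u0} =
      (fun u => -u0 + u) ⁻¹' {u : Fin n → ℝ | v ⬝ᵥ u = 0} := by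
    ext u
    simp only [Set.mem_ofPred_eq, Set.mem_preimage, dotProduct_add, dotProduct_neg]
    constructor
    · intro h; rw [h]; ring
    · intro h; linarith
  rw [h, measure_preimage_add, null_hyper v hv]

lemma null_v (D : FL γ lam) (m : ℕ) (l : κ → Fin n → ℝ) (x : Fin n → ℝ) (k : κ) (hk : l k ≠ 0) :
    volume {u : Fin n → ℝ | VV D.L m l (x, u) < 1 ∧ D.v (pk (l k) (x, u)) = 0} = 0 := by
  rcases Set.eq_empty_or_nonempty
    {u : Fin n → ℝ | VV D.L m l (x, u) < 1 ∧ D.v (pk (l k) (x, u)) = 0} with h | ⟨u0, h0⟩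
  · rw [h, measure_empty]
  · refine measure_mono_null ?_ (null_hyper' (l k) hk u0)
    intro u hu
    simp only [Set.mem_ofPred_eq] at h0 hu ⊢
    have m1 := mem_W_of_VV D m l (x, u) hu.1 k
    have m2 := mem_W_of_VV D m l (x, u0) h0.1 k
    have n1 := hu.2
    have n2 := h0.2
    simp only [pk] at m1 m2 n1 n2
    rcases lt_trichotomy (l k ⬝ᵥ u) (l k ⬝ᵥ u0) with h1 | h1 | h1
    · have := D.v_mono _ _ _ m1 m2 h1
      linarith
    · exact h1
    · have := D.v_mono _ _ _ m2 m1 h1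
      linarith

end T1aux

open T1aux

/-- T1: the real side for fixed `x` -/
theorem T1 (ha3 : H712MA.S_A3) : S_T1 := by
  intro γ lam D κ _ n m hm l hl x
  have hsub : ∫⁻ u in {u : Fin n → ℝ | VV D.L m l (x, u) < 1},
        ENNReal.ofReal (DS l (fun k => 2 * γ / m * (D.q (pk (l k) (x, u)) *
          af D.L m (pk (l k) (x, u))))) ≤
      ∫⁻ u in GU D m l x, ENNReal.ofReal (DS l (bb D m l x u)) := by
    refine lintegral_mono_set' ?_
    have hall : ∀ᵐ u : Fin n → ℝ, ∀ k, l k ≠ 0 → VV D.L m l (x, u) < 1 →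
        D.v (pk (l k) (x, u)) ≠ 0 := by
      rw [ae_all_iff]
      intro k
      by_cases hk : l k = 0
      · exact Eventually.of_forall fun u h => absurd hk h
      · rw [ae_iff]
        refine measure_mono_null ?_ (null_v D m l x k hk)
        intro u hu
        simp only [Set.mem_ofPred_eq, not_forall] at hu ⊢
        obtain ⟨_, h1, h2⟩ := hu
        exact ⟨h1, not_not.mp h2⟩
    filter_upwards [hall] with u hu hV
    exact ⟨hV, Set.mem_iInter.mpr fun k hk => hu k hk hV⟩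
  refine hsub.trans ?_
  have hint : ∫⁻ u in GU D m l x, ENNReal.ofReal (DS l (bb D m l x u)) =
      (n.factorial : ℝ≥0∞) * ∫⁻ u in GU D m l x, ENNReal.ofReal |(TD D m l x u).det| := by
    rw [← lintegral_const_mul' _ _ (ENNReal.natCast_ne_top _)]
    refine setLIntegral_congr_fun (measurable_GU D m l x) fun u hu => ?_
    have h1 := TD_det ha3 D m l x u
    have h5 := DS_nonneg l (bb D m l x u) (bb_nonneg D m l x u hu.1)
    have hn : (0 : ℝ) < n.factorial := by positivity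
    have h6 : 0 ≤ (TD D m l x u).det := by
      by_contra hneg
      push Not at hneg
      have := mul_neg_of_pos_of_neg hn hneg
      linarith
    rw [abs_of_nonneg h6, ← h1, ENNReal.ofReal_mul hn.le, ENNReal.ofReal_natCast]
  rw [hint]
  refine mul_le_mul_right ?_ _
  rw [lintegral_abs_det_fderiv_eq_addHaar_image volume (measurable_GU D m l x)
    (fun u hu => (TT_deriv D m hm l x u hu).hasFDerivWithinAt)
    (TT_inj D m hm l hl x)]
  exact measure_mono (TT_mem D m l x)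

end Pool.Agent.N294.FM
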