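import Pool.Agent.N294.FM.Stm
import Pool.Agent.H712R2.MA.R2

/-!
# FM, leaf T2: the real side, integrated over `x` (by helper821)
-/

set_option autoImplicit false

noncomputable section

open MeasureTheory Filter Topology
open scoped BigOperators Matrix ENNReal

namespace Pool.Agent.N294.FM

open H712MA

theorem T2 (h1 : S_T1) : S_T2 := by
  intro γ lam D κ _ n m hm l hl
  have heL : Measurable D.L.e := D.meas_e
  have haf : Measurable (af D.L m) := R2_measurable_af D.L heL m
  have hVV : Measurable (VV D.L m l) := R2_measurable_VV D.L heL m l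
  set f : E2 n → ℝ≥0∞ := fun z : E2 n => ENNReal.ofReal (DS l
      (fun k => 2 * γ / m * (D.q (pk (l k) z) * af D.L m (pk (l k) z)))) with hfdef
  have hf : Measurable f := by
    refine ENNReal.measurable_ofReal.comp ?_
    refine R2_measurable_DS l
      (fun k z => 2 * γ / m * (D.q (pk (l k) z) * af D.L m (pk (l k) z))) fun k => ?_
    exact ((D.meas_q.comp (R2_measurable_pk (l k))).mul
      (haf.comp (R2_measurable_pk (l k)))).const_mul _
  set A : Set (E2 n) := {z | VV D.L m l z < 1} with hAdef
  have hA : MeasurableSet A := measurableSet_lt hVV measurable_const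
  have hBd : MeasurableSet (BdL lam l) := by
    have hcl : IsClosed (BdL lam l) := by
      have e : BdL lam l = ⋂ k, {x | |l k ⬝ᵥ x| ≤ lam} := by
        ext x; simp [BdL]
      rw [e]
      refine isClosed_iInter fun k => isClosed_le ?_ continuous_const
      unfold dotProduct; fun_prop
    exact hcl.measurableSet
  -- if `V(x,u) < 1` then `x` is in the scaled polytope
  have hin : ∀ x u : Fin n → ℝ, (x, u) ∈ A → x ∈ BdL lam l := by
    intro x u hxu k
    have hV : VV D.L m l (x, u) < 1 := hxu
    have hk : ‖gf D.L m (pk (l k) (x, u))‖ ^ 2 < 1 := by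
      refine lt_of_le_of_lt ?_ hV
      unfold VV
      exact Finset.single_le_sum (f := fun k => ‖gf D.L m (pk (l k) (x, u))‖ ^ 2)
        (fun i _ => by positivity) (Finset.mem_univ k)
    have hp : pk (l k) (x, u) ∈ D.L.W := by
      by_contra hno
      have : D.L.e (pk (l k) (x, u)) = 1 := D.L.off _ hno
      unfold gf at hk
      rw [this] at hk
      simp at hk
    exact D.re_le _ hp
  calc ∫⁻ z in A, f z = ∫⁻ z, A.indicator f z := (lintegral_indicator hA f).symm
    _ = ∫⁻ x, ∫⁻ u, A.indicator f (x, u) := by
        rw [Measure.volume_eq_prod, lintegral_prod _ (hf.indicator hA).aemeasurable]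
    _ ≤ ∫⁻ x, (BdL lam l).indicator
          (fun x => (n.factorial : ℝ≥0∞) * volume (PolT l x)) x := by
        apply lintegral_mono; intro x
        by_cases hx : x ∈ BdL lam l
        · rw [Set.indicator_of_mem hx]
          refine le_trans (le_of_eq ?_) (h1 γ lam D κ n m hm l hl x)
          rw [← lintegral_indicator]
          · rfl
          · exact measurableSet_lt (hVV.comp measurable_prodMk_left) measurable_const
        · rw [Set.indicator_of_notMem hx]
          have h0 : ∀ u, A.indicator f (x, u) = 0 := fun u =>
            Set.indicator_of_notMem (fun h => hx (hin x u h)) _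
          simp [h0]
    _ = (n.factorial : ℝ≥0∞) * ∫⁻ x in BdL lam l, volume (PolT l x) := by
        rw [lintegral_indicator hBd, lintegral_const_mul' _ _ (ENNReal.natCast_ne_top _)]

end Pool.Agent.N294.FM
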