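import Pool.Agent.N294.FM.Stm
import Pool.Agent.H712R2.MA.Z

/-! # Leaf T4 (helper170): the polytope case -/

set_option autoImplicit false

noncomputable section

open MeasureTheory Filter Topology
open scoped BigOperators Matrix ENNReal

namespace Pool.Agent.N294.FM

open H712MA hiding hh hd gg WW eta qq
open H712MA.Z0 (DS_nonneg DS_smul af_nonneg)

namespace T4aux

/-- the case of dimension zero -/
theorem dim0 {κ : Type} [Fintype κ] (γ lam : ℝ) (l : κ → Fin 0 → ℝ) :
    ENNReal.ofReal ((2 * Real.pi * γ) ^ 0 / Nat.factorial 0) ≤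
      ∫⁻ x in BdL lam l, volume (PolT l x) ∨ BdL lam l ≠ Set.univ := by
  by_cases h : BdL lam l = Set.univ
  · left
    have h2 : ∀ x : Fin 0 → ℝ, PolT l x = Set.univ := by
      intro x
      ext y
      simp [PolT, dotProduct]
    have h3 : volume (Set.univ : Set (Fin 0 → ℝ)) = 1 := by
      rw [MeasureTheory.volume_pi, MeasureTheory.Measure.pi_of_empty]
      simp
    rw [h]
    simp only [h2, h3]
    simp [h3]
  · right; exact h

/-- the basic inequality for one `m` and one cut-off -/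
theorem basic (hC6 : S_C6) (hS : S_S) (h2 : S_T2) (h3 : S_T3) {γ lam : ℝ} (D : FL γ lam)
    {κ : Type} [Fintype κ] (r : ℕ) (l : κ → Fin (r + 1) → ℝ)
    (hl : Spans l) (m : ℕ) (hm : 1 ≤ m) (v0 : ℝ) (h0 : 0 < v0) (h1 : v0 < 1) :
    ENNReal.ofReal ((2 * Real.pi * γ * v0) ^ (r + 1)) ≤
      ((r + 1).factorial : ℝ≥0∞) * (∫⁻ x in BdL lam l, volume (PolT l x)) +
      (ENNReal.ofReal ((2 * γ) ^ (r + 1)) * ((Fintype.card κ : ℝ≥0∞) ^ (r + 1) *
        ((r + 1 : ℕ) : ℝ≥0∞)) * ENNReal.ofReal Real.pi ^ r) *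
      ((∫⁻ p, ENNReal.ofReal (af D.L m p * (1 - D.q p))) / (m : ℝ≥0∞)) := by
  obtain ⟨ψ, v1, hcut, hψ1, hint⟩ := hS v0 h0 h1
  have hmr : (0 : ℝ) < m := by exact_mod_cast hm
  have hpi := Real.pi_pos
  have hγ := D.γ_pos
  -- complex side
  have e1 : ((m : ℝ) * Real.pi * v0) ^ (r + 1) ≤
      ∫ z : E2 (r + 1), ψ (VV D.L m l z) * DS l (fun k => af D.L m (pk (l k) z)) := by
    refine le_trans ?_ (hC6 κ r D.L m hm l hl ψ v1 hcut)
    have h2 := hint (r + 1)
    have hf : (0 : ℝ) < ((r + 1).factorial : ℝ) := by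
      exact_mod_cast Nat.factorial_pos _
    calc ((m : ℝ) * Real.pi * v0) ^ (r + 1) =
        ((r + 1).factorial : ℝ) * (m * Real.pi) ^ (r + 1) *
          (v0 ^ (r + 1) / (r + 1).factorial) := by
          field_simp
          rw [← mul_pow]
      _ ≤ _ := mul_le_mul_of_nonneg_left h2 (by positivity)
  have e2 : ENNReal.ofReal (((m : ℝ) * Real.pi * v0) ^ (r + 1)) ≤
      ∫⁻ z in {z : E2 (r + 1) | VV D.L m l z < 1},
        ENNReal.ofReal (DS l (fun k => af D.L m (pk (l k) z))) := by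
    calc ENNReal.ofReal (((m : ℝ) * Real.pi * v0) ^ (r + 1))
        ≤ ENNReal.ofReal (∫ z : E2 (r + 1), ψ (VV D.L m l z) *
            DS l (fun k => af D.L m (pk (l k) z))) := ENNReal.ofReal_le_ofReal e1
      _ ≤ ‖∫ z : E2 (r + 1), ψ (VV D.L m l z) * DS l (fun k => af D.L m (pk (l k) z))‖ₑ := by
          rw [← ofReal_norm]
          exact ENNReal.ofReal_le_ofReal (le_abs_self _)
      _ ≤ ∫⁻ z : E2 (r + 1), ‖ψ (VV D.L m l z) * DS l (fun k => af D.L m (pk (l k) z))‖ₑ :=
          enorm_integral_le_lintegral_enorm _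
      _ ≤ ∫⁻ z : E2 (r + 1), ({z : E2 (r + 1) | VV D.L m l z < 1}).indicator
            (fun z => ENNReal.ofReal (DS l (fun k => af D.L m (pk (l k) z)))) z := by
          refine lintegral_mono fun z => ?_
          have hD : 0 ≤ DS l (fun k => af D.L m (pk (l k) z)) :=
            DS_nonneg l _ fun k => af_nonneg D.L m _
          by_cases hz : VV D.L m l z < 1
          · rw [Set.indicator_of_mem (by exact hz)]
            rw [← ofReal_norm]
            refine ENNReal.ofReal_le_ofReal ?_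
            rw [Real.norm_eq_abs, abs_mul, abs_of_nonneg (hcut.nonneg _), abs_of_nonneg hD]
            calc ψ (VV D.L m l z) * DS l (fun k => af D.L m (pk (l k) z)) ≤
                1 * DS l (fun k => af D.L m (pk (l k) z)) :=
                  mul_le_mul_of_nonneg_right (hψ1 _) hD
              _ = _ := one_mul _
          · have h3 : ψ (VV D.L m l z) = 0 := hcut.zero _ (by
              have := hcut.lt1
              push Not at hz
              linarith)
            rw [h3, zero_mul, enorm_zero]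
            exact zero_le
      _ ≤ _ := lintegral_indicator_le _ _
  -- error term
  have e3 := e2.trans (h3 γ lam D κ r m hm l)
  -- real side
  have e4 := h2 γ lam D κ (r + 1) m hm l hl
  have e5 : ENNReal.ofReal ((2 * γ / m) ^ (r + 1)) *
      (∫⁻ z in {z : E2 (r + 1) | VV D.L m l z < 1},
        ENNReal.ofReal (DS l (fun k => D.q (pk (l k) z) * af D.L m (pk (l k) z)))) ≤
      ((r + 1).factorial : ℝ≥0∞) * ∫⁻ x in BdL lam l, volume (PolT l x) := by
    refine le_trans (le_of_eq ?_) e4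
    rw [← lintegral_const_mul' _ _ ENNReal.ofReal_ne_top]
    refine lintegral_congr fun z => ?_
    rw [← ENNReal.ofReal_mul (by positivity), ← DS_smul]
  -- combine
  have e6 : ENNReal.ofReal ((2 * γ / m) ^ (r + 1)) *
      ENNReal.ofReal (((m : ℝ) * Real.pi * v0) ^ (r + 1)) ≤
      ((r + 1).factorial : ℝ≥0∞) * (∫⁻ x in BdL lam l, volume (PolT l x)) +
      ENNReal.ofReal ((2 * γ / m) ^ (r + 1)) *
      (((Fintype.card κ : ℝ≥0∞) ^ (r + 1) * ((r + 1 : ℕ) : ℝ≥0∞)) *
        (ENNReal.ofReal (m * Real.pi) ^ r *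
          ∫⁻ p, ENNReal.ofReal (af D.L m p * (1 - D.q p)))) := by
    refine (mul_le_mul_right e3 _).trans ?_
    rw [mul_add]
    exact add_le_add e5 le_rfl
  have hm0 : (m : ℝ≥0∞) ≠ 0 := by
    have : m ≠ 0 := by omega
    exact_mod_cast this
  have hmt : (m : ℝ≥0∞) ≠ ∞ := ENNReal.natCast_ne_top m
  have e7 : ENNReal.ofReal ((2 * γ / m) ^ (r + 1)) *
      ENNReal.ofReal (((m : ℝ) * Real.pi * v0) ^ (r + 1)) =
      ENNReal.ofReal ((2 * Real.pi * γ * v0) ^ (r + 1)) := by
    rw [← ENNReal.ofReal_mul (by positivity)]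
    congr 1
    rw [← mul_pow]
    congr 1
    field_simp
  have e8 : ENNReal.ofReal ((2 * γ / m) ^ (r + 1)) *
      (((Fintype.card κ : ℝ≥0∞) ^ (r + 1) * ((r + 1 : ℕ) : ℝ≥0∞)) *
        (ENNReal.ofReal (m * Real.pi) ^ r *
          ∫⁻ p, ENNReal.ofReal (af D.L m p * (1 - D.q p)))) =
      (ENNReal.ofReal ((2 * γ) ^ (r + 1)) * ((Fintype.card κ : ℝ≥0∞) ^ (r + 1) *
        ((r + 1 : ℕ) : ℝ≥0∞)) * ENNReal.ofReal Real.pi ^ r) *
      ((∫⁻ p, ENNReal.ofReal (af D.L m p * (1 - D.q p))) / (m : ℝ≥0∞)) := by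
    have h5 : ENNReal.ofReal ((2 * γ / m) ^ (r + 1)) * ENNReal.ofReal (m * Real.pi) ^ r =
        ENNReal.ofReal ((2 * γ) ^ (r + 1)) * ENNReal.ofReal Real.pi ^ r * (m : ℝ≥0∞)⁻¹ := by
      rw [← ENNReal.ofReal_pow (by positivity), ← ENNReal.ofReal_pow hpi.le,
        ← ENNReal.ofReal_mul (by positivity), ← ENNReal.ofReal_mul (by positivity),
        ← ENNReal.ofReal_natCast, ← ENNReal.ofReal_inv_of_pos hmr,
        ← ENNReal.ofReal_mul (by positivity)]
      congr 1
      rw [div_pow, mul_pow (m : ℝ), pow_succ (m : ℝ) r]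
      field_simp
    rw [ENNReal.div_eq_inv_mul]
    calc _ = (ENNReal.ofReal ((2 * γ / m) ^ (r + 1)) * ENNReal.ofReal (m * Real.pi) ^ r) *
          (((Fintype.card κ : ℝ≥0∞) ^ (r + 1) * ((r + 1 : ℕ) : ℝ≥0∞)) *
          ∫⁻ p, ENNReal.ofReal (af D.L m p * (1 - D.q p))) := by ring
      _ = _ := by rw [h5]; ring
  rw [e7, e8] at e6
  exact e6

end T4aux

open T4aux in
theorem T4 (hC6 : S_C6) (hS : S_S) (h2 : S_T2) (h3 : S_T3) : S_T4 := by
  intro γ lam D κ _ n l hl
  cases n with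
  | zero =>
    have h0 : 0 ≤ lam := by
      have := D.re_le 0 D.L.zero_mem
      rwa [Complex.zero_re, abs_zero] at this
    have h4 : BdL lam l = Set.univ := by
      refine Set.eq_univ_of_forall fun x k => ?_
      simpa [dotProduct] using h0
    rcases dim0 γ lam l with h | h
    · exact h
    · exact absurd h4 h
  | succ r =>
    set C : ℝ≥0∞ := ENNReal.ofReal ((2 * γ) ^ (r + 1)) * ((Fintype.card κ : ℝ≥0∞) ^ (r + 1) *
        ((r + 1 : ℕ) : ℝ≥0∞)) * ENNReal.ofReal Real.pi ^ r with hC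
    have hCt : C ≠ ∞ := by
      rw [hC]
      refine ENNReal.mul_ne_top (ENNReal.mul_ne_top ENNReal.ofReal_ne_top ?_)
        (ENNReal.pow_ne_top ENNReal.ofReal_ne_top)
      exact ENNReal.mul_ne_top (ENNReal.pow_ne_top (ENNReal.natCast_ne_top _))
        (ENNReal.natCast_ne_top _)
    set T : ℝ≥0∞ := ((r + 1).factorial : ℝ≥0∞) *
      (∫⁻ x in BdL lam l, volume (PolT l x)) with hT
    have h1 : ∀ v0 : ℝ, 0 < v0 → v0 < 1 →
        ENNReal.ofReal ((2 * Real.pi * γ * v0) ^ (r + 1)) ≤ T := by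
      intro v0 h0 h1
      have ht : Tendsto (fun m : ℕ => T + C *
          ((∫⁻ p, ENNReal.ofReal (af D.L m p * (1 - D.q p))) / (m : ℝ≥0∞))) atTop (𝓝 T) := by
        have h3 := ENNReal.Tendsto.const_mul (a := C) D.lim (Or.inr hCt)
        rw [mul_zero] at h3
        have h4 := (tendsto_const_nhds (x := T)).add h3
        rw [add_zero] at h4
        exact h4
      refine ge_of_tendsto ht ?_
      filter_upwards [eventually_ge_atTop 1] with m hm
      exact basic hC6 hS h2 h3 D r l hl m hm v0 h0 h1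
    have h2 : ENNReal.ofReal ((2 * Real.pi * γ) ^ (r + 1)) ≤ T := by
      have hc : Tendsto (fun v0 : ℝ => ENNReal.ofReal ((2 * Real.pi * γ * v0) ^ (r + 1)))
          (𝓝[<] 1) (𝓝 (ENNReal.ofReal ((2 * Real.pi * γ * 1) ^ (r + 1)))) := by
        have : Continuous (fun v0 : ℝ => ENNReal.ofReal ((2 * Real.pi * γ * v0) ^ (r + 1))) :=
          ENNReal.continuous_ofReal.comp (by fun_prop)
        exact (this.tendsto 1).mono_left nhdsWithin_le_nhds
      rw [mul_one] at hc
      refine le_of_tendsto hc ?_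
      have hev : ∀ᶠ v0 : ℝ in 𝓝[<] 1, v0 ∈ Set.Ioo (0 : ℝ) 1 :=
        Ioo_mem_nhdsLT (by norm_num)
      filter_upwards [hev] with v0 hv
      exact h1 v0 hv.1 hv.2
    have hf0 : ((r + 1).factorial : ℝ≥0∞) ≠ 0 := by
      have := Nat.factorial_ne_zero (r + 1)
      exact_mod_cast this
    have hft : ((r + 1).factorial : ℝ≥0∞) ≠ ∞ := ENNReal.natCast_ne_top _
    have hfr : (0 : ℝ) < ((r + 1).factorial : ℝ) := by
      exact_mod_cast Nat.factorial_pos (r + 1)
    rw [← ENNReal.mul_le_mul_iff_right hf0 hft]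
    refine le_trans (le_of_eq ?_) h2
    rw [← ENNReal.ofReal_natCast, ← ENNReal.ofReal_mul hfr.le]
    congr 1
    field_simp

end Pool.Agent.N294.FM
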