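import Pool.Agent.N294.FM.Stm

/-!
# T5: from polytopes to general centrally symmetric convex bodies
-/

set_option autoImplicit false

noncomputable section

open MeasureTheory Filter Topology Set
open scoped BigOperators Matrix ENNReal Pointwise

namespace Pool.Agent.N294.FM

open H712MA

namespace T5aux

variable {n : ℕ} {K : Set (Fin n → ℝ)}

/-- a symmetric convex body inside an open set `U` is contained in a polytope inside `U` -/
lemma approx (h : GB.SBody K) {U : Set (Fin n → ℝ)} (hU : IsOpen U) (hKU : K ⊆ U) :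
    ∃ (N : ℕ) (l : Fin n ⊕ Fin N → Fin n → ℝ), Spans l ∧ K ⊆ Bd l ∧ Bd l ⊆ U := by
  obtain ⟨M, hM⟩ := isBounded_iff_forall_norm_le.1 h.comp.isBounded
  have hM0 : 0 ≤ M := (norm_nonneg _).trans (hM 0 (GB.zero_mem h))
  set r : ℝ := 1 / (M + 1) with hr
  have hr0 : 0 < r := by positivity
  have hne : Nonempty (GB.plr K) := ⟨0, fun x _ => by simp⟩
  set y : ℕ → Fin n → ℝ := fun j => (TopologicalSpace.denseSeq (GB.plr K) j : Fin n → ℝ) with hy
  have hmem : ∀ j, y j ∈ GB.plr K := fun j => (TopologicalSpace.denseSeq (GB.plr K) j).2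
  have hsub : ∀ N, K ⊆ Bd (GB.ll r y N) := by
    intro N x hx k
    rcases k with i | j
    · simp only [GB.ll, single_dotProduct]
      rw [abs_mul, abs_of_pos hr0]
      have h1 : |x i| ≤ M := (norm_le_pi_norm x i).trans (hM x hx)
      rw [hr, one_div, inv_mul_le_iff₀ (by positivity)]
      linarith
    · exact GB.abs_dot_le h (hmem j) hx
  have hinter : ⋂ N, Bd (GB.ll r y N) = K := by
    refine Subset.antisymm (fun x hx => ?_) (subset_iInter hsub)
    by_contra hxK
    obtain ⟨w, hw, hw1⟩ := GB.bipolar h hxK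
    have hopen : IsOpen {v : GB.plr K | 1 < (v : Fin n → ℝ) ⬝ᵥ x} := by
      have hc : Continuous fun v : Fin n → ℝ => v ⬝ᵥ x := by
        unfold dotProduct; fun_prop
      exact isOpen_lt continuous_const (hc.comp continuous_subtype_val)
    obtain ⟨j, hj⟩ :=
      (TopologicalSpace.denseRange_denseSeq (GB.plr K)).exists_mem_open hopen ⟨⟨w, hw⟩, hw1⟩
    have h1 := mem_iInter.1 hx (j + 1) (Sum.inr (Fin.last j))
    have h2 : GB.ll r y (j + 1) (Sum.inr (Fin.last j)) = y j := by simp [GB.ll]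
    rw [h2] at h1
    have h3 : 1 < y j ⬝ᵥ x := hj
    linarith [le_abs_self (y j ⬝ᵥ x)]
  have hdir : Directed (· ⊇ ·) fun N => Bd (GB.ll r y N) :=
    directed_of_isDirected_le fun N N' hNN' => GB.Bd_anti r y hNN'
  obtain ⟨N, hN⟩ := exists_subset_nhds_of_isCompact' (U := U) hdir
    (fun N => Metric.isCompact_of_isClosed_isBounded (GB.Bd_closed _) (GB.Bd_bdd r hr0 y N))
    (fun N => GB.Bd_closed _)
    (fun x hx => hU.mem_nhds (hKU (hinter ▸ hx)))
  exact ⟨N, GB.ll r y N, GB.spans_ll r hr0 y N, hsub N, hN⟩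

lemma subset_int (h : GB.SBody K) {s : ℝ} (hs : 1 < s) : K ⊆ interior (s • K) := by
  have h1 := h.conv.subset_interior_image_homothety_of_one_lt (GB.zero_mem_interior h) s hs
  have h2 : (AffineMap.homothety (0 : Fin n → ℝ) s) '' K = s • K := by
    ext x
    simp [AffineMap.homothety_apply, mem_smul_set]
  rwa [h2] at h1

lemma step (h8 : S_S8) (h4 : S_T4) (h : GB.SBody K) {lam mu : ℝ} (hmu : 0 < mu) (hml : mu < lam)
    (hl : lam < 1) :
    ENNReal.ofReal ((2 * Real.log ((1 + mu) / (1 - mu))) ^ n / n.factorial) ≤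
      ∫⁻ x in lam • K, volume (plrT K x) := by
  have hs : 1 < lam / mu := by rw [lt_div_iff₀ hmu]; linarith
  obtain ⟨N, l, hsp, hKl, hlU⟩ := approx h (isOpen_interior (s := (lam / mu) • K)) (subset_int h hs)
  obtain ⟨D⟩ := h8 mu hmu (hml.trans hl)
  have h1 := h4 _ mu D _ n l hsp
  have h2 : 2 * Real.pi * (Real.log ((1 + mu) / (1 - mu)) / Real.pi) =
      2 * Real.log ((1 + mu) / (1 - mu)) := by
    have := Real.pi_ne_zero
    field_simp
  rw [h2] at h1
  refine h1.trans ?_
  have hset : BdL mu l ⊆ lam • K := by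
    intro x hx
    have hx1 : mu⁻¹ • x ∈ Bd l := by
      intro k
      have := hx k
      rw [dotProduct_smul, smul_eq_mul, abs_mul, abs_of_pos (inv_pos.2 hmu),
        inv_mul_le_iff₀ hmu, mul_one]
      exact this
    have hx2 := interior_subset (hlU hx1)
    obtain ⟨z, hz, hzx⟩ := mem_smul_set.1 hx2
    refine mem_smul_set.2 ⟨z, hz, ?_⟩
    have : x = mu • (mu⁻¹ • x) := by rw [smul_smul, mul_inv_cancel₀ hmu.ne', one_smul]
    rw [this, ← hzx, smul_smul, mul_div_cancel₀ _ hmu.ne']
  refine (lintegral_mono_set hset).trans (lintegral_mono fun x => measure_mono ?_)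
  intro y hy z hz
  exact hy z (hKl hz)

end T5aux

open T5aux in
/-- **T5** -/
theorem T5 (h8 : S_S8) (h4 : S_T4) : S_T5 := by
  intro n K hK lam h0 h1
  have hcont : ContinuousAt (fun mu : ℝ =>
      ENNReal.ofReal ((2 * Real.log ((1 + mu) / (1 - mu))) ^ n / n.factorial)) lam := by
    have h2 : (1 - lam) ≠ 0 := by linarith
    have h3 : (1 + lam) / (1 - lam) ≠ 0 := by
      have : 0 < (1 + lam) / (1 - lam) := div_pos (by linarith) (by linarith)
      exact this.ne'
    refine ENNReal.continuous_ofReal.continuousAt.comp ?_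
    refine ContinuousAt.div_const ?_ _
    refine ContinuousAt.pow ?_ _
    refine ContinuousAt.mul continuousAt_const ?_
    refine ContinuousAt.log ?_ h3
    exact ContinuousAt.div (by fun_prop) (by fun_prop) h2
  have hten : Tendsto (fun mu : ℝ =>
      ENNReal.ofReal ((2 * Real.log ((1 + mu) / (1 - mu))) ^ n / n.factorial)) (𝓝[<] lam)
      (𝓝 (ENNReal.ofReal ((2 * Real.log ((1 + lam) / (1 - lam))) ^ n / n.factorial))) :=
    hcont.tendsto.mono_left nhdsWithin_le_nhds
  refine le_of_tendsto hten ?_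
  filter_upwards [Ioo_mem_nhdsLT h0] with mu hmu
  exact step h8 h4 hK hmu.1 hmu.2 h1

end Pool.Agent.N294.FM
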